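import Mathlib

/-!
# Base-`p` certificate: kernels `M`, `X`, `Z`, null identity, pairing identity

`b : ℕ → ℝ` is a positive sequence up to `n`, zero after `n`.
-/

namespace B4

open Finset

/-- `∑_{v ≤ k} (N - 2v) b_v b_{N-v}`, `N = j + k + 1`. -/
noncomputable def MH (b : ℕ → ℝ) (j k : ℕ) : ℝ :=
  ∑ v ∈ range (k + 1), (((j + k + 1 : ℕ) : ℝ) - 2 * (v : ℝ)) * (b v * b (j + k + 1 - v))

/-- the doubled sequence `b_0^2, b_0 b_1, b_1^2, b_1 b_2, …`. -/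
noncomputable def dbl (b : ℕ → ℝ) (m : ℕ) : ℝ := b (m / 2) * b ((m + 1) / 2)

/-- hat of `X`: Bezoutian of `∑ b_k^2 x^k` and `∑ b_k b_{k+1} x^k` (even block). -/
noncomputable def XH (b : ℕ → ℝ) (j k : ℕ) : ℝ :=
  ∑ v ∈ range (2 * k + 1), (-1 : ℝ) ^ v * (dbl b v * dbl b (2 * j + 2 * k + 1 - v))

/-- hat of `Z` (odd block). -/
noncomputable def ZH (b : ℕ → ℝ) (j k : ℕ) : ℝ :=
  - ∑ v ∈ range (2 * k + 2), (-1 : ℝ) ^ v * (dbl b v * dbl b (2 * j + 2 * k + 3 - v))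

noncomputable def KM (b : ℕ → ℝ) (j k : ℕ) : ℝ := MH b j k / (b j * b k)
noncomputable def KX (b : ℕ → ℝ) (j k : ℕ) : ℝ := XH b j k / (b j ^ 2 * b k ^ 2)
noncomputable def KZ (b : ℕ → ℝ) (j k : ℕ) : ℝ :=
  ZH b j k / (b j * b (j + 1) * (b k * b (k + 1)))

lemma dbl_even (b : ℕ → ℝ) (k : ℕ) : dbl b (2 * k) = b k ^ 2 := by
  unfold dbl
  have h1 : 2 * k / 2 = k := by omega
  have h2 : (2 * k + 1) / 2 = k := by omega
  rw [h1, h2]; ring

lemma dbl_odd (b : ℕ → ℝ) (k : ℕ) : dbl b (2 * k + 1) = b k * b (k + 1) := by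
  unfold dbl
  have h1 : (2 * k + 1) / 2 = k := by omega
  have h2 : (2 * k + 1 + 1) / 2 = k + 1 := by omega
  rw [h1, h2]

/-- general antisymmetric antidiagonal sum: partial sums up to `K` and up to `L` agree when
`K + L + 1 = N`. -/
lemma antisymm_partial (f : ℕ → ℝ) (N K L : ℕ) (hN : K + L + 1 = N)
    (hf : ∀ v ≤ N, f (N - v) = - f v) :
    ∑ v ∈ range (K + 1), f v = ∑ v ∈ range (L + 1), f v := by
  -- full sum is zero
  have hfull : ∑ v ∈ range (N + 1), f v = 0 := by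
    have h1 : ∑ v ∈ range (N + 1), f v = ∑ v ∈ range (N + 1), f (N - v) := by
      rw [← Finset.sum_range_reflect f (N + 1)]
      apply Finset.sum_congr rfl
      intro v hv
      have : N + 1 - 1 - v = N - v := by omega
      rw [this]
    have h2 : ∑ v ∈ range (N + 1), f (N - v) = - ∑ v ∈ range (N + 1), f v := by
      rw [← Finset.sum_neg_distrib]
      apply Finset.sum_congr rfl
      intro v hv
      exact hf v (by have := Finset.mem_range.mp hv; omega)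
    linarith
  have hsplit : ∑ v ∈ range (N + 1), f v
      = ∑ v ∈ range (K + 1), f v + ∑ v ∈ range (L + 1), f (K + 1 + v) := by
    have : N + 1 = (K + 1) + (L + 1) := by omega
    rw [this, Finset.sum_range_add]
  have hrefl : ∑ v ∈ range (L + 1), f (K + 1 + v) = - ∑ v ∈ range (L + 1), f v := by
    rw [← Finset.sum_range_reflect (fun v => f (K + 1 + v)) (L + 1), ← Finset.sum_neg_distrib]
    apply Finset.sum_congr rfl
    intro v hv
    have hv' := Finset.mem_range.mp hv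
    have h1 : K + 1 + (L + 1 - 1 - v) = N - v := by omega
    show f (K + 1 + (L + 1 - 1 - v)) = - f v
    rw [h1]
    exact hf v (by omega)
  linarith

lemma MH_symm (b : ℕ → ℝ) (j k : ℕ) : MH b j k = MH b k j := by
  unfold MH
  have hN : k + j + 1 = j + k + 1 := by omega
  have h2 : ∀ v : ℕ, (((k + j + 1 : ℕ) : ℝ) - 2 * (v : ℝ)) * (b v * b (k + j + 1 - v))
      = (((j + k + 1 : ℕ) : ℝ) - 2 * (v : ℝ)) * (b v * b (j + k + 1 - v)) := by
    intro v; rw [hN]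
  rw [Finset.sum_congr rfl (fun v _ => h2 v)]
  apply antisymm_partial (fun v => (((j + k + 1 : ℕ) : ℝ) - 2 * (v : ℝ)) *
    (b v * b (j + k + 1 - v))) (j + k + 1) k j (by omega)
  intro v hv
  have h1 : j + k + 1 - (j + k + 1 - v) = v := by omega
  simp only [h1]
  rw [Nat.cast_sub hv]
  ring

lemma XH_symm (b : ℕ → ℝ) (j k : ℕ) : XH b j k = XH b k j := by
  unfold XH
  have hN : 2 * k + 2 * j + 1 = 2 * j + 2 * k + 1 := by omega
  rw [hN]
  apply antisymm_partial (fun v => (-1 : ℝ) ^ v * (dbl b v * dbl b (2 * j + 2 * k + 1 - v)))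
    (2 * j + 2 * k + 1) (2 * k) (2 * j) (by omega)
  intro v hv
  have h1 : 2 * j + 2 * k + 1 - (2 * j + 2 * k + 1 - v) = v := by omega
  simp only [h1]
  have h2 : (-1 : ℝ) ^ (2 * j + 2 * k + 1 - v) = - (-1) ^ v := by
    have h3 : (-1 : ℝ) ^ (2 * j + 2 * k + 1 - v) * (-1) ^ v = -1 := by
      rw [← pow_add]
      have : 2 * j + 2 * k + 1 - v + v = 2 * (j + k) + 1 := by omega
      rw [this, pow_succ, pow_mul]; norm_num
    have h4 : (-1 : ℝ) ^ v * (-1) ^ v = 1 := by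
      rw [← pow_add, ← two_mul, pow_mul]; norm_num
    calc (-1 : ℝ) ^ (2 * j + 2 * k + 1 - v)
        = (-1 : ℝ) ^ (2 * j + 2 * k + 1 - v) * ((-1) ^ v * (-1) ^ v) := by rw [h4, mul_one]
      _ = ((-1 : ℝ) ^ (2 * j + 2 * k + 1 - v) * (-1) ^ v) * (-1) ^ v := by ring
      _ = - (-1) ^ v := by rw [h3]; ring
  rw [h2]; ring

lemma ZH_symm (b : ℕ → ℝ) (j k : ℕ) : ZH b j k = ZH b k j := by
  unfold ZH
  have hN : 2 * k + 2 * j + 3 = 2 * j + 2 * k + 3 := by omega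
  rw [hN]
  congr 1
  apply antisymm_partial (fun v => (-1 : ℝ) ^ v * (dbl b v * dbl b (2 * j + 2 * k + 3 - v)))
    (2 * j + 2 * k + 3) (2 * k + 1) (2 * j + 1) (by omega)
  intro v hv
  have h1 : 2 * j + 2 * k + 3 - (2 * j + 2 * k + 3 - v) = v := by omega
  simp only [h1]
  have h2 : (-1 : ℝ) ^ (2 * j + 2 * k + 3 - v) = - (-1) ^ v := by
    have h3 : (-1 : ℝ) ^ (2 * j + 2 * k + 3 - v) * (-1) ^ v = -1 := by
      rw [← pow_add]
      have : 2 * j + 2 * k + 3 - v + v = 2 * (j + k + 1) + 1 := by omega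
      rw [this, pow_succ, pow_mul]; norm_num
    have h4 : (-1 : ℝ) ^ v * (-1) ^ v = 1 := by
      rw [← pow_add, ← two_mul, pow_mul]; norm_num
    calc (-1 : ℝ) ^ (2 * j + 2 * k + 3 - v)
        = (-1 : ℝ) ^ (2 * j + 2 * k + 3 - v) * ((-1) ^ v * (-1) ^ v) := by rw [h4, mul_one]
      _ = ((-1 : ℝ) ^ (2 * j + 2 * k + 3 - v) * (-1) ^ v) * (-1) ^ v := by ring
      _ = - (-1) ^ v := by rw [h3]; ring
  rw [h2]; ring

/-- recursion for `M`: `Mh(j+1,k) - Mh(j,k+1) = (k - j) b_{j+1} b_{k+1}`. -/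
lemma MH_rec (b : ℕ → ℝ) (j k : ℕ) :
    MH b (j + 1) k - MH b j (k + 1) = ((k : ℝ) - j) * (b (j + 1) * b (k + 1)) := by
  unfold MH
  have hN : j + (k + 1) + 1 = j + 1 + k + 1 := by omega
  rw [hN, Finset.sum_range_succ _ (k + 1)]
  have h1 : j + 1 + k + 1 - (k + 1) = j + 1 := by omega
  rw [h1]
  push_cast
  ring

/-- first row: `Mh(0,k) = (k+1) b_0 b_{k+1}`. -/
lemma MH_zero (b : ℕ → ℝ) (k : ℕ) : MH b 0 k = ((k : ℝ) + 1) * (b 0 * b (k + 1)) := by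
  rw [MH_symm]
  unfold MH
  simp

/-- `Xh(0,k) = b_0^2 b_k b_{k+1}`. -/
lemma XH_zero (b : ℕ → ℝ) (k : ℕ) : XH b 0 k = b 0 ^ 2 * (b k * b (k + 1)) := by
  rw [XH_symm]
  unfold XH
  have h0 : dbl b 0 = b 0 ^ 2 := by simpa using dbl_even b 0
  simp [h0, dbl_odd]

/-- `Xh(j+1,k) + Zh(k,j) = b_{j+1}^2 b_k b_{k+1}`. -/
lemma XZ_rec (b : ℕ → ℝ) (j k : ℕ) :
    XH b (j + 1) k + ZH b k j = b (j + 1) ^ 2 * (b k * b (k + 1)) := by
  rw [XH_symm]
  unfold XH ZH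
  have hN : 2 * k + 2 * j + 3 = 2 * k + 2 * (j + 1) + 1 := by omega
  rw [hN]
  have h2 : 2 * (j + 1) + 1 = (2 * j + 2) + 1 := by omega
  rw [h2, Finset.sum_range_succ]
  have h3 : 2 * k + 2 * (j + 1) + 1 - (2 * j + 2) = 2 * k + 1 := by omega
  have h4 : 2 * j + 2 = 2 * (j + 1) := by omega
  rw [h3, dbl_odd]
  have h5 : dbl b (2 * j + 2) = b (j + 1) ^ 2 := by rw [h4, dbl_even]
  have h6 : (-1 : ℝ) ^ (2 * j + 2) = 1 := by rw [h4, pow_mul]; norm_num
  rw [h5, h6]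
  ring

lemma MH_top (b : ℕ → ℝ) (n k : ℕ) (h0 : ∀ i, n < i → b i = 0) : MH b n k = 0 := by
  unfold MH
  apply Finset.sum_eq_zero
  intro v hv
  have hv' := Finset.mem_range.mp hv
  rw [h0 (n + k + 1 - v) (by omega)]
  ring

lemma XH_top (b : ℕ → ℝ) (n k : ℕ) (h0 : ∀ i, n < i → b i = 0) : XH b n k = 0 := by
  unfold XH
  apply Finset.sum_eq_zero
  intro v hv
  have hv' := Finset.mem_range.mp hv
  have : dbl b (2 * n + 2 * k + 1 - v) = 0 := by
    unfold dbl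
    rw [h0 ((2 * n + 2 * k + 1 - v + 1) / 2) (by omega)]
    ring
  rw [this]; ring

lemma KM_symm (b : ℕ → ℝ) (j k : ℕ) : KM b j k = KM b k j := by
  unfold KM; rw [MH_symm, mul_comm (b j)]

lemma KX_symm (b : ℕ → ℝ) (j k : ℕ) : KX b j k = KX b k j := by
  unfold KX; rw [XH_symm, mul_comm (b j ^ 2)]

lemma KZ_symm (b : ℕ → ℝ) (j k : ℕ) : KZ b j k = KZ b k j := by
  unfold KZ; rw [ZH_symm, mul_comm (b j * b (j + 1))]

/-- `S_k M(j+1,k) - s_{j+1} M(j,k+1) = k - j`, `S_k = b_k/b_{k+1}`, `s_{j+1} = b_j/b_{j+1}`. -/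
lemma KM_rec (b : ℕ → ℝ) (j k : ℕ) (hj : b j ≠ 0) (hj1 : b (j + 1) ≠ 0) (hk : b k ≠ 0)
    (hk1 : b (k + 1) ≠ 0) :
    b k / b (k + 1) * KM b (j + 1) k - b j / b (j + 1) * KM b j (k + 1) = (k : ℝ) - j := by
  have h := MH_rec b j k
  unfold KM
  have : b k / b (k + 1) * (MH b (j + 1) k / (b (j + 1) * b k))
      - b j / b (j + 1) * (MH b j (k + 1) / (b j * b (k + 1)))
      = (MH b (j + 1) k - MH b j (k + 1)) / (b (j + 1) * b (k + 1)) := by
    field_simp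
  rw [this, h]
  field_simp

lemma KM_zero (b : ℕ → ℝ) (k : ℕ) (h0 : b 0 ≠ 0) (hk : b k ≠ 0) (hk1 : b (k + 1) ≠ 0) :
    b k / b (k + 1) * KM b 0 k = (k : ℝ) + 1 := by
  unfold KM
  rw [MH_zero]
  field_simp

lemma KXZ_rec (b : ℕ → ℝ) (j k : ℕ) (hj : b j ≠ 0) (hj1 : b (j + 1) ≠ 0) (hk : b k ≠ 0)
    (hk1 : b (k + 1) ≠ 0) :
    b k / b (k + 1) * KX b (j + 1) k + b j / b (j + 1) * KZ b k j = 1 := by
  have h := XZ_rec b j k
  unfold KX KZ
  have : b k / b (k + 1) * (XH b (j + 1) k / (b (j + 1) ^ 2 * b k ^ 2))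
      + b j / b (j + 1) * (ZH b k j / (b k * b (k + 1) * (b j * b (j + 1))))
      = (XH b (j + 1) k + ZH b k j) / (b (j + 1) ^ 2 * (b k * b (k + 1))) := by
    field_simp
  rw [this, h]
  field_simp

lemma KX_zero (b : ℕ → ℝ) (k : ℕ) (h0 : b 0 ≠ 0) (hk : b k ≠ 0) (hk1 : b (k + 1) ≠ 0) :
    b k / b (k + 1) * KX b 0 k = 1 := by
  unfold KX
  rw [XH_zero]
  field_simp

lemma KM_top (b : ℕ → ℝ) (n k : ℕ) (h0 : ∀ i, n < i → b i = 0) : KM b n k = 0 := by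
  unfold KM; rw [MH_top b n k h0]; simp

lemma KX_top (b : ℕ → ℝ) (n k : ℕ) (h0 : ∀ i, n < i → b i = 0) : KX b n k = 0 := by
  unfold KX; rw [XH_top b n k h0]; simp

/-- `R_E(j,k) = M(j,k) + (δ(k-j)+γ) X(j,k)`. -/
noncomputable def RE (b : ℕ → ℝ) (δ γ : ℝ) (j k : ℕ) : ℝ :=
  KM b j k + (δ * ((k : ℝ) - j) + γ) * KX b j k

/-- `R_O(k,i) = M(i,k+1) + (δ(i+1-k)-γ) Z(k,i)`. -/
noncomputable def RO (b : ℕ → ℝ) (δ γ : ℝ) (k i : ℕ) : ℝ :=
  KM b i (k + 1) + (δ * ((i : ℝ) + 1 - k) - γ) * KZ b k i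

/-- null identity, `j ≥ 1` (index shifted). -/
lemma null_succ (b : ℕ → ℝ) (δ γ : ℝ) (j k : ℕ) (hj : b j ≠ 0) (hj1 : b (j + 1) ≠ 0)
    (hk : b k ≠ 0) (hk1 : b (k + 1) ≠ 0) :
    b k / b (k + 1) * RE b δ γ (j + 1) k - b j / b (j + 1) * RO b δ γ k j
      = (- ((j : ℝ) + 1) * (1 + δ)) + (((k : ℝ) + 1) + δ * k + γ) := by
  have h1 := KM_rec b j k hj hj1 hk hk1
  have h2 := KXZ_rec b j k hj hj1 hk hk1
  unfold RE RO
  push_cast
  linear_combination h1 + (δ * ((k : ℝ) - (j + 1)) + γ) * h2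

lemma null_zero (b : ℕ → ℝ) (δ γ : ℝ) (k : ℕ) (h0 : b 0 ≠ 0)
    (hk : b k ≠ 0) (hk1 : b (k + 1) ≠ 0) :
    b k / b (k + 1) * RE b δ γ 0 k = ((k : ℝ) + 1) + δ * k + γ := by
  have h1 := KM_zero b k h0 hk hk1
  have h2 := KX_zero b k h0 hk hk1
  unfold RE
  push_cast
  linear_combination h1 + (δ * (k : ℝ) + γ) * h2

lemma RE_top (b : ℕ → ℝ) (δ γ : ℝ) (n k : ℕ) (h0 : ∀ i, n < i → b i = 0) :
    RE b δ γ n k = 0 := by
  unfold RE; rw [KM_top b n k h0, KX_top b n k h0]; ring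

/-- abstract pairing identity. -/
lemma pairing (n : ℕ) (S s : ℕ → ℝ) (R Q : ℕ → ℕ → ℝ) (F G : ℕ → ℝ) (x : ℝ)
    (cE cO W : ℕ → ℝ)
    (hnull0 : ∀ k < n, S k * R 0 k = F 0 + G k)
    (hnull : ∀ j < n, ∀ k < n, S k * R (j + 1) k - s (j + 1) * Q k j = F (j + 1) + G k)
    (htop : ∀ k < n, R n k = 0)
    (h1 : ∀ k < n, S k * cO k = W k * cE k)
    (h2 : ∀ j < n, s (j + 1) * cE (j + 1) = - x * cO j)
    (hE : ∑ j ∈ range (n + 1), cE j = 0) (hO : ∑ k ∈ range n, cO k = 0) :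
    ∑ j ∈ range n, ∑ k ∈ range n, cE j * cE k * (R j k * W k)
      + x * ∑ i ∈ range n, ∑ k ∈ range n, cO i * cO k * Q k i = 0 := by
  -- the full null sum
  have hfull : ∑ j ∈ range (n + 1), ∑ k ∈ range n, cE j * (F j + G k) * cO k = 0 := by
    have : ∀ j, ∑ k ∈ range n, cE j * (F j + G k) * cO k
        = cE j * F j * ∑ k ∈ range n, cO k + cE j * ∑ k ∈ range n, G k * cO k := by
      intro j
      rw [Finset.mul_sum, Finset.mul_sum, ← Finset.sum_add_distrib]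
      apply Finset.sum_congr rfl; intro k _; ring
    rw [Finset.sum_congr rfl (fun j _ => this j)]
    rw [hO]
    simp only [mul_zero, zero_add]
    rw [← Finset.sum_mul, hE, zero_mul]
  -- split off j = 0
  have hsum1 : ∑ j ∈ range (n + 1), ∑ k ∈ range n, cE j * (S k * R j k) * cO k
      = ∑ j ∈ range n, ∑ k ∈ range n, cE j * cE k * (R j k * W k) := by
    rw [Finset.sum_range_succ]
    have hz : ∑ k ∈ range n, cE n * (S k * R n k) * cO k = 0 := by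
      apply Finset.sum_eq_zero
      intro k hk
      rw [htop k (Finset.mem_range.mp hk)]; ring
    rw [hz, add_zero]
    apply Finset.sum_congr rfl; intro j _
    apply Finset.sum_congr rfl; intro k hk
    have := h1 k (Finset.mem_range.mp hk)
    calc cE j * (S k * R j k) * cO k = cE j * R j k * (S k * cO k) := by ring
      _ = cE j * R j k * (W k * cE k) := by rw [this]
      _ = cE j * cE k * (R j k * W k) := by ring
  have hsum2 : ∑ j ∈ range (n + 1), ∑ k ∈ range n, cE j * (S k * R j k) * cO k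
      = ∑ j ∈ range (n + 1), ∑ k ∈ range n, cE j * (F j + G k) * cO k
        + ∑ j ∈ range n, ∑ k ∈ range n, (s (j + 1) * cE (j + 1)) * Q k j * cO k := by
    rw [Finset.sum_range_succ', Finset.sum_range_succ' (fun j => ∑ k ∈ range n,
      cE j * (F j + G k) * cO k)]
    have ha : ∑ k ∈ range n, cE 0 * (S k * R 0 k) * cO k
        = ∑ k ∈ range n, cE 0 * (F 0 + G k) * cO k := by
      apply Finset.sum_congr rfl; intro k hk
      rw [hnull0 k (Finset.mem_range.mp hk)]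
    have hb : ∑ j ∈ range n, ∑ k ∈ range n, cE (j + 1) * (S k * R (j + 1) k) * cO k
        = ∑ j ∈ range n, ∑ k ∈ range n, cE (j + 1) * (F (j + 1) + G k) * cO k
          + ∑ j ∈ range n, ∑ k ∈ range n, (s (j + 1) * cE (j + 1)) * Q k j * cO k := by
      rw [← Finset.sum_add_distrib]
      apply Finset.sum_congr rfl; intro j hj
      rw [← Finset.sum_add_distrib]
      apply Finset.sum_congr rfl; intro k hk
      have := hnull j (Finset.mem_range.mp hj) k (Finset.mem_range.mp hk)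
      linear_combination (cE (j + 1) * cO k) * this
    rw [ha, hb]; ring
  have hsum3 : ∑ j ∈ range n, ∑ k ∈ range n, (s (j + 1) * cE (j + 1)) * Q k j * cO k
      = - (x * ∑ i ∈ range n, ∑ k ∈ range n, cO i * cO k * Q k i) := by
    rw [Finset.mul_sum, ← Finset.sum_neg_distrib]
    apply Finset.sum_congr rfl; intro j hj
    rw [Finset.mul_sum, ← Finset.sum_neg_distrib]
    apply Finset.sum_congr rfl; intro k hk
    rw [h2 j (Finset.mem_range.mp hj)]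
    ring
  rw [← hsum1, hsum2, hfull, hsum3]; ring

end B4
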