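import Mathlib
import Pool.Agent.H62LR.Basic

/-!
# Hermite–Biehler positivity: Bezout forms of the even and odd part of a Hurwitz polynomial
-/

open Polynomial Finset

namespace B4

/-- Bezout form of two coefficient sequences: the coefficient of `x^j y^k` in
`(P(x) Q(y) - Q(x) P(y)) / (x - y)`. -/
noncomputable def BZ (P Q : ℕ → ℝ) (j k : ℕ) : ℝ :=
  ∑ i ∈ range (k + 1), (P (j + k + 1 - i) * Q i - P i * Q (j + k + 1 - i))

/-- shift of a sequence: multiplication with `x`. -/
def sh (f : ℕ → ℝ) : ℕ → ℝ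
  | 0 => 0
  | k + 1 => f k

@[simp] lemma sh_zero (f : ℕ → ℝ) : sh f 0 = 0 := rfl
@[simp] lemma sh_succ (f : ℕ → ℝ) (k : ℕ) : sh f (k + 1) = f k := rfl

lemma BZ_zero (P Q : ℕ → ℝ) (j : ℕ) : BZ P Q j 0 = P (j + 1) * Q 0 - P 0 * Q (j + 1) := by
  unfold BZ; simp

lemma BZ_succ (P Q : ℕ → ℝ) (j k : ℕ) :
    BZ P Q j (k + 1) = P (j + 1) * Q (k + 1) - P (k + 1) * Q (j + 1) + BZ P Q (j + 1) k := by
  unfold BZ
  rw [Finset.sum_range_succ]
  have h1 : j + (k + 1) + 1 - (k + 1) = j + 1 := by omega
  have h2 : j + (k + 1) + 1 = j + 1 + k + 1 := by omega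
  rw [h1, h2]
  ring

/-- relation between the even and the odd block, I -/
lemma BZ_rel (e o : ℕ → ℝ) (k : ℕ) : ∀ j, BZ e o j k + BZ (sh o) e (j + 1) k = e (j + 1) * o k := by
  induction k with
  | zero => intro j; rw [BZ_zero, BZ_zero]; simp; ring
  | succ k ih =>
    intro j
    rw [BZ_succ, BZ_succ]
    have := ih (j + 1)
    simp only [sh_succ]
    linear_combination this

/-- relation between the even and the odd block, II -/
lemma BZ_rel' (e o : ℕ → ℝ) (k : ℕ) (j : ℕ) :
    BZ (sh o) e j (k + 1) + BZ e o j k = o j * e (k + 1) := by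
  rw [BZ_succ]
  have := BZ_rel e o k j
  simp only [sh_succ]
  linear_combination this

/-- conjugate polynomial -/
noncomputable def cj (p : ℂ[X]) : ℂ[X] := p.map (starRingEnd ℂ)

lemma cj_mul (p q : ℂ[X]) : cj (p * q) = cj p * cj q := by unfold cj; simp
lemma cj_add (p q : ℂ[X]) : cj (p + q) = cj p + cj q := by unfold cj; simp
lemma cj_sub (p q : ℂ[X]) : cj (p - q) = cj p - cj q := by unfold cj; simp
lemma cj_X : cj X = X := by unfold cj; simp
lemma cj_C (a : ℂ) : cj (C a) = C (starRingEnd ℂ a) := by unfold cj; simp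
lemma cj_one : cj 1 = 1 := by unfold cj; simp

/-- `P(x) conj P(y)` -/
noncomputable def bk (P : ℂ[X]) : ℂ[X][X] := C P * (cj P).map C

/-- Hermite–Biehler certificate -/
def HBCert (H : ℂ[X]) (L : List ℂ[X]) : Prop :=
  C H * (cj H).map C - C ((cj H).comp (-X)) * (H.comp (-X)).map C
    = (C X + X) * (L.map bk).sum

lemma sum_bk_mul (A : ℂ[X]) (L : List ℂ[X]) :
    ((L.map (fun P => A * P)).map bk).sum = C A * (cj A).map C * (L.map bk).sum := by
  induction L with
  | nil => simp
  | cons P L ih =>
    simp only [List.map_cons, List.sum_cons]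
    rw [ih]
    unfold bk
    rw [cj_mul, C_mul, Polynomial.map_mul]
    ring

lemma cert_one : HBCert 1 [] := by
  unfold HBCert
  simp [cj_one]

lemma cert_step {G : ℂ[X]} {L : List ℂ[X]} (h : HBCert G L) {ρ : ℂ} (hρ : 0 ≤ ρ.re) :
    HBCert ((X + C ρ) * G) ((L.map (fun P => (C (starRingEnd ℂ ρ) - X) * P)) ++
      [C ((Real.sqrt (2 * ρ.re) : ℝ) : ℂ) * G]) := by
  unfold HBCert at *
  rw [List.map_append, List.sum_append, sum_bk_mul]
  simp only [List.map_cons, List.map_nil, List.sum_cons, List.sum_nil, add_zero]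
  have hs : (((Real.sqrt (2 * ρ.re) : ℝ) : ℂ)) * ((Real.sqrt (2 * ρ.re) : ℝ) : ℂ)
      = ρ + starRingEnd ℂ ρ := by
    rw [← Complex.ofReal_mul, Real.mul_self_sqrt (by linarith), Complex.add_conj]
  have hbk : bk (C ((Real.sqrt (2 * ρ.re) : ℝ) : ℂ) * G)
      = (C (C ρ) + C (C (starRingEnd ℂ ρ))) * (C G * (cj G).map C) := by
    unfold bk
    rw [cj_mul, cj_C, Complex.conj_ofReal, C_mul, Polynomial.map_mul, map_C, ← C_add, ← C_add, ← hs,
      C_mul, C_mul]
    ring
  rw [hbk]
  simp only [cj_mul, cj_add, cj_sub, cj_X, cj_C, mul_comp, add_comp, X_comp, C_comp,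
    Polynomial.map_mul, Polynomial.map_add, Polynomial.map_sub, Polynomial.map_neg, map_X, map_C,
    C_mul, C_add, C_sub, C_neg, starRingEnd_self_apply]
  linear_combination (C (C (starRingEnd ℂ ρ)) - C X) * (C (C ρ) - X) * h

lemma cert_const {G : ℂ[X]} {L : List ℂ[X]} (h : HBCert G L) (a : ℂ) :
    HBCert (C a * G) (L.map (fun P => C a * P)) := by
  unfold HBCert at *
  rw [sum_bk_mul]
  simp only [cj_mul, cj_C, mul_comp, C_comp, Polynomial.map_mul, map_C, C_mul]
  linear_combination (C (C a) * C (C (starRingEnd ℂ a))) * h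

lemma exists_cert (s : Multiset ℂ) : (∀ ρ ∈ s, 0 ≤ ρ.re) →
    ∃ L : List ℂ[X], HBCert (s.map (fun ρ => X + C ρ)).prod L ∧
      ((∀ ρ ∈ s, 0 < ρ.re) → ∀ f : ℂ[X], f.degree < Multiset.card s →
        f ∈ Submodule.span ℂ {P | P ∈ L}) := by
  induction s using Multiset.induction_on with
  | empty =>
    intro _
    refine ⟨[], by simpa using cert_one, fun _ f hf => ?_⟩
    have : f = 0 := by
      rw [← degree_eq_bot]
      simp only [Multiset.card_zero, Nat.cast_zero] at hf
      exact Nat.WithBot.lt_zero_iff.mp hf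
    rw [this]
    exact Submodule.zero_mem _
  | cons ρ s ih =>
    intro hs
    obtain ⟨L, hL, hspan⟩ := ih (fun r hr => hs r (Multiset.mem_cons_of_mem hr))
    set G := (s.map (fun ρ => X + C ρ)).prod with hG
    refine ⟨(L.map (fun P => (C (starRingEnd ℂ ρ) - X) * P)) ++
      [C ((Real.sqrt (2 * ρ.re) : ℝ) : ℂ) * G], ?_, ?_⟩
    · rw [Multiset.map_cons, Multiset.prod_cons]
      exact cert_step hL (hs ρ (Multiset.mem_cons_self _ _))
    · intro hpos f hf
      have hρ := hpos ρ (Multiset.mem_cons_self _ _)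
      have hspan' := hspan (fun r hr => hpos r (Multiset.mem_cons_of_mem hr))
      have hGev : G.eval (starRingEnd ℂ ρ) ≠ 0 := by
        rw [hG, eval_multiset_prod, Multiset.map_map]
        intro h0
        rw [Multiset.prod_eq_zero_iff] at h0
        obtain ⟨r, hr, hr0⟩ := Multiset.mem_map.1 h0
        simp only [Function.comp, eval_add, eval_X, eval_C] at hr0
        have h1 := congrArg Complex.re hr0
        simp only [Complex.add_re, Complex.conj_re, Complex.zero_re] at h1
        have := hpos r (Multiset.mem_cons_of_mem hr)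
        linarith
      have hGdeg : G.degree = Multiset.card s := by
        rw [hG, degree_multiset_prod, Multiset.map_map]
        simp only [Function.comp_def, degree_X_add_C, Multiset.map_const', Multiset.sum_replicate]
        simp
      set a : ℂ := f.eval (starRingEnd ℂ ρ) / G.eval (starRingEnd ℂ ρ) with ha
      have hroot : (f - C a * G).IsRoot (starRingEnd ℂ ρ) := by
        rw [IsRoot.def, eval_sub, eval_mul, eval_C, ha, div_mul_cancel₀ _ hGev, sub_self]
      obtain ⟨g, hg⟩ := dvd_iff_isRoot.2 hroot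
      have hdeg : (f - C a * G).degree < (Multiset.card s + 1 : ℕ) := by
        refine (degree_sub_le _ _).trans_lt (max_lt ?_ ?_)
        · rw [Multiset.card_cons] at hf
          exact hf
        · have h1 : (C a * G).degree ≤ G.degree := by
            refine (degree_mul_le _ _).trans ?_
            calc (C a).degree + G.degree ≤ 0 + G.degree := by gcongr; exact degree_C_le
              _ = G.degree := zero_add _
          refine h1.trans_lt ?_
          rw [hGdeg]
          exact_mod_cast Nat.lt_succ_self _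
      have hgdeg : g.degree < Multiset.card s := by
        rw [hg, degree_mul, degree_X_sub_C] at hdeg
        by_contra hcon
        push Not at hcon
        have h2 : (1 : WithBot ℕ) + Multiset.card s ≤ 1 + g.degree := by gcongr
        have h3 := h2.trans_lt hdeg
        have h4 : ((1 + Multiset.card s : ℕ) : WithBot ℕ) < (Multiset.card s + 1 : ℕ) := by
          push_cast
          push_cast at h3
          exact h3
        have h5 : (1 + Multiset.card s : ℕ) < (Multiset.card s + 1 : ℕ) := by exact_mod_cast h4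
        omega
      have hgm := hspan' g hgdeg
      -- multiplication maps the span
      have hmul : ∀ p ∈ Submodule.span ℂ {P | P ∈ L}, (C (starRingEnd ℂ ρ) - X) * p ∈
          Submodule.span ℂ {P | P ∈ (L.map (fun P => (C (starRingEnd ℂ ρ) - X) * P)) ++
            [C ((Real.sqrt (2 * ρ.re) : ℝ) : ℂ) * G]} := by
        intro p hp
        induction hp using Submodule.span_induction with
        | mem x hx =>
          apply Submodule.subset_span
          rw [Set.mem_ofPred_eq, List.mem_append]
          left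
          exact List.mem_map.2 ⟨x, hx, rfl⟩
        | zero => rw [mul_zero]; exact Submodule.zero_mem _
        | add x y _ _ hx hy => rw [mul_add]; exact Submodule.add_mem _ hx hy
        | smul c x _ hx =>
          rw [mul_smul_comm]; exact Submodule.smul_mem _ _ hx
      have hf2 : f = - ((C (starRingEnd ℂ ρ) - X) * g) + C a * G := by
        linear_combination hg
      rw [hf2]
      refine Submodule.add_mem _ (Submodule.neg_mem _ (hmul g hgm)) ?_
      have hsq : (((Real.sqrt (2 * ρ.re) : ℝ) : ℂ)) ≠ 0 := by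
        have : 0 < Real.sqrt (2 * ρ.re) := Real.sqrt_pos.2 (by linarith)
        exact_mod_cast this.ne'
      have h3 : C a * G = (a / ((Real.sqrt (2 * ρ.re) : ℝ) : ℂ)) •
          (C ((Real.sqrt (2 * ρ.re) : ℝ) : ℂ) * G) := by
        rw [smul_eq_C_mul, ← mul_assoc, ← C_mul, div_mul_cancel₀ _ hsq]
      rw [h3]
      apply Submodule.smul_mem
      apply Submodule.subset_span
      rw [Set.mem_ofPred_eq, List.mem_append]
      right
      simp

/-- the polynomial with real coefficients `h 0, …, h N` over `ℂ` -/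
noncomputable def cpoly (N : ℕ) (h : ℕ → ℝ) : ℂ[X] :=
  ∑ m ∈ range (N + 1), monomial m ((h m : ℂ))

lemma coeff_cpoly (N : ℕ) (h : ℕ → ℝ) (m : ℕ) :
    (cpoly N h).coeff m = if m ≤ N then (h m : ℂ) else 0 := by
  unfold cpoly
  rw [finsetSum_coeff]
  simp only [coeff_monomial]
  rw [Finset.sum_ite_eq']
  simp

lemma natDegree_cpoly {N : ℕ} {h : ℕ → ℝ} (hN : h N ≠ 0) : (cpoly N h).natDegree = N := by
  apply natDegree_eq_of_le_of_coeff_ne_zero
  · rw [natDegree_le_iff_coeff_eq_zero]
    intro k hk
    rw [coeff_cpoly, if_neg (by omega)]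
  · rw [coeff_cpoly, if_pos le_rfl]
    exact_mod_cast hN

lemma eval_cpoly (N : ℕ) (h : ℕ → ℝ) (z : ℂ) :
    (cpoly N h).eval z = Pool.Agent.H62LR.ev N h z := by
  unfold cpoly Pool.Agent.H62LR.ev
  rw [eval_finsetSum]
  simp

lemma cj_cpoly (N : ℕ) (h : ℕ → ℝ) : cj (cpoly N h) = cpoly N h := by
  ext m
  unfold cj
  rw [coeff_map, coeff_cpoly]
  split_ifs <;> simp

/-- existence of the certificate for a real polynomial -/
lemma exists_cert_real {N : ℕ} {h : ℕ → ℝ} (hN : h N ≠ 0)
    (hH : ∀ z : ℂ, 0 < z.re → Pool.Agent.H62LR.ev N h z ≠ 0) :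
    ∃ L : List ℂ[X], HBCert (cpoly N h) L ∧
      ((∀ z : ℂ, 0 ≤ z.re → Pool.Agent.H62LR.ev N h z ≠ 0) → ∀ f : ℂ[X], f.degree < N →
        f ∈ Submodule.span ℂ {P | P ∈ L}) := by
  set H := cpoly N h with hHdef
  have hNc : (h N : ℂ) ≠ 0 := by exact_mod_cast hN
  have hdeg : H.natDegree = N := natDegree_cpoly hN
  have hH0 : H ≠ 0 := by
    intro h0
    have := coeff_cpoly N h N
    rw [← hHdef, h0, if_pos le_rfl, coeff_zero] at this
    exact hNc this.symm
  have hsp := IsAlgClosed.splits H
  have hlead : H.leadingCoeff = (h N : ℂ) := by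
    rw [leadingCoeff, hdeg, hHdef, coeff_cpoly, if_pos le_rfl]
  have hfac : H = C (h N : ℂ) * ((H.roots.map (fun x => -x)).map (fun ρ => X + C ρ)).prod := by
    conv_lhs => rw [hsp.eq_prod_roots, hlead]
    rw [Multiset.map_map]
    congr 2
    refine Multiset.map_congr rfl (fun x _ => ?_)
    simp [sub_eq_add_neg]
  have hroots : ∀ x ∈ H.roots, x.re ≤ 0 := by
    intro x hx
    by_contra hc
    push Not at hc
    apply hH x hc
    rw [← eval_cpoly]
    exact (mem_roots'.1 hx).2
  obtain ⟨L, hL, hspan⟩ := exists_cert (H.roots.map (fun x => -x)) (by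
    intro ρ hρ
    obtain ⟨x, hx, rfl⟩ := Multiset.mem_map.1 hρ
    have := hroots x hx
    simp only [Complex.neg_re]
    linarith)
  refine ⟨L.map (fun P => C (h N : ℂ) * P), ?_, ?_⟩
  · rw [hfac]
    exact cert_const hL _
  · intro hstr f hf
    have h1 := hspan (by
      intro ρ hρ
      obtain ⟨x, hx, rfl⟩ := Multiset.mem_map.1 hρ
      simp only [Complex.neg_re]
      by_contra hc
      push Not at hc
      apply hstr x (by linarith)
      rw [← eval_cpoly]
      exact (mem_roots'.1 hx).2) f (by
        rw [Multiset.card_map, ← hsp.natDegree_eq_card_roots, hdeg]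
        exact hf)
    have h2 : ∀ p ∈ Submodule.span ℂ {P | P ∈ L}, p ∈
        Submodule.span ℂ {P | P ∈ L.map (fun P => C (h N : ℂ) * P)} := by
      intro p hp
      induction hp using Submodule.span_induction with
      | mem x hx =>
        have h3 : x = (h N : ℂ)⁻¹ • (C (h N : ℂ) * x) := by
          rw [smul_eq_C_mul, ← mul_assoc, ← C_mul, inv_mul_cancel₀ hNc, C_1, one_mul]
        rw [h3]
        apply Submodule.smul_mem
        apply Submodule.subset_span
        exact List.mem_map.2 ⟨x, hx, rfl⟩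
      | zero => exact Submodule.zero_mem _
      | add x y _ _ hx hy => exact Submodule.add_mem _ hx hy
      | smul c x _ hx => exact Submodule.smul_mem _ _ hx
    exact h2 f h1

end B4
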