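import Mathlib
import Pool.Agent.B4.BO1

/-!
# Hermite–Biehler positivity of the Bezout forms
-/

open Polynomial Finset

namespace B4

/-- kernel of a list of polynomials -/
noncomputable def KL (L : List ℂ[X]) (p q : ℕ) : ℂ :=
  (L.map (fun P => P.coeff p * starRingEnd ℂ (P.coeff q))).sum

lemma coeff_bk (P : ℂ[X]) (p q : ℕ) :
    ((bk P).coeff q).coeff p = P.coeff p * starRingEnd ℂ (P.coeff q) := by
  unfold bk cj
  rw [coeff_C_mul, coeff_map, coeff_mul_C, coeff_map]

lemma coeff_sum_bk (L : List ℂ[X]) (p q : ℕ) :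
    (((L.map bk).sum).coeff q).coeff p = KL L p q := by
  unfold KL
  induction L with
  | nil => simp
  | cons P L ih =>
    simp only [List.map_cons, List.sum_cons, coeff_add]
    rw [ih, coeff_bk]

lemma coeff_comp_neg (P : ℂ[X]) (m : ℕ) : (P.comp (-X)).coeff m = (-1) ^ m * P.coeff m := by
  have : (-X : ℂ[X]) = C (-1) * X := by simp
  rw [this, comp_C_mul_X_coeff]
  ring

lemma coeff_two (A B : ℂ[X]) (p q : ℕ) : ((C A * B.map C).coeff q).coeff p
    = A.coeff p * B.coeff q := by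
  rw [coeff_C_mul, coeff_map, coeff_mul_C]

section

variable {N : ℕ} {h : ℕ → ℝ} {L : List ℂ[X]}

lemma KL_lhs (hL : HBCert (cpoly N h) L) (h0 : ∀ m, N < m → h m = 0) (p q : ℕ) :
    (((C X + X) * (L.map bk).sum : ℂ[X][X]).coeff q).coeff p
      = (h p : ℂ) * h q * (1 - (-1) ^ (p + q)) := by
  unfold HBCert at hL
  rw [← hL]
  have hc : ∀ m, (cpoly N h).coeff m = (h m : ℂ) := by
    intro m
    rw [coeff_cpoly]
    split_ifs with hm
    · rfl
    · rw [h0 m (by omega)]; simp
  rw [coeff_sub, coeff_sub, coeff_two, coeff_two, cj_cpoly, coeff_comp_neg, coeff_comp_neg,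
    hc, hc, pow_add]
  ring

lemma KL_00 (hL : HBCert (cpoly N h) L) (h0 : ∀ m, N < m → h m = 0) (p : ℕ) :
    KL L p 0 = (h (p + 1) : ℂ) * h 0 * (1 - (-1) ^ (p + 1)) := by
  have h1 := KL_lhs hL h0 (p + 1) 0
  rw [add_mul, coeff_add, coeff_add, coeff_C_mul, coeff_X_mul, coeff_X_mul_zero, coeff_zero,
    coeff_sum_bk] at h1
  rw [add_zero, add_zero] at h1
  exact h1

lemma KL_rec (hL : HBCert (cpoly N h) L) (h0 : ∀ m, N < m → h m = 0) (p q : ℕ) :
    KL L p (q + 1) + KL L (p + 1) q = (h (p + 1) : ℂ) * h (q + 1) * (1 - (-1) ^ (p + q)) := by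
  have h1 := KL_lhs hL h0 (p + 1) (q + 1)
  rw [add_mul, coeff_add, coeff_add, coeff_C_mul, coeff_X_mul, coeff_X_mul, coeff_sum_bk,
    coeff_sum_bk] at h1
  rw [h1]
  have : p + 1 + (q + 1) = p + q + 2 := by ring
  rw [this, pow_add _ (p + q) 2]
  norm_num

lemma KL_even_odd (hL : HBCert (cpoly N h) L) (h0 : ∀ m, N < m → h m = 0) (k : ℕ) :
    (∀ j, KL L (2 * j) (2 * k)
      = ((2 * BZ (sh (fun i => h (2 * i + 1))) (fun i => h (2 * i)) j k : ℝ) : ℂ)) ∧
    (∀ j, KL L (2 * j + 1) (2 * k + 1)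
      = ((2 * BZ (fun i => h (2 * i)) (fun i => h (2 * i + 1)) j k : ℝ) : ℂ)) := by
  have hZ : ∀ k, (∀ j, KL L (2 * j) (2 * k)
      = ((2 * BZ (sh (fun i => h (2 * i + 1))) (fun i => h (2 * i)) j k : ℝ) : ℂ)) →
      (∀ j, KL L (2 * j + 1) (2 * k + 1)
      = ((2 * BZ (fun i => h (2 * i)) (fun i => h (2 * i + 1)) j k : ℝ) : ℂ)) := by
    intro k hX j
    have h1 := KL_rec hL h0 (2 * j + 1) (2 * k)
    have h2 := hX (j + 1)
    have h3 := BZ_rel (fun i => h (2 * i)) (fun i => h (2 * i + 1)) k j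
    have h4 : (-1 : ℂ) ^ (2 * j + 1 + 2 * k) = -1 := by
      have : 2 * j + 1 + 2 * k = 2 * (j + k) + 1 := by ring
      rw [this, pow_succ, pow_mul]; norm_num
    rw [h4] at h1
    have h5 : 2 * j + 1 + 1 = 2 * (j + 1) := by ring
    rw [h5, h2] at h1
    have h6 : BZ (fun i => h (2 * i)) (fun i => h (2 * i + 1)) j k
        = h (2 * (j + 1)) * h (2 * k + 1)
          - BZ (sh (fun i => h (2 * i + 1))) (fun i => h (2 * i)) (j + 1) k := by
      linarith
    rw [h6]
    push_cast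
    push_cast at h1
    linear_combination h1
  induction k with
  | zero =>
    have hX : ∀ j, KL L (2 * j) (2 * 0)
        = ((2 * BZ (sh (fun i => h (2 * i + 1))) (fun i => h (2 * i)) j 0 : ℝ) : ℂ) := by
      intro j
      have h1 := KL_00 hL h0 (2 * j)
      have h4 : (-1 : ℂ) ^ (2 * j + 1) = -1 := by
        rw [pow_succ, pow_mul]; norm_num
      rw [h4] at h1
      rw [BZ_zero]
      simp only [sh_succ, sh_zero, mul_zero] at *
      rw [h1]
      push_cast
      ring
    exact ⟨hX, hZ 0 hX⟩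
  | succ k ih =>
    have hX : ∀ j, KL L (2 * j) (2 * (k + 1))
        = ((2 * BZ (sh (fun i => h (2 * i + 1))) (fun i => h (2 * i)) j (k + 1) : ℝ) : ℂ) := by
      intro j
      have h1 := KL_rec hL h0 (2 * j) (2 * k + 1)
      have h2 := ih.2 j
      have h3 := BZ_rel' (fun i => h (2 * i)) (fun i => h (2 * i + 1)) k j
      have h4 : (-1 : ℂ) ^ (2 * j + (2 * k + 1)) = -1 := by
        have : 2 * j + (2 * k + 1) = 2 * (j + k) + 1 := by ring
        rw [this, pow_succ, pow_mul]; norm_num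
      rw [h4, h2] at h1
      have h6 : BZ (sh (fun i => h (2 * i + 1))) (fun i => h (2 * i)) j (k + 1)
          = h (2 * j + 1) * h (2 * (k + 1))
            - BZ (fun i => h (2 * i)) (fun i => h (2 * i + 1)) j k := by
        linarith
      rw [h6]
      have h7 : 2 * k + 1 + 1 = 2 * (k + 1) := by ring
      rw [h7] at h1
      push_cast
      push_cast at h1
      linear_combination h1
    exact ⟨hX, hZ (k + 1) hX⟩

end

/-- positivity of the kernel of a list -/
lemma KL_form (L : List ℂ[X]) (n : ℕ) (w : ℕ → ℝ) (f : ℕ → ℕ) :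
    ∑ j ∈ range n, ∑ k ∈ range n, (w j : ℂ) * w k * KL L (f j) (f k)
      = (((L.map (fun P => Complex.normSq (∑ j ∈ range n, (w j : ℂ) * P.coeff (f j)))).sum : ℝ) : ℂ)
      := by
  unfold KL
  induction L with
  | nil => simp
  | cons P L ih =>
    simp only [List.map_cons, List.sum_cons, mul_add, Finset.sum_add_distrib]
    rw [ih]
    push_cast
    congr 1
    rw [Complex.normSq_eq_conj_mul_self, mul_comm, map_sum, Finset.sum_mul]
    refine Finset.sum_congr rfl (fun j _ => ?_)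
    rw [Finset.mul_sum]
    refine Finset.sum_congr rfl (fun k _ => ?_)
    rw [map_mul, Complex.conj_ofReal]
    ring

lemma list_sum_nonneg {α : Type*} (L : List α) (f : α → ℝ) (hf : ∀ x, 0 ≤ f x) :
    0 ≤ (L.map f).sum := by
  apply List.sum_nonneg
  intro x hx
  obtain ⟨y, _, rfl⟩ := List.mem_map.1 hx
  exact hf y

lemma list_sum_eq_zero {α : Type*} (L : List α) (f : α → ℝ) (hf : ∀ x, 0 ≤ f x)
    (h0 : (L.map f).sum = 0) : ∀ x ∈ L, f x = 0 := by
  induction L with
  | nil => intro x hx; simp at hx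
  | cons P L ih =>
    simp only [List.map_cons, List.sum_cons] at h0
    have h1 := list_sum_nonneg L f hf
    have h2 := hf P
    intro x hx
    rcases List.mem_cons.1 hx with rfl | hx
    · linarith
    · exact ih (by linarith) x hx

/-- **Odd block** of a Hurwitz polynomial: positive semidefinite. -/
theorem hb_odd {N : ℕ} {h : ℕ → ℝ} (hN : h N ≠ 0) (h0 : ∀ m, N < m → h m = 0)
    (hH : ∀ z : ℂ, 0 < z.re → Pool.Agent.H62LR.ev N h z ≠ 0) (n : ℕ) (w : ℕ → ℝ) :
    0 ≤ ∑ j ∈ range n, ∑ k ∈ range n, w j * w k *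
      BZ (fun i => h (2 * i)) (fun i => h (2 * i + 1)) j k := by
  obtain ⟨L, hL, _⟩ := exists_cert_real hN hH
  have h1 := KL_form L n w (fun j => 2 * j + 1)
  have h2 : ∑ j ∈ range n, ∑ k ∈ range n, (w j : ℂ) * w k * KL L (2 * j + 1) (2 * k + 1)
      = ((2 * ∑ j ∈ range n, ∑ k ∈ range n, w j * w k *
      BZ (fun i => h (2 * i)) (fun i => h (2 * i + 1)) j k : ℝ) : ℂ) := by
    push_cast
    rw [Finset.mul_sum]
    refine Finset.sum_congr rfl (fun j _ => ?_)
    rw [Finset.mul_sum]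
    refine Finset.sum_congr rfl (fun k _ => ?_)
    rw [(KL_even_odd hL h0 k).2 j]
    push_cast
    ring
  rw [h2] at h1
  have h3 := Complex.ofReal_injective h1
  have h4 := list_sum_nonneg L (fun P => Complex.normSq (∑ j ∈ range n, (w j : ℂ) *
    P.coeff (2 * j + 1))) (fun P => Complex.normSq_nonneg _)
  rw [← h3] at h4
  linarith

/-- **Even block** of a Hurwitz polynomial: positive semidefinite. -/
theorem hb_even {N : ℕ} {h : ℕ → ℝ} (hN : h N ≠ 0) (h0 : ∀ m, N < m → h m = 0)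
    (hH : ∀ z : ℂ, 0 < z.re → Pool.Agent.H62LR.ev N h z ≠ 0) (n : ℕ) (w : ℕ → ℝ) :
    0 ≤ ∑ j ∈ range n, ∑ k ∈ range n, w j * w k *
      BZ (sh (fun i => h (2 * i + 1))) (fun i => h (2 * i)) j k := by
  obtain ⟨L, hL, _⟩ := exists_cert_real hN hH
  have h1 := KL_form L n w (fun j => 2 * j)
  have h2 : ∑ j ∈ range n, ∑ k ∈ range n, (w j : ℂ) * w k * KL L (2 * j) (2 * k)
      = ((2 * ∑ j ∈ range n, ∑ k ∈ range n, w j * w k *
      BZ (sh (fun i => h (2 * i + 1))) (fun i => h (2 * i)) j k : ℝ) : ℂ) := by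
    push_cast
    rw [Finset.mul_sum]
    refine Finset.sum_congr rfl (fun j _ => ?_)
    rw [Finset.mul_sum]
    refine Finset.sum_congr rfl (fun k _ => ?_)
    rw [(KL_even_odd hL h0 k).1 j]
    push_cast
    ring
  rw [h2] at h1
  have h3 := Complex.ofReal_injective h1
  have h4 := list_sum_nonneg L (fun P => Complex.normSq (∑ j ∈ range n, (w j : ℂ) *
    P.coeff (2 * j))) (fun P => Complex.normSq_nonneg _)
  rw [← h3] at h4
  linarith

/-- **Odd block**, strict form, for a polynomial without zeros in the closed right half plane. -/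
theorem hb_odd_pos {N : ℕ} {h : ℕ → ℝ} (hN : h N ≠ 0) (h0 : ∀ m, N < m → h m = 0)
    (hH : ∀ z : ℂ, 0 ≤ z.re → Pool.Agent.H62LR.ev N h z ≠ 0) (n : ℕ) (hn : 2 * n ≤ N)
    (w : ℕ → ℝ) (hw : ∃ k < n, w k ≠ 0) :
    0 < ∑ j ∈ range n, ∑ k ∈ range n, w j * w k *
      BZ (fun i => h (2 * i)) (fun i => h (2 * i + 1)) j k := by
  obtain ⟨L, hL, hspan⟩ := exists_cert_real hN (fun z hz => hH z hz.le)
  have h1 := KL_form L n w (fun j => 2 * j + 1)
  have h2 : ∑ j ∈ range n, ∑ k ∈ range n, (w j : ℂ) * w k * KL L (2 * j + 1) (2 * k + 1)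
      = ((2 * ∑ j ∈ range n, ∑ k ∈ range n, w j * w k *
      BZ (fun i => h (2 * i)) (fun i => h (2 * i + 1)) j k : ℝ) : ℂ) := by
    push_cast
    rw [Finset.mul_sum]
    refine Finset.sum_congr rfl (fun j _ => ?_)
    rw [Finset.mul_sum]
    refine Finset.sum_congr rfl (fun k _ => ?_)
    rw [(KL_even_odd hL h0 k).2 j]
    push_cast
    ring
  rw [h2] at h1
  have h3 := Complex.ofReal_injective h1
  have h4 := list_sum_nonneg L (fun P => Complex.normSq (∑ j ∈ range n, (w j : ℂ) *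
    P.coeff (2 * j + 1))) (fun P => Complex.normSq_nonneg _)
  rw [← h3] at h4
  rcases h4.lt_or_eq with h5 | h5
  · linarith
  exfalso
  rw [← h5] at h3
  have h6 := list_sum_eq_zero L (fun P => Complex.normSq (∑ j ∈ range n, (w j : ℂ) *
    P.coeff (2 * j + 1))) (fun P => Complex.normSq_nonneg _) h3.symm
  have h7 : ∀ P ∈ Submodule.span ℂ {P | P ∈ L}, ∑ j ∈ range n, (w j : ℂ) *
      P.coeff (2 * j + 1) = 0 := by
    intro P hP
    induction hP using Submodule.span_induction with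
    | mem x hx => exact Complex.normSq_eq_zero.1 (h6 x hx)
    | zero => simp
    | add x y _ _ hx hy =>
      simp only [coeff_add, mul_add, Finset.sum_add_distrib]
      rw [hx, hy, add_zero]
    | smul c x _ hx =>
      simp only [coeff_smul, smul_eq_mul]
      have : ∀ j, (w j : ℂ) * (c * x.coeff (2 * j + 1)) = c * ((w j : ℂ) * x.coeff (2 * j + 1)) := by
        intro j; ring
      simp only [this]
      rw [← Finset.mul_sum, hx, mul_zero]
  obtain ⟨k, hk, hwk⟩ := hw
  have h8 := h7 (X ^ (2 * k + 1)) (hspan hH _ (by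
    rw [degree_X_pow]
    exact_mod_cast (by omega : 2 * k + 1 < N)))
  rw [Finset.sum_eq_single k] at h8
  · rw [coeff_X_pow, if_pos rfl, mul_one] at h8
    exact hwk (by exact_mod_cast h8)
  · intro j _ hjk
    rw [coeff_X_pow, if_neg (by omega), mul_zero]
  · intro hk'
    exact absurd (Finset.mem_range.2 hk) hk'

end B4
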