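import Mathlib
import Pool.Agent.B4.BO2

/-!
# Coefficients of polynomials with zeros in the left half plane
-/

open Polynomial Finset

namespace B4

/-- all zeros in the closed left half plane, `0` is not a zero, and the sum of the zeros has
negative real part. -/
structure CH (P : ℂ[X]) : Prop where
  ne : P ≠ 0
  rt : ∀ u : ℂ, P.eval u = 0 → u.re ≤ 0
  z0 : P.eval 0 ≠ 0
  sm : 0 < P.natDegree → (P.roots.map Complex.re).sum < 0

lemma re_one_div (w : ℂ) : (1 / w).re = w.re / Complex.normSq w := by
  rw [one_div, Complex.inv_re]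

lemma ms_nonneg (u : ℂ) (hu : 0 ≤ u.re) (s : Multiset ℂ) (h : ∀ r ∈ s, r.re ≤ 0) :
    0 ≤ ((s.map (fun r => 1 / (u - r))).sum).re := by
  induction s using Multiset.induction_on with
  | empty => simp
  | cons r s ih =>
    simp only [Multiset.map_cons, Multiset.sum_cons, Complex.add_re]
    have h1 := ih (fun r hr => h r (Multiset.mem_cons_of_mem hr))
    have h2 : 0 ≤ (1 / (u - r)).re := by
      rw [re_one_div]
      apply div_nonneg _ (Complex.normSq_nonneg _)
      have := h r (Multiset.mem_cons_self _ _)
      rw [Complex.sub_re]; linarith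
    linarith

lemma ms_pos (u : ℂ) (hu : 0 < u.re) (s : Multiset ℂ) (h : ∀ r ∈ s, r.re ≤ 0)
    (hc : 0 < Multiset.card s) :
    0 < ((s.map (fun r => 1 / (u - r))).sum).re := by
  induction s using Multiset.induction_on with
  | empty => simp at hc
  | cons r s ih =>
    simp only [Multiset.map_cons, Multiset.sum_cons, Complex.add_re]
    have h1 := ms_nonneg u hu.le s (fun r hr => h r (Multiset.mem_cons_of_mem hr))
    have hr := h r (Multiset.mem_cons_self _ _)
    have h3 : 0 < (u - r).re := by rw [Complex.sub_re]; linarith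
    have h2 : 0 < (1 / (u - r)).re := by
      rw [re_one_div]
      apply div_pos h3
      apply Complex.normSq_pos.2
      intro h0
      rw [h0] at h3
      simp at h3
    linarith

lemma ms_pos_zero (s : Multiset ℂ) (h : ∀ r ∈ s, r.re ≤ 0) (h0 : ∀ r ∈ s, r ≠ 0)
    (hs : (s.map Complex.re).sum < 0) :
    0 < ((s.map (fun r => 1 / (0 - r))).sum).re := by
  induction s using Multiset.induction_on with
  | empty => simp at hs
  | cons r s ih =>
    simp only [Multiset.map_cons, Multiset.sum_cons, Complex.add_re] at hs ⊢
    have h1 := ms_nonneg 0 (by simp) s (fun r hr => h r (Multiset.mem_cons_of_mem hr))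
    have hr := h r (Multiset.mem_cons_self _ _)
    have hr0 := h0 r (Multiset.mem_cons_self _ _)
    have hns : 0 < Complex.normSq (0 - r) := by
      apply Complex.normSq_pos.2
      simpa using hr0
    rcases lt_or_ge ((s.map Complex.re).sum) 0 with hlt | hge
    · have h2 := ih (fun r hr => h r (Multiset.mem_cons_of_mem hr))
        (fun r hr => h0 r (Multiset.mem_cons_of_mem hr)) hlt
      have h3 : 0 ≤ (1 / (0 - r)).re := by
        rw [re_one_div]
        apply div_nonneg _ hns.le
        rw [Complex.sub_re, Complex.zero_re]; linarith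
      linarith
    · have hr2 : r.re < 0 := by linarith
      have h3 : 0 < (1 / (0 - r)).re := by
        rw [re_one_div]
        apply div_pos _ hns
        rw [Complex.sub_re, Complex.zero_re]; linarith
      linarith

lemma natDegree_derivative_eq' {P : ℂ[X]} : (derivative P).natDegree = P.natDegree - 1 :=
  natDegree_derivative P

lemma CH.derivative {P : ℂ[X]} (h : CH P) (hd : 0 < P.natDegree) : CH (derivative P) := by
  have hsp := IsAlgClosed.splits P
  have hcard : Multiset.card P.roots = P.natDegree := hsp.natDegree_eq_card_roots.symm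
  have hre : ∀ r ∈ P.roots, r.re ≤ 0 := fun r hr => h.rt r (mem_roots'.1 hr).2
  have hr0 : ∀ r ∈ P.roots, r ≠ 0 := by
    intro r hr h0
    have h1 := (mem_roots'.1 hr).2
    rw [h0] at h1
    exact h.z0 h1
  have hne : Polynomial.derivative P ≠ 0 := by
    intro h0
    have := Polynomial.derivative_eq_zero.1 h0
    omega
  refine ⟨hne, ?_, ?_, ?_⟩
  · intro u hu
    by_contra hc
    push Not at hc
    have hPu : P.eval u ≠ 0 := fun h0 => absurd (h.rt u h0) (not_le.2 hc)
    have h1 := hsp.eval_derivative_div_eval_of_ne_zero hPu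
    rw [hu, zero_div] at h1
    have h2 := ms_pos u hc P.roots hre (by rw [hcard]; exact hd)
    rw [← h1] at h2
    simp at h2
  · intro hu
    have h1 := hsp.eval_derivative_div_eval_of_ne_zero h.z0
    rw [hu, zero_div] at h1
    have h2 := ms_pos_zero P.roots hre hr0 (h.sm hd)
    rw [← h1] at h2
    simp at h2
  · intro hd2
    have hnd : (Polynomial.derivative P).natDegree = P.natDegree - 1 := natDegree_derivative P
    have hN : 2 ≤ P.natDegree := by omega
    have h1 := hsp.nextCoeff_eq_neg_sum_roots_mul_leadingCoeff
    have h2 := (IsAlgClosed.splits (Polynomial.derivative P)).nextCoeff_eq_neg_sum_roots_mul_leadingCoeff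
    have hlead : P.leadingCoeff ≠ 0 := leadingCoeff_ne_zero.2 h.ne
    have h3 : (Polynomial.derivative P).nextCoeff = ((P.natDegree - 1 : ℕ) : ℂ) * P.nextCoeff := by
      rw [nextCoeff_of_natDegree_pos hd2, nextCoeff_of_natDegree_pos hd, hnd, coeff_derivative]
      have e1 : P.natDegree - 1 - 1 + 1 = P.natDegree - 1 := by omega
      have e2 : ((P.natDegree - 1 - 1 : ℕ) : ℂ) + 1 = ((P.natDegree - 1 : ℕ) : ℂ) := by
        rw [← e1]; push_cast; ring
      rw [e1, e2]
      ring
    have h4 : (Polynomial.derivative P).leadingCoeff = (P.natDegree : ℂ) * P.leadingCoeff := by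
      rw [leadingCoeff, hnd, coeff_derivative, leadingCoeff]
      have e1 : P.natDegree - 1 + 1 = P.natDegree := by omega
      have e2 : ((P.natDegree - 1 : ℕ) : ℂ) + 1 = (P.natDegree : ℂ) := by
        have : ((P.natDegree - 1 + 1 : ℕ) : ℂ) = (P.natDegree : ℂ) := by rw [e1]
        rw [← this]; push_cast; ring
      rw [e1, e2]
      ring
    have h5 : (P.natDegree : ℂ) * (Polynomial.derivative P).roots.sum
        = ((P.natDegree - 1 : ℕ) : ℂ) * P.roots.sum := by
      have h6 : P.leadingCoeff * ((P.natDegree : ℂ) * (Polynomial.derivative P).roots.sum)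
          = P.leadingCoeff * (((P.natDegree - 1 : ℕ) : ℂ) * P.roots.sum) := by
        rw [h3, h4, h1] at h2
        linear_combination h2
      exact mul_left_cancel₀ hlead h6
    have hsum : ∀ s : Multiset ℂ, (s.map Complex.re).sum = s.sum.re := by
      intro s
      induction s using Multiset.induction_on with
      | empty => simp
      | cons a s ih => simp [ih]
    rw [hsum]
    have h7 := congrArg Complex.re h5
    have h8 := h.sm hd
    rw [hsum] at h8
    simp only [Complex.mul_re, Complex.natCast_re, Complex.natCast_im, zero_mul, sub_zero] at h7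
    have h9 : (0 : ℝ) < ((P.natDegree - 1 : ℕ) : ℝ) := by
      exact_mod_cast (by omega : 0 < P.natDegree - 1)
    have h10 : (0 : ℝ) < (P.natDegree : ℝ) := by exact_mod_cast hd
    by_contra hc
    push Not at hc
    have h11 := mul_nonneg h10.le hc
    have h12 := mul_neg_of_pos_of_neg h9 h8
    linarith

/-- **Coefficient lemma.** -/
theorem CH.coeff_ne_zero (k : ℕ) : ∀ {P : ℂ[X]}, CH P → k ≤ P.natDegree → P.coeff k ≠ 0 := by
  induction k with
  | zero =>
    intro P h _
    rw [coeff_zero_eq_eval_zero]
    exact h.z0
  | succ k ih =>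
    intro P h hk
    have h1 := h.derivative (by omega)
    have h2 := ih h1 (by rw [natDegree_derivative P]; omega)
    rw [coeff_derivative] at h2
    exact left_ne_zero_of_mul h2

lemma CH.mk' {R : ℂ[X]} (hne : R ≠ 0) (hrt : ∀ u : ℂ, R.eval u = 0 → u.re ≤ 0)
    (h0 : R.eval 0 ≠ 0) : CH ((X + C 1) * R) := by
  have hX : (X + C 1 : ℂ[X]) ≠ 0 := X_add_C_ne_zero 1
  refine ⟨mul_ne_zero hX hne, ?_, ?_, ?_⟩
  · intro u hu
    rw [eval_mul, eval_add, eval_X, eval_C] at hu
    rcases mul_eq_zero.1 hu with h | h
    · have := congrArg Complex.re h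
      simp only [Complex.add_re, Complex.one_re, Complex.zero_re] at this
      linarith
    · exact hrt u h
  · rw [eval_mul, eval_add, eval_X, eval_C, zero_add, one_mul]
    exact h0
  · intro _
    rw [roots_mul (mul_ne_zero hX hne), roots_X_add_C, Multiset.map_add, Multiset.sum_add,
      Multiset.map_singleton, Multiset.sum_singleton, Complex.neg_re, Complex.one_re]
    have : (R.roots.map Complex.re).sum ≤ 0 := by
      have hs : ∀ s : Multiset ℂ, (∀ r ∈ s, r.re ≤ 0) → (s.map Complex.re).sum ≤ 0 := by
        intro s
        induction s using Multiset.induction_on with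
        | empty => simp
        | cons a s ih =>
          intro hs
          rw [Multiset.map_cons, Multiset.sum_cons]
          have := ih (fun r hr => hs r (Multiset.mem_cons_of_mem hr))
          have := hs a (Multiset.mem_cons_self _ _)
          linarith
      exact hs _ (fun r hr => hrt r (mem_roots'.1 hr).2)
    linarith

/-- coefficients of `p * reflect N p` -/
lemma coeff_mul_reflect (p : ℂ[X]) (N : ℕ) (hp : p.natDegree ≤ N) (m : ℕ) :
    (p * reflect N p).coeff (N + m) = ∑ k ∈ range (N + 1), p.coeff k * p.coeff (k + m) := by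
  rw [coeff_mul, Finset.Nat.sum_antidiagonal_eq_sum_range_succ_mk]
  have hsplit : (N + m).succ = m + (N + 1) := by omega
  rw [hsplit, Finset.sum_range_add]
  have h1 : ∑ x ∈ range m, p.coeff x * (reflect N p).coeff (N + m - x) = 0 := by
    apply Finset.sum_eq_zero
    intro x hx
    have hx' := Finset.mem_range.1 hx
    rw [coeff_reflect, revAt_eq_self_of_lt (by omega), coeff_eq_zero_of_natDegree_lt (p := p)
      (n := N + m - x) (by omega), mul_zero]
  rw [h1, zero_add]
  refine Finset.sum_congr rfl (fun k hk => ?_)
  have hk' := Finset.mem_range.1 hk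
  rw [coeff_reflect]
  have e1 : N + m - (m + k) = N - k := by omega
  rw [e1, revAt_le (Nat.sub_le _ _)]
  have e2 : N - (N - k) = k := by omega
  rw [e2, add_comm m k]
  ring

lemma reflect_lin (a : ℂ) : reflect 1 (1 + C a * X) = X + C a := by
  ext n
  rw [coeff_reflect]
  rcases n with _ | _ | n
  · rw [revAt_le (by norm_num)]
    simp [coeff_one]
  · rw [revAt_le (by norm_num)]
    simp
  · rw [revAt_eq_self_of_lt (by omega)]
    simp [coeff_one, coeff_X]

lemma natDegree_lin_prod (s : Multiset ℂ) :
    ((s.map (fun a => 1 + C a * X)).prod : ℂ[X]).natDegree ≤ Multiset.card s := by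
  refine (natDegree_multiset_prod_le _).trans ?_
  rw [Multiset.map_map]
  refine (Multiset.sum_le_card_nsmul _ 1 ?_).trans (by simp)
  intro x hx
  obtain ⟨w, _, rfl⟩ := Multiset.mem_map.1 hx
  simp only [Function.comp]
  refine (natDegree_add_le _ _).trans ?_
  rw [natDegree_one]
  exact max_le (Nat.zero_le _) ((natDegree_C_mul_le _ _).trans natDegree_X_le)

lemma reflect_prod (s : Multiset ℂ) :
    reflect (Multiset.card s) (s.map (fun a => 1 + C a * X)).prod
      = (s.map (fun a => X + C a)).prod := by
  induction s using Multiset.induction_on with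
  | empty => simp [reflect_one]
  | cons a s ih =>
    rw [Multiset.map_cons, Multiset.prod_cons, Multiset.map_cons, Multiset.prod_cons,
      Multiset.card_cons, add_comm (Multiset.card s) 1,
      reflect_mul (1 + C a * X) _ (F := 1) (G := Multiset.card s) _ (natDegree_lin_prod s), ih,
      reflect_lin]
    refine (natDegree_add_le _ _).trans ?_
    rw [natDegree_one]
    exact max_le (Nat.zero_le _) ((natDegree_C_mul_le _ _).trans natDegree_X_le)

end B4
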