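import Mathlib
import Pool.Agent.B4.BO3
import Pool.Agent.H62LR.Compose

/-!
# Hurwitz polynomials attached to a `PF` sequence
-/

open Polynomial Finset

namespace B4

/-- coefficients of `∏ (1 + ρ X)` -/
noncomputable def cf (m : Multiset ℝ) (k : ℕ) : ℝ :=
  ((m.map (fun ρ => 1 + C ρ * X)).prod : ℝ[X]).coeff k

/-- `∏ (1 + ρ z X)` -/
noncomputable def pz (m : Multiset ℝ) (z : ℂ) : ℂ[X] :=
  ((m.map (fun ρ : ℝ => (ρ : ℂ) * z)).map (fun a => 1 + C a * X)).prod

lemma cf_zero (m : Multiset ℝ) : cf m 0 = 1 := by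
  unfold cf
  rw [coeff_zero_eq_eval_zero, eval_multiset_prod, Multiset.map_map]
  simp

lemma cf_cons (ρ : ℝ) (m : Multiset ℝ) (k : ℕ) :
    cf (ρ ::ₘ m) (k + 1) = cf m (k + 1) + ρ * cf m k := by
  unfold cf
  rw [Multiset.map_cons, Multiset.prod_cons, add_mul, one_mul, coeff_add, mul_assoc, coeff_C_mul,
    coeff_X_mul]

lemma coeff_pz (m : Multiset ℝ) (z : ℂ) (k : ℕ) : (pz m z).coeff k = (cf m k : ℂ) * z ^ k := by
  have h1 : pz m z = (((m.map (fun ρ => 1 + C ρ * X)).prod : ℝ[X]).map (algebraMap ℝ ℂ)).comp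
      (C z * X) := by
    unfold pz
    rw [Polynomial.map_multiset_prod, multiset_prod_comp, Multiset.map_map, Multiset.map_map,
      Multiset.map_map]
    congr 1
    refine Multiset.map_congr rfl (fun ρ _ => ?_)
    simp only [Function.comp, Polynomial.map_add, Polynomial.map_one, Polynomial.map_mul, map_C,
      map_X, add_comp, one_comp, mul_comp, C_comp, X_comp, Complex.coe_algebraMap, C_mul]
    ring
  rw [h1, comp_C_mul_X_coeff, coeff_map]
  rfl

lemma natDegree_pz_le (m : Multiset ℝ) (z : ℂ) : (pz m z).natDegree ≤ Multiset.card m := by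
  have := natDegree_lin_prod (m.map (fun ρ : ℝ => (ρ : ℂ) * z))
  rwa [Multiset.card_map] at this

lemma cf_eq_zero (m : Multiset ℝ) {k : ℕ} (hk : Multiset.card m < k) : cf m k = 0 := by
  have h1 := coeff_pz m 1 k
  rw [coeff_eq_zero_of_natDegree_lt ((natDegree_pz_le m 1).trans_lt hk)] at h1
  simp only [one_pow, mul_one] at h1
  exact_mod_cast h1.symm

lemma cf_pos (m : Multiset ℝ) (hm : ∀ ρ ∈ m, 0 < ρ) : ∀ k ≤ Multiset.card m, 0 < cf m k := by
  induction m using Multiset.induction_on with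
  | empty => intro k hk; simp at hk; subst hk; rw [cf_zero]; norm_num
  | cons ρ m ih =>
    intro k hk
    have ih' := ih (fun r hr => hm r (Multiset.mem_cons_of_mem hr))
    have hρ := hm ρ (Multiset.mem_cons_self _ _)
    rw [Multiset.card_cons] at hk
    rcases k with _ | k
    · rw [cf_zero]; norm_num
    · rw [cf_cons]
      have h1 := ih' k (by omega)
      have h2 : 0 ≤ cf m (k + 1) := by
        rcases le_or_gt (k + 1) (Multiset.card m) with h | h
        · exact (ih' _ h).le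
        · rw [cf_eq_zero m h]
      have := mul_pos hρ h1
      linarith

section

variable {m : Multiset ℝ} {z : ℂ}

lemma mul_re_nonneg {ρ : ℝ} (hρ : 0 < ρ) (hz : 0 ≤ z.re) : 0 ≤ ((ρ : ℂ) * z).re := by
  rw [Complex.mul_re, Complex.ofReal_re, Complex.ofReal_im, zero_mul, sub_zero]
  positivity

/-- the product `∏ (1 + ρ z u) (u + ρ z)` -/
noncomputable def GG (m : Multiset ℝ) (z : ℂ) : ℂ[X] :=
  pz m z * ((m.map (fun ρ : ℝ => (ρ : ℂ) * z)).map (fun a => X + C a)).prod

lemma coeff_GG (m : Multiset ℝ) (z : ℂ) (p : ℕ) :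
    (GG m z).coeff (Multiset.card m + p)
      = ∑ k ∈ range (Multiset.card m + 1), ((cf m k * cf m (k + p) : ℝ) : ℂ) * z ^ (2 * k + p) := by
  have h1 := reflect_prod (m.map (fun ρ : ℝ => (ρ : ℂ) * z))
  rw [Multiset.card_map] at h1
  unfold GG
  rw [← h1]
  have h2 := coeff_mul_reflect (pz m z) (Multiset.card m) (natDegree_pz_le m z) p
  unfold pz at h2 ⊢
  rw [h2]
  refine Finset.sum_congr rfl (fun k _ => ?_)
  have h3 := coeff_pz m z
  unfold pz at h3
  rw [h3, h3]
  push_cast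
  ring

lemma natDegree_GG (hm : ∀ ρ ∈ m, 0 < ρ) (hz : z ≠ 0) :
    (GG m z).natDegree = 2 * Multiset.card m ∧ GG m z ≠ 0 := by
  have h1 : ∀ a ∈ m.map (fun ρ : ℝ => (ρ : ℂ) * z), a ≠ 0 := by
    intro a ha
    obtain ⟨ρ, hρ, rfl⟩ := Multiset.mem_map.1 ha
    exact mul_ne_zero (by exact_mod_cast (hm ρ hρ).ne') hz
  have hd : ∀ a : ℂ, a ≠ 0 → (1 + C a * X : ℂ[X]).natDegree = 1 := by
    intro a ha
    rw [add_comm]
    exact natDegree_linear (b := 1) ha
  have h2 : (pz m z).natDegree = Multiset.card m ∧ pz m z ≠ 0 := by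
    have h0 : (0 : ℂ[X]) ∉ (m.map (fun ρ : ℝ => (ρ : ℂ) * z)).map (fun a => 1 + C a * X) := by
      intro h
      obtain ⟨a, ha, ha0⟩ := Multiset.mem_map.1 h
      have := hd a (h1 a ha)
      rw [ha0] at this
      simp at this
    constructor
    · unfold pz
      rw [natDegree_multiset_prod _ h0, Multiset.map_map]
      have h5 : ((m.map (fun ρ : ℝ => (ρ : ℂ) * z)).map
          (natDegree ∘ fun a => (1 + C a * X : ℂ[X]))) =
          ((m.map (fun ρ : ℝ => (ρ : ℂ) * z)).map (fun _ => 1)) :=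
        Multiset.map_congr rfl (fun a ha => hd a (h1 a ha))
      rw [h5]
      simp
    · unfold pz
      exact fun h => h0 (Multiset.prod_eq_zero_iff.1 h)
  have h3 : (((m.map (fun ρ : ℝ => (ρ : ℂ) * z)).map (fun a => X + C a)).prod : ℂ[X]).natDegree
      = Multiset.card m ∧
      (((m.map (fun ρ : ℝ => (ρ : ℂ) * z)).map (fun a => X + C a)).prod : ℂ[X]) ≠ 0 := by
    have h0 : (0 : ℂ[X]) ∉ (m.map (fun ρ : ℝ => (ρ : ℂ) * z)).map (fun a => X + C a) := by
      intro h
      obtain ⟨a, ha, ha0⟩ := Multiset.mem_map.1 h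
      exact X_add_C_ne_zero a ha0
    constructor
    · rw [natDegree_multiset_prod _ h0, Multiset.map_map]
      have h5 : ((m.map (fun ρ : ℝ => (ρ : ℂ) * z)).map
          (natDegree ∘ fun a => (X + C a : ℂ[X]))) =
          ((m.map (fun ρ : ℝ => (ρ : ℂ) * z)).map (fun _ => 1)) :=
        Multiset.map_congr rfl (fun a _ => natDegree_X_add_C a)
      rw [h5]
      simp
    · exact fun h => h0 (Multiset.prod_eq_zero_iff.1 h)
  constructor
  · unfold GG
    rw [natDegree_mul h2.2 h3.2, h2.1, h3.1]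
    ring
  · unfold GG
    exact mul_ne_zero h2.2 h3.2

lemma CH_GG (hm : ∀ ρ ∈ m, 0 < ρ) (hz : z ≠ 0) (hre : 0 ≤ z.re) : CH ((X + C 1) * GG m z) := by
  refine CH.mk' (natDegree_GG hm hz).2 ?_ ?_
  · intro u hu
    unfold GG pz at hu
    rw [eval_mul] at hu
    rcases mul_eq_zero.1 hu with h | h
    · rw [eval_multiset_prod, Multiset.map_map, Multiset.map_map] at h
      rw [Multiset.prod_eq_zero_iff] at h
      obtain ⟨ρ, hρ, h0⟩ := Multiset.mem_map.1 h
      simp only [Function.comp, eval_add, eval_one, eval_mul, eval_C, eval_X] at h0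
      have h1 := mul_re_nonneg (hm ρ hρ) hre
      set a : ℂ := (ρ : ℂ) * z with ha
      have ha0 : a ≠ 0 := mul_ne_zero (by exact_mod_cast (hm ρ hρ).ne') hz
      have hu2 : u = - (1 / a) := by
        field_simp
        linear_combination h0
      rw [hu2, Complex.neg_re, re_one_div]
      have := div_nonneg h1 (Complex.normSq_nonneg a)
      linarith
    · rw [eval_multiset_prod, Multiset.map_map, Multiset.map_map] at h
      rw [Multiset.prod_eq_zero_iff] at h
      obtain ⟨ρ, hρ, h0⟩ := Multiset.mem_map.1 h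
      simp only [Function.comp, eval_add, eval_C, eval_X] at h0
      have h1 := mul_re_nonneg (hm ρ hρ) hre
      have h2 := congrArg Complex.re h0
      rw [Complex.add_re, Complex.zero_re] at h2
      linarith
  · unfold GG pz
    rw [eval_mul, eval_multiset_prod, eval_multiset_prod, Multiset.map_map, Multiset.map_map,
      Multiset.map_map, Multiset.map_map]
    refine mul_ne_zero ?_ ?_
    · intro h
      rw [Multiset.prod_eq_zero_iff] at h
      obtain ⟨ρ, hρ, h0⟩ := Multiset.mem_map.1 h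
      simp [Function.comp] at h0
    · intro h
      rw [Multiset.prod_eq_zero_iff] at h
      obtain ⟨ρ, hρ, h0⟩ := Multiset.mem_map.1 h
      simp only [Function.comp, eval_add, eval_C, eval_X, zero_add] at h0
      exact mul_ne_zero (by exact_mod_cast (hm ρ hρ).ne') hz h0

/-- consecutive coefficients -/
lemma GG_add_ne_zero (hm : ∀ ρ ∈ m, 0 < ρ) (hz : z ≠ 0) (hre : 0 ≤ z.re) {p : ℕ}
    (hp : p ≤ Multiset.card m) :
    (GG m z).coeff (Multiset.card m + p) + (GG m z).coeff (Multiset.card m + p + 1) ≠ 0 := by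
  have h1 := (CH_GG hm hz hre).coeff_ne_zero (Multiset.card m + p + 1) (by
    rw [natDegree_mul (X_add_C_ne_zero 1) (natDegree_GG hm hz).2, natDegree_X_add_C,
      (natDegree_GG hm hz).1]
    omega)
  rw [add_mul, coeff_add, coeff_X_mul, coeff_C_mul, one_mul] at h1
  exact h1

end

/-- interleaving of two sequences -/
def ilv (e o : ℕ → ℝ) (k : ℕ) : ℝ := if k % 2 = 0 then e (k / 2) else o (k / 2)

lemma ilv_even (e o : ℕ → ℝ) (k : ℕ) : ilv e o (2 * k) = e k := by
  unfold ilv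
  rw [if_pos (by omega)]
  congr 1; omega

lemma ilv_odd (e o : ℕ → ℝ) (k : ℕ) : ilv e o (2 * k + 1) = o k := by
  unfold ilv
  rw [if_neg (by omega)]
  congr 1; omega

lemma sum_ilv (e o : ℕ → ℝ) (M : ℕ) (z : ℂ) :
    Pool.Agent.H62LR.ev (2 * M + 1) (ilv e o) z
      = ∑ k ∈ range (M + 1), ((e k : ℂ) * z ^ (2 * k) + (o k : ℂ) * z ^ (2 * k + 1)) := by
  unfold Pool.Agent.H62LR.ev
  induction M with
  | zero =>
    have h0 := ilv_even e o 0
    have h1 := ilv_odd e o 0
    simp only [mul_zero, zero_add] at h0 h1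
    rw [Finset.sum_range_succ, Finset.sum_range_succ, Finset.sum_range_zero]
    simp [h0, h1]
  | succ M ih =>
    have e1 : 2 * (M + 1) + 1 + 1 = (2 * M + 1 + 1) + 1 + 1 := by ring
    rw [e1, Finset.sum_range_succ, Finset.sum_range_succ, ih, Finset.sum_range_succ _ (M + 1)]
    have e2 : ilv e o (2 * M + 1 + 1) = e (M + 1) := ilv_even e o (M + 1)
    have e3 : ilv e o (2 * M + 1 + 1 + 1) = o (M + 1) := ilv_odd e o (M + 1)
    rw [e2, e3]
    ring

lemma ev_ilv (e o : ℕ → ℝ) (M : ℕ) (ho : o M = 0) (z : ℂ) :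
    Pool.Agent.H62LR.ev (2 * M) (ilv e o) z
      = ∑ k ∈ range (M + 1), ((e k : ℂ) * z ^ (2 * k) + (o k : ℂ) * z ^ (2 * k + 1)) := by
  rw [← sum_ilv]
  unfold Pool.Agent.H62LR.ev
  rw [Finset.sum_range_succ _ (2 * M + 1), ilv_odd, ho]
  simp

lemma ilv_eq_zero {e o : ℕ → ℝ} {M : ℕ} (he : ∀ k, M < k → e k = 0) (ho : ∀ k, M ≤ k → o k = 0) :
    ∀ k, 2 * M < k → ilv e o k = 0 := by
  intro k hk
  unfold ilv
  split_ifs with h
  · exact he _ (by omega)
  · exact ho _ (by omega)

section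

variable {m : Multiset ℝ}

/-- `∑ c_k^2 z^{2k} + c_k c_{k+1} z^{2k+1}` has no zeros in the closed right half plane. -/
theorem hur_Z (hm : ∀ ρ ∈ m, 0 < ρ) (z : ℂ) (hre : 0 ≤ z.re) :
    Pool.Agent.H62LR.ev (2 * Multiset.card m)
      (ilv (fun k => cf m k ^ 2) (fun k => cf m k * cf m (k + 1))) z ≠ 0 := by
  rcases eq_or_ne z 0 with hz | hz
  · subst hz
    unfold Pool.Agent.H62LR.ev
    rw [Finset.sum_range_succ', Finset.sum_eq_zero]
    · have := ilv_even (fun k => cf m k ^ 2) (fun k => cf m k * cf m (k + 1)) 0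
      simp only [mul_zero] at this
      rw [this, cf_zero]
      simp
    · intro k _
      simp
  · rw [ev_ilv _ _ _ (by rw [cf_eq_zero m (Nat.lt_succ_self _), mul_zero])]
    have h1 := GG_add_ne_zero hm hz hre (p := 0) (Nat.zero_le _)
    rw [add_assoc, coeff_GG, coeff_GG, ← Finset.sum_add_distrib] at h1
    convert h1 using 1
    refine Finset.sum_congr rfl (fun k _ => ?_)
    simp only [add_zero, zero_add]
    push_cast
    ring

/-- `∑ c_k c_{k+1} z^{2k} + c_k c_{k+2} z^{2k+1}` has no zeros in the right half plane. -/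
theorem hur_A {n : ℕ} (hn : Multiset.card m = n + 1) (hm : ∀ ρ ∈ m, 0 < ρ) (z : ℂ)
    (hre : 0 < z.re) :
    Pool.Agent.H62LR.ev (2 * n)
      (ilv (fun k => cf m k * cf m (k + 1)) (fun k => cf m k * cf m (k + 2))) z ≠ 0 := by
  have hz : z ≠ 0 := by
    intro h
    rw [h] at hre
    simp at hre
  rw [ev_ilv _ _ _ (by rw [cf_eq_zero m (k := n + 2) (by omega), mul_zero])]
  have h1 := GG_add_ne_zero hm hz hre.le (p := 1) (by omega)
  rw [add_assoc, coeff_GG, coeff_GG, ← Finset.sum_add_distrib, hn, Finset.sum_range_succ _ (n + 1),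
    cf_eq_zero m (k := n + 1 + 1) (by omega), cf_eq_zero m (k := n + 1 + (1 + 1)) (by omega)] at h1
  intro h2
  apply h1
  have h3 : ∑ k ∈ range (n + 1), (((cf m k * cf m (k + 1) : ℝ) : ℂ) * z ^ (2 * k + 1) +
      ((cf m k * cf m (k + (1 + 1)) : ℝ) : ℂ) * z ^ (2 * k + (1 + 1)))
      = z * ∑ k ∈ range (n + 1), (((cf m k * cf m (k + 1) : ℝ) : ℂ) * z ^ (2 * k) +
      ((cf m k * cf m (k + 2) : ℝ) : ℂ) * z ^ (2 * k + 1)) := by
    rw [Finset.mul_sum]
    refine Finset.sum_congr rfl (fun k _ => ?_)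
    ring
  rw [h3]
  rw [h2]
  simp

end

end B4
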