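import Mathlib
import Pool.Agent.B4.BO4

/-!
# The pair `(ell, O1)`: Grace–Walsh–Szegő
-/

open Polynomial Finset

namespace B4

/-- homogenised product -/
lemma hom_prod (A B : ℂ[X]) (s : Multiset ℂ) :
    (s.map (fun ζ => A + C ζ * B)).prod
      = ∑ k ∈ range (Multiset.card s + 1),
        C (((s.map (fun ζ => 1 + C ζ * X)).prod : ℂ[X]).coeff k) *
          (B ^ k * A ^ (Multiset.card s - k)) := by
  induction s using Multiset.induction_on with
  | empty => simp
  | cons ζ s ih =>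
    rw [Multiset.map_cons, Multiset.prod_cons, ih, Multiset.card_cons]
    set q : ℂ[X] := (s.map (fun ζ => 1 + C ζ * X)).prod with hq
    set N := Multiset.card s with hN
    have hqdeg : q.natDegree ≤ N := natDegree_lin_prod s
    have hq0 : q.coeff (N + 1) = 0 := coeff_eq_zero_of_natDegree_lt (by omega)
    rw [Multiset.map_cons, Multiset.prod_cons, ← hq]
    have e1 : ∀ k, ((1 + C ζ * X) * q).coeff k = q.coeff k + ζ * (X * q).coeff k := by
      intro k
      rw [add_mul, one_mul, coeff_add, mul_assoc, coeff_C_mul]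
    simp_rw [e1, C_add, C_mul, add_mul]
    rw [Finset.sum_add_distrib]
    congr 1
    · rw [Finset.sum_range_succ _ (N + 1), hq0, C_0, zero_mul, add_zero, Finset.mul_sum]
      refine Finset.sum_congr rfl (fun k hk => ?_)
      have hk' := Finset.mem_range.1 hk
      have : N + 1 - k = (N - k) + 1 := by omega
      rw [this, pow_succ]
      ring
    · rw [Finset.sum_range_succ' _ (N + 1)]
      simp only [coeff_X_mul, coeff_X_mul_zero, C_0, mul_zero, zero_mul, add_zero]
      rw [Finset.mul_sum]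
      refine Finset.sum_congr rfl (fun k hk => ?_)
      have : N + 1 - (k + 1) = N - k := by omega
      rw [this, pow_succ]
      ring

/-- **Grace–Walsh–Szegő** for a linear functional and the right half plane. -/
lemma gws_right (Λ : ℂ[X] →ₗ[ℂ] ℂ) (A B : ℂ[X]) (N : ℕ)
    (h : ∀ ζ : ℂ, 0 < ζ.re → Λ ((A + C ζ * B) ^ N) ≠ 0) (s : Multiset ℂ)
    (hs : ∀ ζ ∈ s, 0 < ζ.re) (hc : Multiset.card s = N) :
    Λ ((s.map (fun ζ => A + C ζ * B)).prod) ≠ 0 := by
  -- rotate
  set B' : ℂ[X] := C (-Complex.I) * B with hB'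
  set s' : Multiset ℂ := s.map (fun ζ => Complex.I * ζ) with hs'
  have h1 : (s.map (fun ζ => A + C ζ * B)).prod = (s'.map (fun ζ => A + C ζ * B')).prod := by
    rw [hs', Multiset.map_map]
    congr 1
    refine Multiset.map_congr rfl (fun ζ _ => ?_)
    simp only [Function.comp, hB']
    have : C ζ = C (Complex.I * ζ) * C (-Complex.I) := by
      rw [← C_mul]
      congr 1
      linear_combination ζ * Complex.I_mul_I
    rw [this]
    ring
  set α : ℕ → ℂ := fun k => Λ (B' ^ k * A ^ (N - k)) with hα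
  have hbin : ∀ w : ℂ, (Pool.Agent.H62LR.bin N α).eval w = Λ ((A + C w * B') ^ N) := by
    intro w
    rw [Pool.Agent.H62LR.eval_bin, add_comm A, add_pow, map_sum]
    refine Finset.sum_congr rfl (fun k _ => ?_)
    have h2 : (C w * B') ^ k * A ^ (N - k) * ((N.choose k : ℕ) : ℂ[X])
        = ((N.choose k : ℂ) * w ^ k) • (B' ^ k * A ^ (N - k)) := by
      rw [smul_eq_C_mul, mul_pow, C_mul, C_pow]
      simp only [map_natCast]
      ring
    rw [h2, map_smul, smul_eq_mul, hα]
    ring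
  have h3 := Pool.Agent.H62LR.gws s' N (by rw [hs', Multiset.card_map, hc]) (by
    intro ζ hζ
    obtain ⟨w, hw, rfl⟩ := Multiset.mem_map.1 hζ
    have := hs w hw
    simpa using this) α (by
    intro w hw
    rw [hbin]
    have h4 : A + C w * B' = A + C (-Complex.I * w) * B := by
      rw [hB', C_mul]
      ring
    rw [h4]
    apply h
    simpa using hw)
  rw [h1, hom_prod, map_sum]
  have hcard : Multiset.card s' = N := by rw [hs', Multiset.card_map, hc]
  rw [hcard]
  convert h3 using 1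
  refine Finset.sum_congr rfl (fun k _ => ?_)
  rw [← smul_eq_C_mul, map_smul, smul_eq_mul]

/-- the functional `2 (G_N - G_{N+2}) + (G_{N+1} - G_{N+3})` -/
noncomputable def LB (N : ℕ) : ℂ[X] →ₗ[ℂ] ℂ :=
  (2 : ℂ) • (lcoeff ℂ N - lcoeff ℂ (N + 2)) + (lcoeff ℂ (N + 1) - lcoeff ℂ (N + 3))

lemma LB_apply (N : ℕ) (G : ℂ[X]) :
    LB N G = 2 * (G.coeff N - G.coeff (N + 2)) + (G.coeff (N + 1) - G.coeff (N + 3)) := by
  unfold LB
  simp

lemma LB_pow (N : ℕ) (ζ : ℂ) (hζ : 0 < ζ.re) :
    LB N ((1 + X ^ 2 + C ζ * X) ^ N) ≠ 0 := by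
  set g : ℂ[X] := 1 + X ^ 2 + C ζ * X with hg
  set Q : ℂ[X] := g ^ (N + 1) with hQ
  -- evaluation
  have hg0 : g.eval 0 ≠ 0 := by rw [hg]; simp
  have hgne : g ≠ 0 := by
    intro h; rw [h] at hg0; simp at hg0
  have hroot : ∀ u : ℂ, g.eval u = 0 → u.re ≤ 0 := by
    intro u hu
    by_contra hc
    push Not at hc
    have hu0 : u ≠ 0 := by
      intro h; rw [h] at hc; simp at hc
    have h1 : ζ = - (u + 1 / u) := by
      rw [hg] at hu
      simp only [eval_add, eval_one, eval_pow, eval_X, eval_mul, eval_C] at hu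
      field_simp
      linear_combination hu
    have h2 : ζ.re = - (u.re + u.re / Complex.normSq u) := by
      rw [h1, Complex.neg_re, Complex.add_re, re_one_div]
    have h3 : 0 ≤ u.re / Complex.normSq u := div_nonneg hc.le (Complex.normSq_nonneg u)
    linarith
  have hgd : g.natDegree = 2 := by
    have e : g = C 1 * X ^ 2 + C ζ * X + C 1 := by rw [hg]; simp; ring
    rw [e]
    exact natDegree_quadratic one_ne_zero
  have hCH : CH ((X + C 1) * Q) := by
    refine CH.mk' (pow_ne_zero _ hgne) ?_ ?_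
    · intro u hu
      rw [hQ, eval_pow] at hu
      exact hroot u (pow_eq_zero_iff (Nat.succ_ne_zero N) |>.1 hu)
    · rw [hQ, eval_pow]
      exact pow_ne_zero _ hg0
  have h1 := hCH.coeff_ne_zero (N + 3) (by
    rw [natDegree_mul (X_add_C_ne_zero 1) (pow_ne_zero _ hgne), natDegree_X_add_C,
      natDegree_pow, hgd]
    omega)
  rw [add_mul, coeff_add, coeff_X_mul, coeff_C_mul, one_mul] at h1
  -- the differential identity
  have hid : X * derivative Q - C ((N : ℂ) + 1) * Q = C ((N : ℂ) + 1) * (X ^ 2 * g ^ N - g ^ N) := by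
    have hder : derivative g = 2 * X + C ζ := by
      rw [hg]
      simp
      ring
    rw [hQ, derivative_pow, hder, Nat.add_sub_cancel, pow_succ, hg]
    push_cast
    simp only [map_add, map_natCast, map_one]
    ring
  have hco : ∀ M : ℕ, ((M : ℂ) + 1 - N) * Q.coeff (M + 2)
      = ((N : ℂ) + 1) * ((g ^ N).coeff M - (g ^ N).coeff (M + 2)) := by
    intro M
    have h2 := congrArg (fun p => p.coeff (M + 2)) hid
    have e0 : (X * derivative Q).coeff (M + 2) = Q.coeff (M + 2) * ((M : ℂ) + 2) := by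
      rw [show M + 2 = (M + 1) + 1 from rfl, coeff_X_mul, coeff_derivative]
      push_cast
      ring
    have e1 : (X ^ 2 * g ^ N : ℂ[X]).coeff (M + 2) = (g ^ N).coeff M := by
      rw [mul_comm, coeff_mul_X_pow]
    simp only [coeff_sub, coeff_C_mul, e0, e1] at h2
    linear_combination h2
  have e2 := hco N
  have e3 := hco (N + 1)
  push_cast at e3
  rw [LB_apply]
  intro h0
  apply h1
  have hN : (N : ℂ) + 1 ≠ 0 := by exact_mod_cast Nat.succ_ne_zero N
  have e4 : (N + 1 + 2 : ℕ) = N + 3 := rfl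
  rw [e4] at e3
  have : (2 : ℂ) * (Q.coeff (N + 2) + Q.coeff (N + 3)) = 0 := by
    linear_combination 2 * e2 + e3 + ((N : ℂ) + 1) * h0
  rcases mul_eq_zero.1 this with h | h
  · norm_num at h
  · exact h

lemma LB_GG {m : Multiset ℝ} (hm : ∀ ρ ∈ m, 0 < ρ) {z : ℂ} (hz : 0 < z.re) :
    LB (Multiset.card m) (GG m z) ≠ 0 := by
  have hz0 : z ≠ 0 := by
    intro h; rw [h] at hz; simp at hz
  set s : Multiset ℂ := m.map (fun ρ : ℝ => (ρ : ℂ) * z + 1 / ((ρ : ℂ) * z)) with hs
  have hG : GG m z = C ((m.map (fun ρ : ℝ => (ρ : ℂ) * z)).prod) *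
      (s.map (fun ζ => (1 + X ^ 2) + C ζ * X)).prod := by
    unfold GG pz
    rw [hs]
    have key : ∀ t : Multiset ℝ, (∀ ρ ∈ t, 0 < ρ) →
        ((t.map (fun ρ : ℝ => (ρ : ℂ) * z)).map (fun a => (1 : ℂ[X]) + C a * X)).prod *
          ((t.map (fun ρ : ℝ => (ρ : ℂ) * z)).map (fun a => X + C a)).prod =
        C ((t.map (fun ρ : ℝ => (ρ : ℂ) * z)).prod) *
          ((t.map (fun ρ : ℝ => (ρ : ℂ) * z + 1 / ((ρ : ℂ) * z))).map
            (fun ζ => (1 + X ^ 2) + C ζ * X)).prod := by
      intro t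
      induction t using Multiset.induction_on with
      | empty => intro _; simp
      | cons ρ t ih =>
        intro ht
        have ih' := ih (fun r hr => ht r (Multiset.mem_cons_of_mem hr))
        have hρ := ht ρ (Multiset.mem_cons_self _ _)
        simp only [Multiset.map_cons, Multiset.prod_cons]
        have ha0 : (ρ : ℂ) * z ≠ 0 := mul_ne_zero (by exact_mod_cast hρ.ne') hz0
        generalize (ρ : ℂ) * z = a at ha0 ⊢
        have e : ((1 : ℂ[X]) + C a * X) * (X + C a)
            = C a * ((1 + X ^ 2) + C (a + 1 / a) * X) := by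
          have e2 : C a * C (a + 1 / a) = (C a * C a + 1 : ℂ[X]) := by
            rw [← C_mul, ← C_mul, ← C_1, ← C_add]
            congr 1
            field_simp
          linear_combination -X * e2
        have e3 : C (a * (t.map (fun ρ : ℝ => (ρ : ℂ) * z)).prod)
            = (C a * C ((t.map (fun ρ : ℝ => (ρ : ℂ) * z)).prod) : ℂ[X]) := C_mul
        rw [e3]
        linear_combination (((t.map (fun ρ : ℝ => (ρ : ℂ) * z)).map
            (fun a => (1 : ℂ[X]) + C a * X)).prod *
          ((t.map (fun ρ : ℝ => (ρ : ℂ) * z)).map (fun a => X + C a)).prod) * e +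
          (C a * ((1 + X ^ 2) + C (a + 1 / a) * X)) * ih'
    exact key m hm
  rw [hG, ← smul_eq_C_mul, map_smul, smul_eq_mul]
  refine mul_ne_zero ?_ ?_
  · intro h
    rw [Multiset.prod_eq_zero_iff] at h
    obtain ⟨ρ, hρ, h0⟩ := Multiset.mem_map.1 h
    exact mul_ne_zero (by exact_mod_cast (hm ρ hρ).ne') hz0 h0
  · apply gws_right (LB (Multiset.card m)) (1 + X ^ 2) X (Multiset.card m)
      (fun ζ hζ => LB_pow _ ζ hζ) s
    · intro ζ hζ
      rw [hs] at hζ
      obtain ⟨ρ, hρ, rfl⟩ := Multiset.mem_map.1 hζ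
      have h1 : 0 < ((ρ : ℂ) * z).re := by
        rw [Complex.mul_re, Complex.ofReal_re, Complex.ofReal_im, zero_mul, sub_zero]
        exact mul_pos (hm ρ hρ) hz
      rw [Complex.add_re, re_one_div]
      have := div_nonneg h1.le (Complex.normSq_nonneg ((ρ : ℂ) * z))
      linarith
    · rw [hs, Multiset.card_map]

/-- `ell_k = c_k^2 - c_{k-1} c_{k+1}` -/
noncomputable def ell (m : Multiset ℝ) (k : ℕ) : ℝ :=
  cf m k ^ 2 - sh (cf m) k * cf m (k + 1)

/-- `O1_k = (c_k c_{k+1} - c_{k-1} c_{k+2}) / 2` -/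
noncomputable def O1 (m : Multiset ℝ) (k : ℕ) : ℝ :=
  (cf m k * cf m (k + 1) - sh (cf m) k * cf m (k + 2)) / 2

/-- `∑ ell_k z^{2k} + O1_k z^{2k+1}` has no zeros in the right half plane. -/
theorem hur_B {m : Multiset ℝ} (hm : ∀ ρ ∈ m, 0 < ρ) (z : ℂ) (hre : 0 < z.re) :
    Pool.Agent.H62LR.ev (2 * Multiset.card m) (ilv (ell m) (O1 m)) z ≠ 0 := by
  set N := Multiset.card m with hN
  have hO : O1 m N = 0 := by
    unfold O1
    rw [cf_eq_zero m (k := N + 1) (by omega), cf_eq_zero m (k := N + 2) (by omega)]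
    simp
  rw [ev_ilv _ _ _ hO]
  have h1 := LB_GG hm hre
  rw [LB_apply, ← hN] at h1
  intro h2
  apply h1
  have c0 := coeff_GG m z 0
  have c1 := coeff_GG m z 1
  have c2 := coeff_GG m z 2
  have c3 := coeff_GG m z 3
  rw [← hN] at c0 c1 c2 c3
  rw [add_zero] at c0
  rw [c0, c1, c2, c3]
  -- shift the sums for c2, c3
  have s2 : ∑ k ∈ range (N + 1), ((cf m k * cf m (k + 2) : ℝ) : ℂ) * z ^ (2 * k + 2)
      = ∑ k ∈ range (N + 1), ((sh (cf m) k * cf m (k + 1) : ℝ) : ℂ) * z ^ (2 * k) := by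
    rw [Finset.sum_range_succ, Finset.sum_range_succ']
    rw [cf_eq_zero m (k := N + 2) (by omega)]
    simp only [sh_zero, sh_succ, mul_zero, zero_mul, Complex.ofReal_zero, add_zero]
    refine Finset.sum_congr rfl (fun k _ => ?_)
    rfl
  have s3 : ∑ k ∈ range (N + 1), ((cf m k * cf m (k + 3) : ℝ) : ℂ) * z ^ (2 * k + 3)
      = ∑ k ∈ range (N + 1), ((sh (cf m) k * cf m (k + 2) : ℝ) : ℂ) * z ^ (2 * k + 1) := by
    rw [Finset.sum_range_succ, Finset.sum_range_succ']
    rw [cf_eq_zero m (k := N + 3) (by omega)]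
    simp only [sh_zero, sh_succ, mul_zero, zero_mul, Complex.ofReal_zero, add_zero]
    refine Finset.sum_congr rfl (fun k _ => ?_)
    rfl
  rw [s2, s3, ← Finset.sum_sub_distrib, ← Finset.sum_sub_distrib, Finset.mul_sum,
    ← Finset.sum_add_distrib]
  have h3 : ∀ k, (2 : ℂ) * (((cf m k * cf m (k + 0) : ℝ) : ℂ) * z ^ (2 * k + 0) -
      ((sh (cf m) k * cf m (k + 1) : ℝ) : ℂ) * z ^ (2 * k)) +
      (((cf m k * cf m (k + 1) : ℝ) : ℂ) * z ^ (2 * k + 1) -
        ((sh (cf m) k * cf m (k + 2) : ℝ) : ℂ) * z ^ (2 * k + 1))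
      = 2 * (((ell m k : ℝ) : ℂ) * z ^ (2 * k) + ((O1 m k : ℝ) : ℂ) * z ^ (2 * k + 1)) := by
    intro k
    unfold ell O1
    push_cast
    simp only [add_zero]
    ring
  rw [Finset.sum_congr rfl (fun k _ => h3 k), ← Finset.mul_sum, h2, mul_zero]

end B4
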