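import Mathlib

/-!
# Weight lemma (Loewner–Heinz type) for fractional powers of a positive diagonal
-/

namespace B4

open Finset MeasureTheory Set Real

/-- resolvent step. -/
lemma resolvent_nonneg (n : ℕ) (T : ℕ → ℝ) (hT : ∀ k < n, 0 < T k) (R : ℕ → ℕ → ℝ)
    (hb : ∀ w : ℕ → ℝ, 0 ≤ ∑ j ∈ range n, ∑ k ∈ range n, w j * w k * R j k)
    (hC : ∀ w : ℕ → ℝ, 0 ≤ ∑ j ∈ range n, ∑ k ∈ range n, w j * w k * (T j * R j k))
    (c : ℕ → ℝ) (t : ℝ) (ht : 0 ≤ t) :
    0 ≤ ∑ j ∈ range n, ∑ k ∈ range n, c j * c k * (R j k * (t + T k)⁻¹) := by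
  have h1 := hb (fun j => c j * (t + T j)⁻¹)
  have h2 := hC (fun j => c j * (t + T j)⁻¹)
  have h3 : ∑ j ∈ range n, ∑ k ∈ range n, c j * c k * (R j k * (t + T k)⁻¹)
      = t * (∑ j ∈ range n, ∑ k ∈ range n,
          (c j * (t + T j)⁻¹) * (c k * (t + T k)⁻¹) * R j k)
        + ∑ j ∈ range n, ∑ k ∈ range n,
          (c j * (t + T j)⁻¹) * (c k * (t + T k)⁻¹) * (T j * R j k) := by
    rw [Finset.mul_sum, ← Finset.sum_add_distrib]
    apply Finset.sum_congr rfl; intro j hj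
    rw [Finset.mul_sum, ← Finset.sum_add_distrib]
    apply Finset.sum_congr rfl; intro k _
    have hTj := hT j (Finset.mem_range.mp hj)
    have hne : t + T j ≠ 0 := by positivity
    have : (t + T j)⁻¹ * (t + T j) = 1 := inv_mul_cancel₀ hne
    linear_combination (- (c j * c k * (R j k * (t + T k)⁻¹))) * this
  rw [h3]
  have := mul_nonneg ht h1
  linarith

/-- the weight lemma: `(b)` and `(C)` give accretivity with `T^{-θ}`, `0 ≤ θ ≤ 1`. -/
theorem weight_lemma (n : ℕ) (T : ℕ → ℝ) (hT : ∀ k < n, 0 < T k) (R : ℕ → ℕ → ℝ)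
    (hb : ∀ w : ℕ → ℝ, 0 ≤ ∑ j ∈ range n, ∑ k ∈ range n, w j * w k * R j k)
    (hC : ∀ w : ℕ → ℝ, 0 ≤ ∑ j ∈ range n, ∑ k ∈ range n, w j * w k * (T j * R j k))
    (θ : ℝ) (hθ0 : 0 ≤ θ) (hθ1 : θ ≤ 1) (c : ℕ → ℝ) :
    0 ≤ ∑ j ∈ range n, ∑ k ∈ range n, c j * c k * (R j k * (T k) ^ (-θ)) := by
  rcases hθ0.eq_or_lt with h0 | h0
  · have := hb c
    rw [← h0]
    simpa using this
  rcases hθ1.eq_or_lt with h1 | h1
  · have h2 := resolvent_nonneg n T hT R hb hC c 0 le_rfl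
    rw [h1]
    refine h2.trans_eq ?_
    apply Finset.sum_congr rfl; intro j _
    apply Finset.sum_congr rfl; intro k hk
    rw [zero_add, Real.rpow_neg_one]
  -- θ ∈ (0,1)
  have hp : (1 - θ) ∈ Ioo (0 : ℝ) 1 := ⟨by linarith, by linarith⟩
  obtain ⟨μ, hμ⟩ := Real.exists_measure_rpow_eq_integral_rpowIntegrand₀₁ hp
  have hrep : ∀ k < n, (T k) ^ (-θ)
      = (T k)⁻¹ * ∫ t in Ioi (0 : ℝ), Real.rpowIntegrand₀₁ (1 - θ) t (T k) ∂μ := by
    intro k hk
    have hTk := hT k hk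
    rw [← (hμ (T k) (Set.mem_Ici.mpr hTk.le)).2, ← Real.rpow_neg_one, ← Real.rpow_add hTk]
    congr 1; ring
  have hsum : ∑ j ∈ range n, ∑ k ∈ range n, c j * c k * (R j k * (T k) ^ (-θ))
      = ∫ t in Ioi (0 : ℝ), (∑ j ∈ range n, ∑ k ∈ range n,
          (c j * c k * R j k * (T k)⁻¹) * Real.rpowIntegrand₀₁ (1 - θ) t (T k)) ∂μ := by
    rw [MeasureTheory.integral_finsetSum]
    · apply Finset.sum_congr rfl; intro j _
      rw [MeasureTheory.integral_finsetSum]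
      · apply Finset.sum_congr rfl; intro k hk
        rw [MeasureTheory.integral_const_mul, hrep k (Finset.mem_range.mp hk)]
        ring
      · intro k hk
        exact ((hμ (T k) (Set.mem_Ici.mpr (hT k (Finset.mem_range.mp hk)).le)).1).const_mul _
    · intro j _
      apply MeasureTheory.integrable_finsetSum
      intro k hk
      exact ((hμ (T k) (Set.mem_Ici.mpr (hT k (Finset.mem_range.mp hk)).le)).1).const_mul _
  rw [hsum]
  apply MeasureTheory.setIntegral_nonneg measurableSet_Ioi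
  intro t ht
  have ht0 : 0 < t := ht
  have h2 := resolvent_nonneg n T hT R hb hC c t ht0.le
  have h3 : ∑ j ∈ range n, ∑ k ∈ range n,
      (c j * c k * R j k * (T k)⁻¹) * Real.rpowIntegrand₀₁ (1 - θ) t (T k)
      = t ^ ((1 - θ) - 1) * ∑ j ∈ range n, ∑ k ∈ range n,
        c j * c k * (R j k * (t + T k)⁻¹) := by
    rw [Finset.mul_sum]
    apply Finset.sum_congr rfl; intro j _
    rw [Finset.mul_sum]
    apply Finset.sum_congr rfl; intro k hk
    have hTk := hT k (Finset.mem_range.mp hk)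
    rw [Real.rpowIntegrand₀₁_eq_pow_div hp ht0.le hTk.le]
    have hne : t + T k ≠ 0 := by positivity
    field_simp
  rw [h3]
  exact mul_nonneg (Real.rpow_nonneg ht0.le _) h2

end B4
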