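import Mathlib
import Pool.Agent.B4.Alg
import Pool.Agent.B4.Weight

/-!
# Base-`2p` certificate: no common zero of `E_r`, `P_r` on the negative axis

`a : ℕ → ℝ` positive up to `n`, zero after; `b_k = a_k^p`, `T_k = a_k/a_{k+1}`,
`E(x) = ∑_{k≤n} a_k^{2p} a_k^θ x^k`, `P(x) = ∑_{k<n} a_k^p a_{k+1}^p a_{k+1}^θ x^k`.
-/

namespace B4

open Finset

/-- (D_δ) in the form used below. -/
def HD (a : ℕ → ℝ) (p n : ℕ) (δ γ : ℝ) : Prop :=
  ∀ w : ℕ → ℝ, 0 ≤ ∑ j ∈ range n, ∑ k ∈ range n, w j * w k *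
    ((a j / a (j + 1) + a k / a (k + 1)) * (KM (fun i => a i ^ p) j k
        + γ * KX (fun i => a i ^ p) j k)
      - δ * ((j : ℝ) - k) * (a j / a (j + 1) - a k / a (k + 1)) * KX (fun i => a i ^ p) j k)

/-- (bE): `M + γ X` is positive semidefinite. -/
def HbE (a : ℕ → ℝ) (p n : ℕ) (γ : ℝ) : Prop :=
  ∀ w : ℕ → ℝ, 0 ≤ ∑ j ∈ range n, ∑ k ∈ range n, w j * w k *
    (KM (fun i => a i ^ p) j k + γ * KX (fun i => a i ^ p) j k)

/-- (bO): `M(i,k+1) + M(k,i+1) + 2(δ-γ) Z` is strictly positive definite. -/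
def HbO (a : ℕ → ℝ) (p n : ℕ) (δ γ : ℝ) : Prop :=
  ∀ w : ℕ → ℝ, (∃ k < n, w k ≠ 0) → 0 < ∑ i ∈ range n, ∑ k ∈ range n, w i * w k *
    (KM (fun i => a i ^ p) i (k + 1) + KM (fun i => a i ^ p) k (i + 1)
      + 2 * (δ - γ) * KZ (fun i => a i ^ p) i k)

lemma sum_symm (n : ℕ) (w : ℕ → ℝ) (f : ℕ → ℕ → ℝ) :
    ∑ j ∈ range n, ∑ k ∈ range n, w j * w k * f j k
      = ∑ j ∈ range n, ∑ k ∈ range n, w j * w k * ((f j k + f k j) / 2) := by
  have h1 : ∑ j ∈ range n, ∑ k ∈ range n, w j * w k * f j k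
      = ∑ j ∈ range n, ∑ k ∈ range n, w j * w k * f k j := by
    rw [Finset.sum_comm]
    apply Finset.sum_congr rfl; intro j _
    apply Finset.sum_congr rfl; intro k _
    ring
  have h2 : ∑ j ∈ range n, ∑ k ∈ range n, w j * w k * ((f j k + f k j) / 2)
      = (∑ j ∈ range n, ∑ k ∈ range n, w j * w k * f j k
        + ∑ j ∈ range n, ∑ k ∈ range n, w j * w k * f k j) / 2 := by
    rw [← Finset.sum_add_distrib, Finset.sum_div]
    apply Finset.sum_congr rfl; intro j _
    rw [← Finset.sum_add_distrib, Finset.sum_div]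
    apply Finset.sum_congr rfl; intro k _
    ring
  rw [h2, ← h1]; ring

/-- **No common zero.** -/
theorem no_common_zero (n p : ℕ) (a : ℕ → ℝ) (ha : ∀ k ≤ n, 0 < a k)
    (h0 : ∀ k, n < k → a k = 0) (hn : 0 < n) (hp : 0 < p) (δ γ : ℝ)
    (hbE : HbE a p n γ) (hD : HD a p n δ γ) (hbO : HbO a p n δ γ)
    (θ : ℝ) (hθ0 : 0 ≤ θ) (hθ1 : θ ≤ 1) (x : ℝ) (hx : 0 < x)
    (hE : ∑ k ∈ range (n + 1), (-x) ^ k * (a k ^ (2 * p) * a k ^ θ) = 0)
    (hO : ∑ k ∈ range n, (-x) ^ k * (a k ^ p * (a (k + 1) ^ p * a (k + 1) ^ θ)) = 0) :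
    False := by
  set b : ℕ → ℝ := fun i => a i ^ p with hb
  have hbpos : ∀ k ≤ n, 0 < b k := fun k hk => pow_pos (ha k hk) p
  have hb0 : ∀ i, n < i → b i = 0 := by
    intro i hi
    show a i ^ p = 0
    rw [h0 i hi]; exact zero_pow hp.ne'
  set cE : ℕ → ℝ := fun k => (-x) ^ k * (a k ^ (2 * p) * a k ^ θ) with hcE
  set cO : ℕ → ℝ := fun k => (-x) ^ k * (a k ^ p * (a (k + 1) ^ p * a (k + 1) ^ θ)) with hcO
  set T : ℕ → ℝ := fun k => a k / a (k + 1) with hTdef
  have hT : ∀ k < n, 0 < T k := fun k hk => div_pos (ha k hk.le) (ha (k + 1) hk)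
  have key := pairing n (fun k => b k / b (k + 1)) (fun j => b (j - 1) / b j)
    (RE b δ γ) (RO b δ γ)
    (fun j => - (j : ℝ) * (1 + δ)) (fun k => ((k : ℝ) + 1) + δ * k + γ) x cE cO
    (fun k => (T k) ^ (-θ)) ?_ ?_ ?_ ?_ ?_ hE hO
  · -- positivity of the E part
    have hEpos : 0 ≤ ∑ j ∈ range n, ∑ k ∈ range n,
        cE j * cE k * (RE b δ γ j k * (T k) ^ (-θ)) := by
      apply weight_lemma n T hT (RE b δ γ) ?_ ?_ θ hθ0 hθ1
      · intro w
        have h1 := hbE w
        rw [sum_symm n w (RE b δ γ)]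
        refine h1.trans_eq ?_
        apply Finset.sum_congr rfl; intro j _
        apply Finset.sum_congr rfl; intro k _
        unfold RE
        rw [KM_symm b k j, KX_symm b k j]
        ring
      · intro w
        have h1 := hD w
        rw [sum_symm n w (fun j k => T j * RE b δ γ j k)]
        have h2 : ∑ j ∈ range n, ∑ k ∈ range n, w j * w k *
            ((T j * RE b δ γ j k + T k * RE b δ γ k j) / 2)
            = (1 / 2) * ∑ j ∈ range n, ∑ k ∈ range n, w j * w k *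
              ((a j / a (j + 1) + a k / a (k + 1)) * (KM b j k + γ * KX b j k)
                - δ * ((j : ℝ) - k) * (a j / a (j + 1) - a k / a (k + 1)) * KX b j k) := by
          rw [Finset.mul_sum]
          apply Finset.sum_congr rfl; intro j _
          rw [Finset.mul_sum]
          apply Finset.sum_congr rfl; intro k _
          unfold RE
          rw [KM_symm b k j, KX_symm b k j]
          simp only [hTdef]
          ring
        show 0 ≤ ∑ j ∈ range n, ∑ k ∈ range n, w j * w k *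
            ((T j * RE b δ γ j k + T k * RE b δ γ k j) / 2)
        rw [h2]
        exact mul_nonneg (by norm_num) h1
    have hOpos : 0 < ∑ i ∈ range n, ∑ k ∈ range n, cO i * cO k * RO b δ γ k i := by
      have h1 := hbO cO ⟨0, hn, by
        simp only [hcO, pow_zero, one_mul]
        have := ha 0 (Nat.zero_le n)
        have := ha 1 hn
        positivity⟩
      have h2 : ∑ i ∈ range n, ∑ k ∈ range n, cO i * cO k * RO b δ γ k i
          = (1 / 2) * ∑ i ∈ range n, ∑ k ∈ range n, cO i * cO k *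
            (KM b i (k + 1) + KM b k (i + 1) + 2 * (δ - γ) * KZ b i k) := by
        rw [sum_symm n cO (fun i k => RO b δ γ k i), Finset.mul_sum]
        apply Finset.sum_congr rfl; intro i _
        rw [Finset.mul_sum]
        apply Finset.sum_congr rfl; intro k _
        unfold RO
        rw [KZ_symm b k i]
        ring
      rw [h2]
      exact mul_pos (by norm_num) h1
    have := mul_pos hx hOpos
    linarith
  · -- null 0
    intro k hk
    have := null_zero b δ γ k (hbpos 0 (Nat.zero_le n)).ne' (hbpos k hk.le).ne'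
      (hbpos (k + 1) hk).ne'
    simp only [Nat.cast_zero, neg_zero, zero_mul, zero_add]
    exact this
  · intro j hj k hk
    have := null_succ b δ γ j k (hbpos j hj.le).ne' (hbpos (j + 1) hj).ne' (hbpos k hk.le).ne'
      (hbpos (k + 1) hk).ne'
    simp only [Nat.add_sub_cancel]
    rw [this]
    push_cast
    ring
  · intro k _
    exact RE_top b δ γ n k hb0
  · intro k hk
    have hak := ha k hk.le
    have hak1 := ha (k + 1) hk
    simp only [hcO, hcE, hTdef, hb]
    rw [Real.div_rpow hak.le hak1.le, Real.rpow_neg hak.le, Real.rpow_neg hak1.le]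
    have h1 : a k ^ θ ≠ 0 := (Real.rpow_pos_of_pos hak θ).ne'
    have h2 : a (k + 1) ^ θ ≠ 0 := (Real.rpow_pos_of_pos hak1 θ).ne'
    have h3 : a k ^ p ≠ 0 := (pow_pos hak p).ne'
    have h4 : a (k + 1) ^ p ≠ 0 := (pow_pos hak1 p).ne'
    have h5 : a k ^ (2 * p) = a k ^ p * a k ^ p := by rw [two_mul, pow_add]
    rw [h5]
    field_simp
  · intro j hj
    have hak := ha j hj.le
    have hak1 := ha (j + 1) hj
    simp only [hcO, hcE, hb, Nat.add_sub_cancel]
    have h4 : a (j + 1) ^ p ≠ 0 := (pow_pos hak1 p).ne'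
    have h5 : a (j + 1) ^ (2 * p) = a (j + 1) ^ p * a (j + 1) ^ p := by rw [two_mul, pow_add]
    rw [h5, pow_succ]
    field_simp

/-- the same with real powers: `r = 2p + θ`, `E = ∑ a_k^r x^k`, `P = ∑ a_k^p a_{k+1}^{r-p} x^k`. -/
theorem no_common_zero_rpow (n p : ℕ) (a : ℕ → ℝ) (ha : ∀ k ≤ n, 0 < a k)
    (h0 : ∀ k, n < k → a k = 0) (hn : 0 < n) (hp : 0 < p) (δ γ : ℝ)
    (hbE : HbE a p n γ) (hD : HD a p n δ γ) (hbO : HbO a p n δ γ)
    (r : ℝ) (hr0 : 2 * (p : ℝ) ≤ r) (hr1 : r ≤ 2 * (p : ℝ) + 1) (x : ℝ) (hx : 0 < x)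
    (hE : ∑ k ∈ range (n + 1), (-x) ^ k * a k ^ r = 0)
    (hO : ∑ k ∈ range n, (-x) ^ k * (a k ^ (p : ℝ) * a (k + 1) ^ (r - p)) = 0) :
    False := by
  apply no_common_zero n p a ha h0 hn hp δ γ hbE hD hbO (r - 2 * p) (by linarith) (by linarith)
    x hx
  · rw [← hE]
    apply Finset.sum_congr rfl; intro k hk
    have hak := ha k (by have := Finset.mem_range.mp hk; omega)
    congr 1
    rw [← Real.rpow_natCast, ← Real.rpow_add hak]
    congr 1; push_cast; ring
  · rw [← hO]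
    apply Finset.sum_congr rfl; intro k hk
    have hak := ha k (by have := Finset.mem_range.mp hk; omega)
    have hak1 := ha (k + 1) (by have := Finset.mem_range.mp hk; omega)
    congr 1
    rw [← Real.rpow_natCast, ← Real.rpow_natCast, ← Real.rpow_add hak1]
    congr 2; ring

end B4
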