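import Mathlib
import Pool.Agent.B4.Alg
import Pool.Agent.H62LR.Basic
import Pool.Agent.B4.NoZero

/-!
# `KM` of a real-rooted sequence is a sum of rank one kernels

`b_k = [x^k] b_0 ∏ (1 + ρ_i x)`, `rc ρ i k = [x^k] b_0 ∏_{l ≠ i} (1 + ρ_l x)`:
`MH b j k = ∑_i ρ_i rc_i(j) rc_i(k)`.
-/

open Polynomial Finset

namespace B4

open Pool.Agent.H62LR

/-- roots indexed by `Fin n` -/
lemma exists_fin_roots {n : ℕ} {a : ℕ → ℝ} (ha : PF n a) :
    ∃ ρ : Fin n → ℝ, (∀ i, 0 < ρ i) ∧ poly n a = C (a 0) * ∏ i, (1 + C (ρ i) * X) := by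
  obtain ⟨m, hcard, hpos, hprod⟩ := ha.exists_roots
  obtain ⟨l, rfl⟩ := Quotient.exists_rep m
  have hl : l.length = n := hcard
  subst hl
  refine ⟨fun i => l.get i, fun i => hpos _ (List.get_mem l i), ?_⟩
  rw [hprod]
  congr 1
  show (Multiset.map (fun ρ => 1 + C ρ * X) (l : Multiset ℝ)).prod = _
  rw [Multiset.map_coe, Multiset.prod_coe]
  rw [← List.prod_ofFn]
  congr 1
  apply List.ext_get
  · simp
  · intro k h1 h2
    simp

/-- coefficients of the product without the factor `i` -/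
noncomputable def rc {n : ℕ} (c : ℝ) (ρ : Fin n → ℝ) (i : Fin n) (k : ℕ) : ℝ :=
  (C c * ∏ l ∈ univ.erase i, (1 + C (ρ l) * X)).coeff k

lemma coeff_prod_succ {n : ℕ} (c : ℝ) (ρ : Fin n → ℝ) (i : Fin n) (k : ℕ) :
    (C c * ∏ l, (1 + C (ρ l) * X)).coeff (k + 1) = rc c ρ i (k + 1) + ρ i * rc c ρ i k := by
  have h : (C c * ∏ l, (1 + C (ρ l) * X) : ℝ[X]) =
      C c * ∏ l ∈ univ.erase i, (1 + C (ρ l) * X) +
        C (ρ i) * (C c * ∏ l ∈ univ.erase i, (1 + C (ρ l) * X)) * X := by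
    rw [← Finset.mul_prod_erase univ _ (mem_univ i)]
    ring
  rw [h, coeff_add, coeff_mul_X, coeff_C_mul (a := ρ i)]
  rfl

lemma coeff_prod_zero {n : ℕ} (c : ℝ) (ρ : Fin n → ℝ) (i : Fin n) :
    (C c * ∏ l, (1 + C (ρ l) * X)).coeff 0 = rc c ρ i 0 := by
  have h : (C c * ∏ l, (1 + C (ρ l) * X) : ℝ[X]) =
      C c * ∏ l ∈ univ.erase i, (1 + C (ρ l) * X) +
        C (ρ i) * (C c * ∏ l ∈ univ.erase i, (1 + C (ρ l) * X)) * X := by
    rw [← Finset.mul_prod_erase univ _ (mem_univ i)]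
    ring
  rw [h, coeff_add, mul_coeff_zero _ X, coeff_X_zero, mul_zero, add_zero]
  rfl

/-- derivative: `(k+1) b_{k+1} = ∑ ρ_i rc_i(k)`. -/
lemma coeff_prod_deriv {n : ℕ} (c : ℝ) (ρ : Fin n → ℝ) (k : ℕ) :
    ((k : ℝ) + 1) * (C c * ∏ l, (1 + C (ρ l) * X)).coeff (k + 1) = ∑ i, ρ i * rc c ρ i k := by
  have h : derivative (C c * ∏ l, (1 + C (ρ l) * X) : ℝ[X]) =
      ∑ i, C (ρ i) * (C c * ∏ l ∈ univ.erase i, (1 + C (ρ l) * X)) := by
    rw [derivative_C_mul, derivative_prod_finset, Finset.mul_sum]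
    refine Finset.sum_congr rfl (fun i _ => ?_)
    have : derivative (1 + C (ρ i) * X : ℝ[X]) = C (ρ i) := by
      simp
    rw [this]
    ring
  have h1 := congrArg (fun q => q.coeff k) h
  beta_reduce at h1
  rw [coeff_derivative, finsetSum_coeff] at h1
  rw [mul_comm, h1]
  refine Finset.sum_congr rfl (fun i _ => ?_)
  rw [coeff_C_mul (a := ρ i)]
  rfl

/-- the rank one decomposition -/
theorem MH_eq_sum {n : ℕ} {b : ℕ → ℝ} {c : ℝ} {ρ : Fin n → ℝ}
    (hb : ∀ k, b k = (C c * ∏ l, (1 + C (ρ l) * X)).coeff k) (j k : ℕ) :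
    MH b j k = ∑ i, ρ i * (rc c ρ i j * rc c ρ i k) := by
  induction j generalizing k with
  | zero =>
    rw [MH_zero, hb 0, hb (k + 1)]
    have h := coeff_prod_deriv c ρ k
    calc ((k : ℝ) + 1) * ((C c * ∏ l, (1 + C (ρ l) * X)).coeff 0 *
          (C c * ∏ l, (1 + C (ρ l) * X)).coeff (k + 1))
        = (C c * ∏ l, (1 + C (ρ l) * X)).coeff 0 *
          (((k : ℝ) + 1) * (C c * ∏ l, (1 + C (ρ l) * X)).coeff (k + 1)) := by ring
      _ = _ := by
        rw [h, Finset.mul_sum]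
        refine Finset.sum_congr rfl (fun i _ => ?_)
        rw [coeff_prod_zero c ρ i]
        ring
  | succ j ih =>
    have h1 := MH_rec b j k
    have h2 := ih (k + 1)
    have hj := coeff_prod_deriv c ρ j
    have hk := coeff_prod_deriv c ρ k
    rw [← hb (j + 1)] at hj
    rw [← hb (k + 1)] at hk
    have h3 : ((k : ℝ) - j) * (b (j + 1) * b (k + 1)) =
        ∑ i, ρ i * (rc c ρ i (j + 1) * rc c ρ i k - rc c ρ i j * rc c ρ i (k + 1)) := by
      have h4 : ((k : ℝ) - j) * (b (j + 1) * b (k + 1)) =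
          b (j + 1) * (((k : ℝ) + 1) * b (k + 1)) - b (k + 1) * (((j : ℝ) + 1) * b (j + 1)) := by
        ring
      rw [h4, hk, hj, Finset.mul_sum, Finset.mul_sum, ← Finset.sum_sub_distrib]
      refine Finset.sum_congr rfl (fun i _ => ?_)
      rw [hb (j + 1), hb (k + 1), coeff_prod_succ c ρ i, coeff_prod_succ c ρ i]
      ring
    have h5 : MH b (j + 1) k = MH b j (k + 1) + ((k : ℝ) - j) * (b (j + 1) * b (k + 1)) := by
      linarith
    rw [h5, h2, h3, ← Finset.sum_add_distrib]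
    refine Finset.sum_congr rfl (fun i _ => ?_)
    ring

/-- all facts about a positive real-rooted sequence that vanishes beyond `n` -/
theorem exists_rc {n : ℕ} {b : ℕ → ℝ} (hb : PF n b) (h0 : ∀ k, n < k → b k = 0) :
    ∃ ρ : Fin n → ℝ, (∀ i, 0 < ρ i) ∧
      (∀ k, b k = (C (b 0) * ∏ l, (1 + C (ρ l) * X)).coeff k) := by
  obtain ⟨ρ, hρ, hprod⟩ := exists_fin_roots hb
  refine ⟨ρ, hρ, fun k => ?_⟩
  rw [← hprod, coeff_poly]
  split_ifs with h
  · rfl
  · exact h0 k (not_le.mp h)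

/-- positive semidefiniteness of `KM` -/
theorem KM_psd {n : ℕ} {b : ℕ → ℝ} (hb : PF n b) (h0 : ∀ k, n < k → b k = 0) (N : ℕ)
    (w : ℕ → ℝ) : 0 ≤ ∑ j ∈ range N, ∑ k ∈ range N, w j * w k * KM b j k := by
  obtain ⟨ρ, hρ, hbc⟩ := exists_rc hb h0
  have h1 : ∑ j ∈ range N, ∑ k ∈ range N, w j * w k * KM b j k =
      ∑ i, ρ i * (∑ j ∈ range N, w j * rc (b 0) ρ i j / b j) ^ 2 := by
    have h2 : ∀ i, ρ i * (∑ j ∈ range N, w j * rc (b 0) ρ i j / b j) ^ 2 =
        ∑ j ∈ range N, ∑ k ∈ range N, w j * w k * (ρ i * (rc (b 0) ρ i j * rc (b 0) ρ i k) /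
          (b j * b k)) := by
      intro i
      rw [sq, Finset.sum_mul_sum, Finset.mul_sum]
      refine Finset.sum_congr rfl (fun j _ => ?_)
      rw [Finset.mul_sum]
      refine Finset.sum_congr rfl (fun k _ => ?_)
      rw [div_mul_div_comm]
      ring
    simp only [h2]
    conv_rhs => rw [Finset.sum_comm]
    refine Finset.sum_congr rfl (fun j _ => ?_)
    conv_rhs => rw [Finset.sum_comm]
    refine Finset.sum_congr rfl (fun k _ => ?_)
    unfold KM
    rw [MH_eq_sum hbc, ← Finset.mul_sum, Finset.sum_div]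
  rw [h1]
  exact Finset.sum_nonneg (fun i _ => mul_nonneg (hρ i).le (sq_nonneg _))

/-- (bE) with `γ = 0`. -/
theorem hbE_zero {n p : ℕ} {a : ℕ → ℝ} (hb : PF n (fun i => a i ^ p))
    (h0 : ∀ k, n < k → a k ^ p = 0) : HbE a p n 0 := by
  intro w
  have h := KM_psd hb h0 n w
  refine h.trans_eq ?_
  refine Finset.sum_congr rfl (fun j _ => Finset.sum_congr rfl (fun k _ => ?_))
  ring

end B4
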