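import Mathlib
import Pool.Agent.B4.BO5
import Pool.Agent.B4.Alg
import Pool.Agent.B4.NoZero
import Pool.Agent.B4.KMSum

/-!
# (bO): `Z ≥ ∑ ρ D D'`, hence `M(i,k+1) + M(k,i+1) + t Z > 0` for `t > 1/2`
-/

open Polynomial Finset

namespace B4

/-! ### linearity of the Bezout form -/

lemma BZ_self (P : ℕ → ℝ) (j k : ℕ) : BZ P P j k = 0 := by
  unfold BZ
  apply Finset.sum_eq_zero
  intro i _
  ring

lemma BZ_sh_self (P : ℕ → ℝ) (k : ℕ) : ∀ j, BZ (sh P) P j k = P j * P k := by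
  induction k with
  | zero => intro j; rw [BZ_zero]; simp
  | succ k ih =>
    intro j
    rw [BZ_succ, ih (j + 1)]
    simp only [sh_succ]
    ring

lemma BZ_add_left (P P' Q : ℕ → ℝ) (j k : ℕ) :
    BZ (fun i => P i + P' i) Q j k = BZ P Q j k + BZ P' Q j k := by
  unfold BZ
  rw [← Finset.sum_add_distrib]
  exact Finset.sum_congr rfl (fun i _ => by ring)

lemma BZ_smul_left (a : ℝ) (P Q : ℕ → ℝ) (j k : ℕ) :
    BZ (fun i => a * P i) Q j k = a * BZ P Q j k := by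
  unfold BZ
  rw [Finset.mul_sum]
  exact Finset.sum_congr rfl (fun i _ => by ring)

lemma BZ_sum_right {ι : Type*} (s : Finset ι) (P : ℕ → ℝ) (r : ι → ℝ) (Q : ι → ℕ → ℝ) (j k : ℕ) :
    BZ P (fun i => ∑ l ∈ s, r l * Q l i) j k = ∑ l ∈ s, r l * BZ P (Q l) j k := by
  unfold BZ
  simp_rw [Finset.mul_sum]
  rw [Finset.sum_comm]
  refine Finset.sum_congr rfl (fun i _ => ?_)
  rw [← Finset.sum_sub_distrib]
  exact Finset.sum_congr rfl (fun l _ => by ring)

/-- `ZH` is the odd Bezout form -/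
lemma ZH_eq_BZ (b : ℕ → ℝ) (j k : ℕ) :
    ZH b j k = BZ (fun i => b i ^ 2) (fun i => b i * b (i + 1)) j k := by
  unfold ZH BZ
  have h2 : 2 * k + 2 = 2 * (k + 1) := by ring
  rw [h2, ← Finset.sum_neg_distrib]
  have h3 : ∀ (f : ℕ → ℝ) (K : ℕ), ∑ v ∈ range (2 * K), f v
      = ∑ i ∈ range K, (f (2 * i) + f (2 * i + 1)) := by
    intro f K
    induction K with
    | zero => simp
    | succ K ih =>
      have : 2 * (K + 1) = 2 * K + 1 + 1 := by ring
      rw [this, Finset.sum_range_succ, Finset.sum_range_succ, ih, Finset.sum_range_succ]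
      ring
  rw [h3]
  refine Finset.sum_congr rfl (fun i hi => ?_)
  have hi' := Finset.mem_range.1 hi
  have e1 : 2 * j + 2 * k + 3 - 2 * i = 2 * (j + k + 1 - i) + 1 := by omega
  have e2 : 2 * j + 2 * k + 3 - (2 * i + 1) = 2 * (j + k + 1 - i) := by omega
  rw [e1, e2, dbl_even, dbl_even, dbl_odd, dbl_odd]
  have e3 : (-1 : ℝ) ^ (2 * i) = 1 := by rw [pow_mul]; norm_num
  have e4 : (-1 : ℝ) ^ (2 * i + 1) = -1 := by rw [pow_succ, e3]; ring
  rw [e3, e4]
  ring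

section

variable {n : ℕ} (ρ : Fin n → ℝ)

/-- multiset of all roots -/
noncomputable def mu : Multiset ℝ := (univ : Finset (Fin n)).val.map ρ
/-- multiset of the roots without `l` -/
noncomputable def mul' (l : Fin n) : Multiset ℝ := ((univ : Finset (Fin n)).erase l).val.map ρ

lemma card_mu : Multiset.card (mu ρ) = n := by unfold mu; simp

lemma mu_cons (l : Fin n) : mu ρ = ρ l ::ₘ mul' ρ l := by
  unfold mu mul'
  rw [← Multiset.map_cons]
  congr 1
  rw [Finset.erase_val, Multiset.cons_erase (Finset.mem_univ_val l)]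

lemma card_mul' (l : Fin n) : Multiset.card (mul' ρ l) + 1 = n := by
  have h1 := congrArg Multiset.card (mu_cons ρ l)
  rw [card_mu, Multiset.card_cons] at h1
  exact h1.symm

lemma mu_pos (hρ : ∀ i, 0 < ρ i) : ∀ r ∈ mu ρ, 0 < r := by
  intro r hr
  obtain ⟨i, _, rfl⟩ := Multiset.mem_map.1 hr
  exact hρ i

lemma mul'_pos (hρ : ∀ i, 0 < ρ i) (l : Fin n) : ∀ r ∈ mul' ρ l, 0 < r := by
  intro r hr
  obtain ⟨i, _, rfl⟩ := Multiset.mem_map.1 hr
  exact hρ i

lemma cf_mu_succ (l : Fin n) (k : ℕ) :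
    cf (mu ρ) (k + 1) = cf (mul' ρ l) (k + 1) + ρ l * cf (mul' ρ l) k := by
  rw [mu_cons ρ l, cf_cons]

/-- `∑_l ρ_l c_l(k) = (k+1) b_{k+1}` -/
lemma sum_rho_cf (k : ℕ) :
    ∑ l, ρ l * cf (mul' ρ l) k = ((k : ℝ) + 1) * cf (mu ρ) (k + 1) := by
  have h := coeff_prod_deriv 1 ρ k
  have h1 : (C (1 : ℝ) * ∏ l, (1 + C (ρ l) * X)).coeff (k + 1) = cf (mu ρ) (k + 1) := by
    unfold cf mu
    rw [C_1, one_mul, Multiset.map_map]
    rfl
  have h2 : ∀ l, rc 1 ρ l k = cf (mul' ρ l) k := by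
    intro l
    unfold rc cf mul'
    rw [C_1, one_mul, Multiset.map_map]
    rfl
  rw [h1] at h
  rw [h]
  exact Finset.sum_congr rfl (fun l _ => by rw [h2])

/-- `∑_l c_l(k) = (n-k) b_k` -/
lemma sum_cf (k : ℕ) : ∑ l, cf (mul' ρ l) k = ((n : ℝ) - k) * cf (mu ρ) k := by
  rcases k with _ | k
  · simp [cf_zero]
  · have h1 : ∀ l, cf (mul' ρ l) (k + 1) = cf (mu ρ) (k + 1) - ρ l * cf (mul' ρ l) k := by
      intro l
      rw [cf_mu_succ ρ l k]; ring
    rw [Finset.sum_congr rfl (fun l _ => h1 l), Finset.sum_sub_distrib, sum_rho_cf]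
    simp
    ring

/-- `D_l(k) = c_l(k) b_{k+1} - c_l(k+1) b_k = ρ_l ell_l(k)` -/
lemma D_eq (l : Fin n) (k : ℕ) :
    cf (mul' ρ l) k * cf (mu ρ) (k + 1) - cf (mul' ρ l) (k + 1) * cf (mu ρ) k
      = ρ l * ell (mul' ρ l) k := by
  unfold ell
  rcases k with _ | k
  · rw [cf_mu_succ ρ l 0, cf_zero, cf_zero]
    simp
  · rw [cf_mu_succ ρ l (k + 1), cf_mu_succ ρ l k]
    simp only [sh_succ]
    ring

/-- `b_k b_{k+1} = ∑_l ρ_l ell_l(k)` -/
lemma o_eq (k : ℕ) : cf (mu ρ) k * cf (mu ρ) (k + 1) = ∑ l, ρ l * ell (mul' ρ l) k := by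
  rw [← Finset.sum_congr rfl (fun l _ => D_eq ρ l k), Finset.sum_sub_distrib, ← Finset.sum_mul,
    ← Finset.sum_mul, sum_cf, sum_cf]
  push_cast
  ring

/-- `b_k^2` in terms of the sequence without the root `l` -/
lemma e_eq (l : Fin n) (k : ℕ) :
    cf (mu ρ) k ^ 2 = ell (mul' ρ l) k + (ρ l ^ 2 * sh (ell (mul' ρ l)) k +
      (2 * ρ l * sh (O1 (mul' ρ l)) k + sh (fun i => cf (mu ρ) i * cf (mu ρ) (i + 2)) k)) := by
  rcases k with _ | k
  · unfold ell
    simp [cf_zero]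
  · simp only [sh_succ]
    unfold ell O1
    rcases k with _ | k
    · simp only [sh_succ, sh_zero, zero_add]
      rw [cf_mu_succ ρ l 0, cf_mu_succ ρ l 1]
      have h0 : cf (mu ρ) 0 = cf (mul' ρ l) 0 := by rw [cf_zero, cf_zero]
      rw [h0]
      norm_num
      ring
    · simp only [sh_succ]
      have e1 := cf_mu_succ ρ l (k + 1)
      have e2 := cf_mu_succ ρ l k
      have e3 := cf_mu_succ ρ l (k + 1 + 1)
      rw [show k + 1 + 2 = k + 1 + 1 + 1 from rfl, show k + 1 + 1 + 1 = k + 1 + 1 + 1 from rfl]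
      rw [e1, e3, e2]
      ring

/-- **Helper92's identity.** -/
lemma Z_identity (j k : ℕ) :
    BZ (fun i => cf (mu ρ) i ^ 2) (fun i => cf (mu ρ) i * cf (mu ρ) (i + 1)) j k
      = (∑ l, ρ l * (ρ l ^ 2 * (ell (mul' ρ l) j * ell (mul' ρ l) k)
        + 2 * ρ l * BZ (sh (O1 (mul' ρ l))) (ell (mul' ρ l)) j k))
        + BZ (sh (fun i => cf (mu ρ) i * cf (mu ρ) (i + 2)))
            (fun i => cf (mu ρ) i * cf (mu ρ) (i + 1)) j k := by
  have ho : (fun i => cf (mu ρ) i * cf (mu ρ) (i + 1))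
      = (fun i => ∑ l ∈ (univ : Finset (Fin n)), ρ l * ell (mul' ρ l) i) := by
    funext i
    exact o_eq ρ i
  rw [ho, BZ_sum_right, BZ_sum_right, ← Finset.sum_add_distrib]
  refine Finset.sum_congr rfl (fun l _ => ?_)
  have he : (fun i => cf (mu ρ) i ^ 2) = (fun i => ell (mul' ρ l) i +
      (ρ l ^ 2 * sh (ell (mul' ρ l)) i +
      (2 * ρ l * sh (O1 (mul' ρ l)) i +
        sh (fun i => cf (mu ρ) i * cf (mu ρ) (i + 2)) i))) := by
    funext i
    exact e_eq ρ l i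
  rw [he, BZ_add_left, BZ_add_left (fun i => ρ l ^ 2 * sh (ell (mul' ρ l)) i),
    BZ_add_left (fun i => 2 * ρ l * sh (O1 (mul' ρ l)) i), BZ_smul_left, BZ_smul_left, BZ_self,
    BZ_sh_self]
  ring

end

/-- quadratic form -/
noncomputable def qf (N : ℕ) (w : ℕ → ℝ) (K : ℕ → ℕ → ℝ) : ℝ :=
  ∑ j ∈ range N, ∑ k ∈ range N, w j * w k * K j k

lemma qf_congr {N : ℕ} {w : ℕ → ℝ} {K L : ℕ → ℕ → ℝ} (h : ∀ j < N, ∀ k < N, K j k = L j k) :
    qf N w K = qf N w L := by
  unfold qf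
  refine Finset.sum_congr rfl (fun j hj => Finset.sum_congr rfl (fun k hk => ?_))
  rw [h j (Finset.mem_range.1 hj) k (Finset.mem_range.1 hk)]

lemma qf_add (N : ℕ) (w : ℕ → ℝ) (K L : ℕ → ℕ → ℝ) :
    qf N w (fun j k => K j k + L j k) = qf N w K + qf N w L := by
  unfold qf
  rw [← Finset.sum_add_distrib]
  refine Finset.sum_congr rfl (fun j _ => ?_)
  rw [← Finset.sum_add_distrib]
  exact Finset.sum_congr rfl (fun k _ => by ring)

lemma qf_smul (N : ℕ) (w : ℕ → ℝ) (a : ℝ) (K : ℕ → ℕ → ℝ) :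
    qf N w (fun j k => a * K j k) = a * qf N w K := by
  unfold qf
  rw [Finset.mul_sum]
  refine Finset.sum_congr rfl (fun j _ => ?_)
  rw [Finset.mul_sum]
  exact Finset.sum_congr rfl (fun k _ => by ring)

lemma qf_sum {ι : Type*} (s : Finset ι) (N : ℕ) (w : ℕ → ℝ) (K : ι → ℕ → ℕ → ℝ) :
    qf N w (fun j k => ∑ l ∈ s, K l j k) = ∑ l ∈ s, qf N w (K l) := by
  classical
  induction s using Finset.induction_on with
  | empty => simp [qf]
  | insert a s ha ih =>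
    rw [Finset.sum_insert ha, ← ih, ← qf_add]
    apply qf_congr
    intro j _ k _
    rw [Finset.sum_insert ha]

lemma qf_rank (N : ℕ) (w : ℕ → ℝ) (u : ℕ → ℝ) :
    qf N w (fun j k => u j * u k) = (∑ j ∈ range N, w j * u j) ^ 2 := by
  unfold qf
  rw [sq, Finset.sum_mul_sum]
  exact Finset.sum_congr rfl (fun j _ => Finset.sum_congr rfl (fun k _ => by ring))

section

variable {n : ℕ} {ρ : Fin n → ℝ}

/-- `Z ≥ ∑ ρ D D'` -/
theorem Z_ge (hρ : ∀ i, 0 < ρ i) (N : ℕ) (w : ℕ → ℝ) :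
    ∑ l, ρ l * (∑ j ∈ range N, w j * (ρ l * ell (mul' ρ l) j)) ^ 2
      ≤ qf N w (BZ (fun i => cf (mu ρ) i ^ 2) (fun i => cf (mu ρ) i * cf (mu ρ) (i + 1))) := by
  rcases Nat.eq_zero_or_pos n with hn | hn
  · subst hn
    rw [Finset.univ_eq_empty, Finset.sum_empty]
    unfold qf
    apply le_of_eq
    symm
    apply Finset.sum_eq_zero
    intro j _
    apply Finset.sum_eq_zero
    intro k _
    rw [Z_identity]
    simp only [Finset.univ_eq_empty, Finset.sum_empty, zero_add]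
    have : ∀ i, cf (mu ρ) i * cf (mu ρ) (i + 1) = 0 := by
      intro i
      rw [cf_eq_zero (mu ρ) (k := i + 1) (by rw [card_mu]; omega), mul_zero]
    unfold BZ
    rw [Finset.sum_eq_zero]
    · ring
    · intro i _
      beta_reduce
      rw [this, this]
      ring
  obtain ⟨n', rfl⟩ : ∃ n', n = n' + 1 := ⟨n - 1, by omega⟩
  have h1 : qf N w (BZ (fun i => cf (mu ρ) i ^ 2) (fun i => cf (mu ρ) i * cf (mu ρ) (i + 1)))
      = (∑ l, ρ l * (ρ l ^ 2 * (∑ j ∈ range N, w j * ell (mul' ρ l) j) ^ 2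
        + 2 * ρ l * qf N w (BZ (sh (O1 (mul' ρ l))) (ell (mul' ρ l)))))
        + qf N w (BZ (sh (fun i => cf (mu ρ) i * cf (mu ρ) (i + 2)))
            (fun i => cf (mu ρ) i * cf (mu ρ) (i + 1))) := by
    rw [qf_congr (fun j _ k _ => Z_identity ρ j k), qf_add, qf_sum]
    congr 1
    refine Finset.sum_congr rfl (fun l _ => ?_)
    rw [qf_smul, qf_add, qf_smul, qf_smul, qf_rank]
  rw [h1]
  -- the even block of (C_1, C_2)
  have hA : 0 ≤ qf N w (BZ (sh (fun i => cf (mu ρ) i * cf (mu ρ) (i + 2)))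
            (fun i => cf (mu ρ) i * cf (mu ρ) (i + 1))) := by
    have h2 := hb_even (N := 2 * n') (h := ilv (fun k => cf (mu ρ) k * cf (mu ρ) (k + 1))
      (fun k => cf (mu ρ) k * cf (mu ρ) (k + 2))) (by
        rw [ilv_even]
        have h3 := cf_pos (mu ρ) (mu_pos ρ hρ)
        rw [card_mu] at h3
        exact (mul_pos (h3 n' (by omega)) (h3 (n' + 1) le_rfl)).ne')
      (ilv_eq_zero (fun k hk => by
        rw [cf_eq_zero (mu ρ) (k := k + 1) (by rw [card_mu]; omega), mul_zero]) (fun k hk => by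
        rw [cf_eq_zero (mu ρ) (k := k + 2) (by rw [card_mu]; omega), mul_zero]))
      (fun z hz => hur_A (card_mu ρ) (mu_pos ρ hρ) z hz) N w
    simp only [ilv_even, ilv_odd] at h2
    exact h2
  have hB : ∀ l, 0 ≤ qf N w (BZ (sh (O1 (mul' ρ l))) (ell (mul' ρ l))) := by
    intro l
    have hc := card_mul' ρ l
    have h2 := hb_even (N := 2 * Multiset.card (mul' ρ l)) (h := ilv (ell (mul' ρ l))
      (O1 (mul' ρ l))) (by
        rw [ilv_even]
        have h3 := cf_pos (mul' ρ l) (mul'_pos ρ hρ l) _ le_rfl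
        unfold ell
        rw [cf_eq_zero (mul' ρ l) (Nat.lt_succ_self _), mul_zero, sub_zero]
        exact (pow_pos h3 2).ne')
      (ilv_eq_zero (fun k hk => by
        unfold ell
        rw [cf_eq_zero (mul' ρ l) hk, cf_eq_zero (mul' ρ l) (k := k + 1) (by omega)]
        ring) (fun k hk => by
        unfold O1
        rw [cf_eq_zero (mul' ρ l) (k := k + 1) (by omega),
          cf_eq_zero (mul' ρ l) (k := k + 2) (by omega)]
        ring))
      (fun z hz => hur_B (mul'_pos ρ hρ l) z hz) N w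
    simp only [ilv_even, ilv_odd] at h2
    exact h2
  have h2 : ∑ l, ρ l * (∑ j ∈ range N, w j * (ρ l * ell (mul' ρ l) j)) ^ 2
      ≤ ∑ l, ρ l * (ρ l ^ 2 * (∑ j ∈ range N, w j * ell (mul' ρ l) j) ^ 2
        + 2 * ρ l * qf N w (BZ (sh (O1 (mul' ρ l))) (ell (mul' ρ l)))) := by
    apply Finset.sum_le_sum
    intro l _
    apply mul_le_mul_of_nonneg_left _ (hρ l).le
    have h3 : ∑ j ∈ range N, w j * (ρ l * ell (mul' ρ l) j)
        = ρ l * ∑ j ∈ range N, w j * ell (mul' ρ l) j := by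
      rw [Finset.mul_sum]
      exact Finset.sum_congr rfl (fun j _ => by ring)
    rw [h3, mul_pow]
    have h4 := mul_nonneg (mul_nonneg (by norm_num : (0 : ℝ) ≤ 2) (hρ l).le) (hB l)
    linarith
  linarith

/-- strict positivity of `Z` -/
theorem Z_pos (hρ : ∀ i, 0 < ρ i) (w : ℕ → ℝ) (hw : ∃ k < n, w k ≠ 0) :
    0 < qf n w (BZ (fun i => cf (mu ρ) i ^ 2) (fun i => cf (mu ρ) i * cf (mu ρ) (i + 1))) := by
  have h3 := cf_pos (mu ρ) (mu_pos ρ hρ)
  rw [card_mu] at h3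
  have h2 := hb_odd_pos (N := 2 * n) (h := ilv (fun k => cf (mu ρ) k ^ 2)
      (fun k => cf (mu ρ) k * cf (mu ρ) (k + 1))) (by
        rw [ilv_even]
        exact (pow_pos (h3 n le_rfl) 2).ne')
      (ilv_eq_zero (fun k hk => by
        rw [cf_eq_zero (mu ρ) (k := k) (by rw [card_mu]; omega)]; norm_num) (fun k hk => by
        rw [cf_eq_zero (mu ρ) (k := k + 1) (by rw [card_mu]; omega), mul_zero]))
      (fun z hz => by
        have h4 := hur_Z (mu_pos ρ hρ) z hz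
        rw [card_mu] at h4
        exact h4) n le_rfl w hw
  simp only [ilv_even, ilv_odd] at h2
  exact h2

/-- (bO) in terms of the normalised sequence -/
theorem bO_norm (hρ : ∀ i, 0 < ρ i) {t : ℝ} (ht : 1 / 2 < t) (w : ℕ → ℝ)
    (hw : ∃ k < n, w k ≠ 0) :
    0 < qf n w (fun i k => KM (cf (mu ρ)) i (k + 1) + KM (cf (mu ρ)) k (i + 1)
      + t * KZ (cf (mu ρ)) i k) := by
  set b := cf (mu ρ) with hb
  have hpos := cf_pos (mu ρ) (mu_pos ρ hρ)
  rw [card_mu] at hpos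
  set y : ℕ → ℝ := fun k => w k / (b k * b (k + 1)) with hy
  have hbc : ∀ k, b k = (C (1 : ℝ) * ∏ l, (1 + C (ρ l) * X)).coeff k := by
    intro k
    rw [hb]
    unfold cf mu
    rw [C_1, one_mul, Multiset.map_map]
    rfl
  have hrc : ∀ l k, rc 1 ρ l k = cf (mul' ρ l) k := by
    intro l k
    unfold rc cf mul'
    rw [C_1, one_mul, Multiset.map_map]
    rfl
  -- rewrite in terms of y
  have h1 : qf n w (fun i k => KM b i (k + 1) + KM b k (i + 1) + t * KZ b i k)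
      = qf n y (fun i k => (∑ l, (ρ l / 2) * ((cf (mul' ρ l) i * b (i + 1)
          + cf (mul' ρ l) (i + 1) * b i) * (cf (mul' ρ l) k * b (k + 1)
          + cf (mul' ρ l) (k + 1) * b k)))
        + (∑ l, (-(ρ l / 2)) * ((ρ l * ell (mul' ρ l) i) * (ρ l * ell (mul' ρ l) k)))
        + t * BZ (fun i => b i ^ 2) (fun i => b i * b (i + 1)) i k) := by
    unfold qf
    refine Finset.sum_congr rfl (fun i hi => Finset.sum_congr rfl (fun k hk => ?_))
    have hi' := Finset.mem_range.1 hi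
    have hk' := Finset.mem_range.1 hk
    have p1 := (hpos i (by omega)).ne'
    have p2 := (hpos (i + 1) (by omega)).ne'
    have p3 := (hpos k (by omega)).ne'
    have p4 := (hpos (k + 1) (by omega)).ne'
    rw [← hb] at p1 p2 p3 p4
    unfold KM KZ
    beta_reduce
    rw [ZH_eq_BZ, MH_eq_sum hbc, MH_eq_sum hbc]
    simp only [hrc]
    have h2 : (∑ l, (ρ l / 2) * ((cf (mul' ρ l) i * b (i + 1)
          + cf (mul' ρ l) (i + 1) * b i) * (cf (mul' ρ l) k * b (k + 1)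
          + cf (mul' ρ l) (k + 1) * b k)))
        + (∑ l, (-(ρ l / 2)) * ((ρ l * ell (mul' ρ l) i) * (ρ l * ell (mul' ρ l) k)))
        = b (i + 1) * b k * (∑ l, ρ l * (cf (mul' ρ l) i * cf (mul' ρ l) (k + 1)))
          + b (k + 1) * b i * (∑ l, ρ l * (cf (mul' ρ l) k * cf (mul' ρ l) (i + 1))) := by
      rw [← Finset.sum_add_distrib, Finset.mul_sum, Finset.mul_sum, ← Finset.sum_add_distrib]
      refine Finset.sum_congr rfl (fun l _ => ?_)
      rw [← D_eq, ← D_eq]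
      ring
    rw [h2, hy]
    field_simp
  rw [h1, qf_add, qf_add, qf_sum, qf_sum, qf_smul]
  have h3 : 0 ≤ ∑ l, qf n y (fun j k => (ρ l / 2) * ((cf (mul' ρ l) j * b (j + 1)
          + cf (mul' ρ l) (j + 1) * b j) * (cf (mul' ρ l) k * b (k + 1)
          + cf (mul' ρ l) (k + 1) * b k))) := by
    apply Finset.sum_nonneg
    intro l _
    rw [qf_smul, qf_rank n y (fun j => cf (mul' ρ l) j * b (j + 1)
          + cf (mul' ρ l) (j + 1) * b j)]
    exact mul_nonneg (by have := hρ l; linarith) (sq_nonneg _)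
  have h4 : ∑ l, qf n y (fun j k => (-(ρ l / 2)) * ((ρ l * ell (mul' ρ l) j) *
      (ρ l * ell (mul' ρ l) k)))
      = - (1 / 2) * ∑ l, ρ l * (∑ j ∈ range n, y j * (ρ l * ell (mul' ρ l) j)) ^ 2 := by
    rw [Finset.mul_sum]
    refine Finset.sum_congr rfl (fun l _ => ?_)
    rw [qf_smul, qf_rank n y (fun j => ρ l * ell (mul' ρ l) j)]
    ring
  rw [h4]
  have h5 := Z_ge hρ n y
  have h6 := Z_pos hρ y (by
    obtain ⟨k, hk, hwk⟩ := hw
    refine ⟨k, hk, ?_⟩
    simp only [hy]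
    exact div_ne_zero hwk (mul_pos (hpos k (by omega)) (hpos (k + 1) (by omega))).ne')
  rw [← hb] at h5 h6
  have h7 : 0 < (t - 1 / 2) * qf n y (BZ (fun i => b i ^ 2) (fun i => b i * b (i + 1))) :=
    mul_pos (by linarith) h6
  linarith

end

/-! ### scaling -/

lemma KM_smul (β : ℝ) (hβ : β ≠ 0) (b : ℕ → ℝ) (j k : ℕ) :
    KM (fun i => β * b i) j k = KM b j k := by
  unfold KM
  have h : MH (fun i => β * b i) j k = β ^ 2 * MH b j k := by
    unfold MH
    rw [Finset.mul_sum]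
    exact Finset.sum_congr rfl (fun v _ => by ring)
  rw [h]
  have e : β * b j * (β * b k) = β ^ 2 * (b j * b k) := by ring
  rw [e, mul_div_mul_left _ _ (pow_ne_zero 2 hβ)]

lemma KZ_smul (β : ℝ) (hβ : β ≠ 0) (b : ℕ → ℝ) (j k : ℕ) :
    KZ (fun i => β * b i) j k = KZ b j k := by
  unfold KZ
  have h : ZH (fun i => β * b i) j k = β ^ 4 * ZH b j k := by
    unfold ZH dbl
    rw [mul_neg, Finset.mul_sum]
    congr 1
    exact Finset.sum_congr rfl (fun v _ => by ring)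
  rw [h]
  have e : β * b j * (β * b (j + 1)) * (β * b k * (β * b (k + 1)))
      = β ^ 4 * (b j * b (j + 1) * (b k * b (k + 1))) := by ring
  rw [e, mul_div_mul_left _ _ (pow_ne_zero 4 hβ)]

/-- **(bO)** for a `PF` sequence `b` that vanishes beyond `n`. -/
theorem bO {n : ℕ} {b : ℕ → ℝ} (hb : Pool.Agent.H62LR.PF n b) (h0 : ∀ k, n < k → b k = 0)
    {t : ℝ} (ht : 1 / 2 < t) (w : ℕ → ℝ) (hw : ∃ k < n, w k ≠ 0) :
    0 < ∑ i ∈ range n, ∑ k ∈ range n, w i * w k *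
      (KM b i (k + 1) + KM b k (i + 1) + t * KZ b i k) := by
  obtain ⟨ρ, hρ, hbc⟩ := exists_rc hb h0
  have hb0 : b 0 ≠ 0 := (hb.1 0 (Nat.zero_le _)).ne'
  have hbe : b = fun i => b 0 * cf (mu ρ) i := by
    funext k
    rw [hbc k, coeff_C_mul]
    unfold cf mu
    rw [Multiset.map_map]
    rfl
  have h1 := bO_norm hρ ht w hw
  unfold qf at h1
  refine h1.trans_eq ?_
  refine Finset.sum_congr rfl (fun i _ => Finset.sum_congr rfl (fun k _ => ?_))
  have e1 : ∀ j k, KM b j k = KM (cf (mu ρ)) j k := by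
    intro j k
    conv_lhs => rw [hbe]
    exact KM_smul _ hb0 _ _ _
  have e2 : ∀ j k, KZ b j k = KZ (cf (mu ρ)) j k := by
    intro j k
    conv_lhs => rw [hbe]
    exact KZ_smul _ hb0 _ _ _
  rw [e1, e1, e2]

/-- (bO) in the form needed in `NoZero`, with `δ - γ > 1/4`. -/
theorem hbO {n p : ℕ} {a : ℕ → ℝ} (hb : Pool.Agent.H62LR.PF n (fun i => a i ^ p))
    (h0 : ∀ k, n < k → a k ^ p = 0) {δ γ : ℝ} (hd : 1 / 4 < δ - γ) : HbO a p n δ γ := by
  intro w hw
  exact bO hb h0 (t := 2 * (δ - γ)) (by linarith) w hw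

end B4
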