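import Mathlib
import Pool.Agent.H62LR.Basic

/-!
# Hurwitz homotopy

* `hz_lower`: lower bound for polynomials without zeros in the right half plane.
* `hurwitz_homotopy`: absence of imaginary zeros along a path keeps all zeros on the left.
* `pf_of_hurwitz`: the even part of a Hurwitz polynomial has only real zeros.
-/

open Polynomial Finset Filter Topology

namespace B4

open Pool.Agent.H62LR

/-- product formula for `ev`. -/
lemma ev_eq_prod {N : ℕ} {c : ℕ → ℝ} (hN : 0 < c N) :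
    ∃ m : Multiset ℂ, Multiset.card m = N ∧
      (∀ z : ℂ, ev N c z = (c N : ℂ) * (m.map (fun w => z - w)).prod) ∧
      (∀ w ∈ m, ev N c w = 0) := by
  set P : ℂ[X] := (poly N c).map (algebraMap ℝ ℂ) with hP
  have hdeg : P.natDegree = N := by
    rw [hP, natDegree_map, natDegree_poly hN.ne']
  have hev : ∀ z : ℂ, P.eval z = ev N c z := by
    intro z
    rw [hP, eval_map_algebraMap, aeval_poly]
  have hlc : P.leadingCoeff = (c N : ℂ) := by
    rw [leadingCoeff, hdeg, hP, coeff_map, coeff_poly, if_pos le_rfl]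
    rfl
  have hP0 : P ≠ 0 := by
    intro h
    rw [h, leadingCoeff_zero] at hlc
    exact hN.ne (by exact_mod_cast hlc)
  have hs : P.Splits := IsAlgClosed.splits P
  refine ⟨P.roots, ?_, fun z => ?_, fun w hw => ?_⟩
  · rw [← hs.natDegree_eq_card_roots, hdeg]
  · rw [← hev]
    conv_lhs => rw [hs.eq_prod_roots]
    rw [eval_mul, eval_C, hlc, eval_multiset_prod, Multiset.map_map]
    simp
  · rw [← hev]
    exact (mem_roots hP0).mp hw

/-- lower bound in the right half plane -/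
lemma hz_lower {N : ℕ} {c : ℕ → ℝ} (hN : 0 < c N)
    (h : ∀ z : ℂ, 0 < z.re → ev N c z ≠ 0) {z : ℂ} (hz : 0 < z.re) :
    c N * z.re ^ N ≤ ‖ev N c z‖ := by
  obtain ⟨m, hcard, hprod, hroot⟩ := ev_eq_prod hN
  have hre : ∀ w ∈ m, w.re ≤ 0 := fun w hw => by
    by_contra hc
    exact h w (not_le.mp hc) (hroot w hw)
  have h1 : ∀ m : Multiset ℂ, (∀ w ∈ m, w.re ≤ 0) →
      z.re ^ (Multiset.card m) ≤ ‖(m.map (fun w => z - w)).prod‖ := by
    intro m
    induction m using Multiset.induction_on with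
    | empty => intro _; simp
    | cons w m ih =>
      intro hw
      have h2 := ih (fun x hx => hw x (Multiset.mem_cons_of_mem hx))
      have h3 : z.re ≤ ‖z - w‖ := by
        refine le_trans ?_ ((le_abs_self _).trans (Complex.abs_re_le_norm _))
        rw [Complex.sub_re]
        have := hw w (Multiset.mem_cons_self _ _)
        linarith
      rw [Multiset.card_cons, Multiset.map_cons, Multiset.prod_cons, norm_mul, pow_succ,
        mul_comm (z.re ^ _)]
      exact mul_le_mul h3 h2 (by positivity) (norm_nonneg _)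
  rw [hprod, norm_mul, Complex.norm_real, Real.norm_of_nonneg hN.le]
  refine mul_le_mul_of_nonneg_left ?_ hN.le
  rw [← hcard]
  exact h1 m hre

/-- bound for the zeros -/
lemma zero_bound {N : ℕ} {c : ℕ → ℝ} (hN : 0 < c N) {z : ℂ} (hz : ev N c z = 0) :
    c N * ‖z‖ ≤ c N + ∑ k ∈ range N, |c k| := by
  have hS : 0 ≤ ∑ k ∈ range N, |c k| := Finset.sum_nonneg (fun k _ => abs_nonneg _)
  by_cases h1 : ‖z‖ ≤ 1
  · have := mul_le_mul_of_nonneg_left h1 hN.le
    linarith
  · have h1' : 1 < ‖z‖ := not_le.mp h1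
    have h2 : (c N : ℂ) * z ^ N = - ∑ k ∈ range N, (c k : ℂ) * z ^ k := by
      unfold ev at hz
      rw [Finset.sum_range_succ] at hz
      linear_combination hz
    have h3 : c N * ‖z‖ ^ N ≤ ∑ k ∈ range N, |c k| * ‖z‖ ^ k := by
      have h4 := congrArg norm h2
      rw [norm_neg, norm_mul, norm_pow, Complex.norm_real, Real.norm_of_nonneg hN.le] at h4
      rw [h4]
      refine (norm_sum_le _ _).trans (Finset.sum_le_sum (fun k _ => ?_))
      rw [norm_mul, norm_pow, Complex.norm_real, Real.norm_eq_abs]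
    have h5 : c N * ‖z‖ * ‖z‖ ^ N ≤ (∑ k ∈ range N, |c k|) * ‖z‖ ^ N := by
      have h6 : ‖z‖ * ∑ k ∈ range N, |c k| * ‖z‖ ^ k ≤ (∑ k ∈ range N, |c k|) * ‖z‖ ^ N := by
        rw [Finset.mul_sum, Finset.sum_mul]
        refine Finset.sum_le_sum (fun k hk => ?_)
        have hk' : k + 1 ≤ N := by simpa using hk
        have h7 : ‖z‖ ^ (k + 1) ≤ ‖z‖ ^ N := pow_le_pow_right₀ h1'.le hk'
        calc ‖z‖ * (|c k| * ‖z‖ ^ k) = |c k| * ‖z‖ ^ (k + 1) := by ring
          _ ≤ |c k| * ‖z‖ ^ N := mul_le_mul_of_nonneg_left h7 (abs_nonneg _)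
      calc c N * ‖z‖ * ‖z‖ ^ N = ‖z‖ * (c N * ‖z‖ ^ N) := by ring
        _ ≤ ‖z‖ * ∑ k ∈ range N, |c k| * ‖z‖ ^ k :=
            mul_le_mul_of_nonneg_left h3 (norm_nonneg _)
        _ ≤ _ := h6
    have h8 : 0 < ‖z‖ ^ N := pow_pos (by linarith) N
    have := le_of_mul_le_mul_right h5 h8
    linarith

/-- **Hurwitz homotopy.** -/
theorem hurwitz_homotopy {N : ℕ} (a : ℝ → ℕ → ℝ) {c d : ℝ}
    (hcont : ∀ k ≤ N, ContinuousOn (fun s => a s k) (Set.Icc c d))
    (hpos : ∀ s ∈ Set.Icc c d, 0 < a s N)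
    (h0 : ∀ z : ℂ, 0 < z.re → ev N (a c) z ≠ 0)
    (himag : ∀ s ∈ Set.Icc c d, ∀ z : ℂ, z.re = 0 → ev N (a s) z ≠ 0) :
    ∀ s ∈ Set.Icc c d, ∀ z : ℂ, 0 ≤ z.re → ev N (a s) z ≠ 0 := by
  rcases lt_or_ge d c with hdc | hcd
  · intro s hs
    exact absurd (hs.1.trans hs.2) (not_le.mpr hdc)
  have hc : c ∈ Set.Icc c d := ⟨le_rfl, hcd⟩
  -- uniform bound of the zeros
  obtain ⟨B, hB⟩ : ∃ B : ℝ, ∀ s ∈ Set.Icc c d, ∀ z : ℂ, ev N (a s) z = 0 → ‖z‖ ≤ B := by
    have hcB : ContinuousOn (fun s => (a s N + ∑ k ∈ range N, |a s k|) / a s N) (Set.Icc c d) := by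
      refine ContinuousOn.div ?_ (hcont N le_rfl) (fun s hs => (hpos s hs).ne')
      refine (hcont N le_rfl).add (continuousOn_finsetSum _ (fun k hk => ?_))
      exact (hcont k (by have := Finset.mem_range.mp hk; omega)).abs
    obtain ⟨B, hB⟩ := isCompact_Icc.exists_bound_of_continuousOn hcB
    refine ⟨B, fun s hs z hz => ?_⟩
    have h1 := zero_bound (hpos s hs) hz
    have h2 : ‖z‖ ≤ (a s N + ∑ k ∈ range N, |a s k|) / a s N := by
      rw [le_div_iff₀ (hpos s hs), mul_comm]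
      exact h1
    exact h2.trans ((le_abs_self _).trans (hB s hs))
  set K : Set ℂ := Metric.closedBall (0 : ℂ) B ∩ {z | 0 ≤ z.re} with hK
  have hKc : IsCompact K := (isCompact_closedBall _ _).inter_right
    (isClosed_le continuous_const Complex.continuous_re)
  have hf : ContinuousOn (fun q : ℝ × ℂ => ev N (a q.1) q.2) (Set.Icc c d ×ˢ K) := by
    unfold ev
    refine continuousOn_finsetSum _ (fun k hk => ?_)
    have hk' : k ≤ N := by simpa [Nat.lt_succ_iff] using hk
    have h1 : ContinuousOn (fun q : ℝ × ℂ => a q.1 k) (Set.Icc c d ×ˢ K) :=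
      (hcont k hk').comp continuousOn_fst (fun q hq => hq.1)
    exact (Complex.continuous_ofReal.comp_continuousOn h1).mul
      (continuousOn_snd.pow k)
  set W : Set (ℝ × ℂ) := (Set.Icc c d ×ˢ K) ∩ (fun q : ℝ × ℂ => ev N (a q.1) q.2) ⁻¹' {0} with hW
  have hWc : IsCompact W := by
    have hcl : IsClosed W := hf.preimage_isClosed_of_isClosed
      (isClosed_Icc.prod hKc.isClosed) isClosed_singleton
    exact (isCompact_Icc.prod hKc).of_isClosed_subset hcl Set.inter_subset_left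
  have hproj : IsClosed (Prod.fst '' W) := (hWc.image continuous_fst).isClosed
  set S : Set ℝ := (Prod.fst '' W)ᶜ with hS
  have hmemS : ∀ s ∈ Set.Icc c d, s ∈ S ↔ ∀ z : ℂ, 0 ≤ z.re → ev N (a s) z ≠ 0 := by
    intro s hs
    constructor
    · intro h z hz h1
      apply h
      refine ⟨(s, z), ⟨⟨hs, ?_, hz⟩, h1⟩, rfl⟩
      rw [Metric.mem_closedBall, dist_zero_right]
      exact hB s hs z h1
    · rintro h ⟨⟨s', z⟩, ⟨⟨_, _, hz⟩, h1⟩, rfl⟩
      exact h z hz h1
  suffices h : Set.Icc c d ⊆ S from fun s hs => (hmemS s hs).mp (h hs)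
  refine IsClosed.Icc_subset_of_forall_mem_nhdsWithin ?_ ?_ ?_
  · have hcz : ∀ z : ℂ, ContinuousOn (fun s => ‖ev N (a s) z‖ - a s N * z.re ^ N)
        (Set.Icc c d) := by
      intro z
      refine ContinuousOn.sub (ContinuousOn.norm ?_) ((hcont N le_rfl).mul continuousOn_const)
      unfold ev
      refine continuousOn_finsetSum _ (fun k hk => ?_)
      have hk' : k ≤ N := by simpa [Nat.lt_succ_iff] using hk
      exact (Complex.continuous_ofReal.comp_continuousOn (hcont k hk')).mul continuousOn_const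
    have e : S ∩ Set.Icc c d = ⋂ z : {z : ℂ // 0 < z.re},
        (Set.Icc c d ∩ (fun s => ‖ev N (a s) z.1‖ - a s N * z.1.re ^ N) ⁻¹' (Set.Ici 0)) := by
      ext s
      simp only [Set.mem_inter_iff, Set.mem_iInter, Set.mem_preimage, Set.mem_Ici, sub_nonneg]
      constructor
      · rintro ⟨h1, h2⟩ z
        exact ⟨h2, hz_lower (hpos s h2) (fun z hz => (hmemS s h2).mp h1 z hz.le) z.2⟩
      · intro h
        have hs := (h ⟨1, by simp⟩).1
        refine ⟨(hmemS s hs).mpr (fun z hz h1 => ?_), hs⟩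
        rcases hz.eq_or_lt with hz | hz
        · exact himag s hs z hz.symm h1
        have h2 := (h ⟨z, hz⟩).2
        rw [h1, norm_zero] at h2
        have h3 := mul_pos (hpos s hs) (pow_pos hz N)
        exact absurd h2 (not_le.2 h3)
    rw [e]
    exact isClosed_iInter (fun z => (hcz z.1).preimage_isClosed_of_isClosed isClosed_Icc
      isClosed_Ici)
  · rw [hmemS c hc]
    intro z hz
    rcases hz.eq_or_lt with hz | hz
    · exact himag c hc z hz.symm
    · exact h0 z hz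
  · rintro s0 ⟨hs0, _⟩
    exact mem_nhdsWithin_of_mem_nhds (hproj.isOpen_compl.mem_nhds hs0)

/-- even part: `H z + H (-z) = 2 E(z^2)`. -/
lemma ev_even (n : ℕ) (c : ℕ → ℝ) (z : ℂ) :
    ev (2 * n) c z + ev (2 * n) c (-z) = 2 * ev n (fun k => c (2 * k)) (z ^ 2) := by
  unfold ev
  induction n with
  | zero => simp; ring
  | succ n ih =>
    have e1 : 2 * (n + 1) + 1 = (2 * n + 1) + 1 + 1 := by ring
    rw [e1, Finset.sum_range_succ, Finset.sum_range_succ, Finset.sum_range_succ (n := 2 * n + 1 + 1),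
      Finset.sum_range_succ (n := 2 * n + 1), Finset.sum_range_succ (n := n + 1)]
    have e2 : (-z) ^ (2 * n + 1) = - z ^ (2 * n + 1) := by
      rw [Odd.neg_pow ⟨n, rfl⟩]
    have e3 : (-z) ^ (2 * n + 1 + 1) = z ^ (2 * n + 1 + 1) := by
      rw [Even.neg_pow ⟨n + 1, by ring⟩]
    have e4 : (z ^ 2) ^ (n + 1) = z ^ (2 * n + 1 + 1) := by
      rw [← pow_mul]; congr 1
    have e5 : 2 * (n + 1) = 2 * n + 1 + 1 := by ring
    rw [mul_add, ← ih, e2, e3, e4]
    beta_reduce
    rw [e5]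
    ring

/-- For a Hurwitz polynomial of degree at least one, `|H(-z)| < |H(z)|` in the right half plane. -/
lemma refl_lt {N : ℕ} {c : ℕ → ℝ} (hN : 0 < c N) (hN1 : 0 < N)
    (h : ∀ z : ℂ, 0 ≤ z.re → ev N c z ≠ 0) {z : ℂ} (hz : 0 < z.re) :
    ‖ev N c (-z)‖ < ‖ev N c z‖ := by
  obtain ⟨m, hcard, hprod, hroot⟩ := ev_eq_prod hN
  have hre : ∀ w ∈ m, w.re < 0 := fun w hw => by
    by_contra hc
    exact h w (not_lt.mp hc) (hroot w hw)
  have hconj : ‖ev N c (-z)‖ = ‖ev N c (-(starRingEnd ℂ) z)‖ := by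
    have h1 := ev_conj N c (-z)
    rw [map_neg] at h1
    rw [h1, RCLike.norm_conj]
  have hstep : ∀ w : ℂ, w.re < 0 → ‖-(starRingEnd ℂ) z - w‖ < ‖z - w‖ := by
    intro w hw
    rw [← sq_lt_sq₀ (norm_nonneg _) (norm_nonneg _), ← Complex.normSq_eq_norm_sq,
      ← Complex.normSq_eq_norm_sq, Complex.normSq_apply, Complex.normSq_apply]
    simp only [Complex.sub_re, Complex.neg_re, Complex.conj_re, Complex.sub_im, Complex.neg_im,
      Complex.conj_im, neg_neg]
    nlinarith [mul_neg_of_pos_of_neg hz hw]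
  have h1 : ∀ m : Multiset ℂ, (∀ w ∈ m, w.re < 0) →
      ‖(m.map (fun w => -(starRingEnd ℂ) z - w)).prod‖ ≤ ‖(m.map (fun w => z - w)).prod‖ ∧
      (0 < Multiset.card m →
      ‖(m.map (fun w => -(starRingEnd ℂ) z - w)).prod‖ < ‖(m.map (fun w => z - w)).prod‖) := by
    intro m
    induction m using Multiset.induction_on with
    | empty => intro _; simp
    | cons w m ih =>
      intro hw
      obtain ⟨h2, -⟩ := ih (fun x hx => hw x (Multiset.mem_cons_of_mem hx))
      have h3 := hstep w (hw w (Multiset.mem_cons_self _ _))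
      have h4 : 0 < ‖(m.map (fun w => z - w)).prod‖ := by
        rw [norm_pos_iff]
        intro h5
        rw [Multiset.prod_eq_zero_iff, Multiset.mem_map] at h5
        obtain ⟨x, hx, hx0⟩ := h5
        have h6 : z = x := by linear_combination hx0
        have h7 := hw x (Multiset.mem_cons_of_mem hx)
        rw [← h6] at h7
        linarith
      rw [Multiset.map_cons, Multiset.prod_cons, norm_mul, Multiset.map_cons, Multiset.prod_cons,
        norm_mul]
      have h8 : ‖-(starRingEnd ℂ) z - w‖ * ‖(m.map (fun w => -(starRingEnd ℂ) z - w)).prod‖ <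
          ‖z - w‖ * ‖(m.map (fun w => z - w)).prod‖ :=
        (mul_le_mul_of_nonneg_left h2 (norm_nonneg _)).trans_lt (mul_lt_mul_of_pos_right h3 h4)
      exact ⟨h8.le, fun _ => h8⟩
  have h2 := (h1 m hre).2 (by rw [hcard]; exact hN1)
  rw [hconj, hprod, hprod, norm_mul, norm_mul]
  refine mul_lt_mul_of_pos_left h2 ?_
  rw [norm_pos_iff]
  exact_mod_cast hN.ne'

/-- The even part of a Hurwitz polynomial has only real zeros. -/
theorem pf_of_hurwitz {n : ℕ} {c : ℕ → ℝ} (hpos : ∀ k ≤ n, 0 < c (2 * k))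
    (h : ∀ z : ℂ, 0 ≤ z.re → ev (2 * n) c z ≠ 0) : PF n (fun k => c (2 * k)) := by
  refine ⟨hpos, fun ζ hζ h0 => ?_⟩
  rcases Nat.eq_zero_or_pos n with hn | hn
  · subst hn
    have h1 := hpos 0 le_rfl
    unfold ev at h0
    simp at h0
    rw [mul_zero] at h1
    exact h1.ne' h0
  -- a square root in the right half plane
  obtain ⟨z, hz, hzz⟩ : ∃ z : ℂ, 0 < z.re ∧ z ^ 2 = ζ := by
    obtain ⟨z, hz⟩ : ∃ z : ℂ, z ^ 2 = ζ := IsAlgClosed.exists_pow_nat_eq ζ (by norm_num)
    rcases lt_trichotomy z.re 0 with h1 | h1 | h1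
    · exact ⟨-z, by simpa using h1, by rw [neg_sq]; exact hz⟩
    · exfalso
      have h2 : ζ.im = 0 := by
        rw [← hz, sq, Complex.mul_im, h1]
        ring
      exact hζ.ne' h2
    · exact ⟨z, h1, hz⟩
  have h1 := refl_lt (hpos n le_rfl) (by omega) h hz
  have h2 := ev_even n c z
  rw [hzz, h0, mul_zero] at h2
  have h3 : ev (2 * n) c (-z) = - ev (2 * n) c z := by linear_combination h2
  rw [h3, norm_neg] at h1
  exact lt_irrefl _ h1

/-- no imaginary zeros from no common zeros of the even and the odd part. -/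
lemma ev_imag (n : ℕ) (c : ℕ → ℝ) (y : ℝ) :
    ev (2 * n) c (y * Complex.I) =
      ((∑ k ∈ range (n + 1), (-(y ^ 2)) ^ k * c (2 * k) : ℝ) : ℂ) +
        ((y * ∑ k ∈ range n, (-(y ^ 2)) ^ k * c (2 * k + 1) : ℝ) : ℂ) * Complex.I := by
  unfold ev
  have hI : ∀ k : ℕ, ((y : ℂ) * Complex.I) ^ (2 * k) = (-((y : ℂ) ^ 2)) ^ k := by
    intro k
    rw [pow_mul, mul_pow, Complex.I_sq]
    ring_nf
  induction n with
  | zero => simp
  | succ n ih =>
    have e1 : 2 * (n + 1) + 1 = (2 * n + 1) + 1 + 1 := by ring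
    have e5 : 2 * (n + 1) = 2 * n + 1 + 1 := by ring
    rw [e1, Finset.sum_range_succ, Finset.sum_range_succ, ih,
      Finset.sum_range_succ (n := n + 1), Finset.sum_range_succ (n := n)
        (f := fun k => (-(y ^ 2)) ^ k * c (2 * k + 1))]
    have h1 : ((y : ℂ) * Complex.I) ^ (2 * n + 1) = (-((y : ℂ) ^ 2)) ^ n * (y * Complex.I) := by
      rw [pow_succ, hI]
    have h2 : ((y : ℂ) * Complex.I) ^ (2 * n + 1 + 1) = (-((y : ℂ) ^ 2)) ^ (n + 1) := by
      rw [← e5, hI]
    rw [h1, h2, e5]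
    push_cast
    ring

end B4
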