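import Mathlib
import Pool.Agent.H62LR.Basic

/-!
# The start of the homotopy

For `b` in `PF n` the polynomial `∑ b_k^2 z^{2k} + b_k b_{k+1} z^{2k+1}` has no zeros in the open
right half plane: it is the coefficient of `u^{n+1}` in a polynomial of degree `2n+1` in `u` all of
whose zeros lie in the open left half plane, so that Gauss–Lucas applies.
-/

open Polynomial Finset

namespace B4

open Pool.Agent.H62LR

/-- all zeros in the open left half plane -/
def LeftZ (Q : ℂ[X]) : Prop := Q ≠ 0 ∧ ∀ u : ℂ, Q.eval u = 0 → u.re < 0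

lemma LeftZ.deriv' {Q : ℂ[X]} (hQ : LeftZ Q) (hd : 0 < Q.natDegree) :
    LeftZ (Polynomial.derivative Q) := by
  have hdeg : 0 < Q.degree := natDegree_pos_iff_degree_pos.mp hd
  have h0 : Polynomial.derivative Q ≠ 0 := by
    intro h
    have := derivative_eq_zero.mp h
    omega
  refine ⟨h0, fun u hu => ?_⟩
  have h1 : u ∈ (Polynomial.derivative Q).rootSet ℂ := by
    rw [mem_rootSet]
    exact ⟨h0, by simpa [aeval_def] using hu⟩
  have h2 := rootSet_derivative_subset_convexHull_rootSet hdeg h1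
  have h3 : convexHull ℝ (Q.rootSet ℂ) ⊆ {w : ℂ | w.re < 0} := by
    refine convexHull_min (fun w hw => ?_) ?_
    · rw [mem_rootSet] at hw
      exact hQ.2 w (by simpa [aeval_def] using hw.2)
    · exact convex_halfSpace_re_lt 0
  exact h3 h2

lemma LeftZ.coeff_ne : ∀ (k : ℕ) {Q : ℂ[X]}, LeftZ Q → k ≤ Q.natDegree → Q.coeff k ≠ 0 := by
  intro k
  induction k with
  | zero =>
    intro Q hQ _ h
    have := hQ.2 0 (by rw [← coeff_zero_eq_eval_zero]; exact h)
    simp at this
  | succ k ih =>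
    intro Q hQ hk h
    have hd : 0 < Q.natDegree := by omega
    refine ih (hQ.deriv' hd) ?_ ?_
    · rw [natDegree_derivative]
      omega
    · rw [coeff_derivative, h, zero_mul]

lemma LeftZ.mul {P Q : ℂ[X]} (hP : LeftZ P) (hQ : LeftZ Q) : LeftZ (P * Q) := by
  refine ⟨mul_ne_zero hP.1 hQ.1, fun u hu => ?_⟩
  rw [eval_mul, mul_eq_zero] at hu
  rcases hu with h | h
  · exact hP.2 u h
  · exact hQ.2 u h

/-- `∑ b_k z^k u^k` -/
noncomputable def pA (n : ℕ) (b : ℕ → ℝ) (z : ℂ) : ℂ[X] :=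
  ∑ k ∈ range (n + 1), monomial k ((b k : ℂ) * z ^ k)

/-- `∑ b_k z^k u^{n-k}` -/
noncomputable def pB (n : ℕ) (b : ℕ → ℝ) (z : ℂ) : ℂ[X] :=
  ∑ k ∈ range (n + 1), monomial (n - k) ((b k : ℂ) * z ^ k)

lemma pA_eval (n : ℕ) (b : ℕ → ℝ) (z u : ℂ) : (pA n b z).eval u = ev n b (z * u) := by
  unfold pA ev
  rw [eval_finsetSum]
  refine Finset.sum_congr rfl (fun k _ => ?_)
  rw [eval_monomial, mul_pow]
  ring

lemma pB_eval (n : ℕ) (b : ℕ → ℝ) (z u : ℂ) (hu : u ≠ 0) :
    (pB n b z).eval u = u ^ n * ev n b (z / u) := by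
  unfold pB ev
  rw [eval_finsetSum, Finset.mul_sum]
  refine Finset.sum_congr rfl (fun k hk => ?_)
  have hk' : k ≤ n := by simpa [Nat.lt_succ_iff] using hk
  rw [eval_monomial, div_pow]
  have h1 : u ^ n = u ^ (n - k) * u ^ k := by rw [← pow_add]; congr 1; omega
  rw [h1]
  have : u ^ k ≠ 0 := pow_ne_zero _ hu
  field_simp

lemma ev_zero_neg {n : ℕ} {b : ℕ → ℝ} (hb : PF n b) {w : ℂ} (h : ev n b w = 0) :
    ∃ s : ℝ, 0 < s ∧ w = -(s : ℂ) := by
  have him : w.im = 0 := by
    by_contra hc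
    exact hb.ne_zero hc h
  have hw : w = (w.re : ℂ) := by apply Complex.ext <;> simp [him]
  refine ⟨-w.re, ?_, by rw [hw]; simp⟩
  by_contra hc
  have hre : 0 ≤ w.re := by linarith
  have h1 : ev n b w = ((∑ k ∈ range (n + 1), b k * w.re ^ k : ℝ) : ℂ) := by
    rw [hw]
    unfold ev
    push_cast
    simp
  rw [h1] at h
  have h2 : ∑ k ∈ range (n + 1), b k * w.re ^ k = 0 := by exact_mod_cast h
  have h3 : 0 < ∑ k ∈ range (n + 1), b k * w.re ^ k := by
    rw [Finset.sum_range_succ']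
    have h4 : 0 ≤ ∑ k ∈ range n, b (k + 1) * w.re ^ (k + 1) :=
      Finset.sum_nonneg (fun k hk => mul_nonneg (hb.1 _ (by have := Finset.mem_range.mp hk; omega)).le
        (pow_nonneg hre _))
    have h5 := hb.1 0 (Nat.zero_le _)
    simp only [pow_zero, mul_one]
    linarith
  linarith

lemma pA_left {n : ℕ} {b : ℕ → ℝ} (hb : PF n b) {z : ℂ} (hz : 0 < z.re) : LeftZ (pA n b z) := by
  have hz0 : z ≠ 0 := fun h => by rw [h] at hz; simp at hz
  have h0 : (pA n b z).eval 0 ≠ 0 := by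
    rw [pA_eval, mul_zero]
    intro h
    obtain ⟨s, hs, hs'⟩ := ev_zero_neg hb h
    have : (s : ℂ) = 0 := by linear_combination hs'
    exact hs.ne' (by exact_mod_cast this)
  refine ⟨fun h => h0 (by rw [h]; simp), fun u hu => ?_⟩
  rw [pA_eval] at hu
  obtain ⟨s, hs, hs'⟩ := ev_zero_neg hb hu
  have hu' : u = -(s : ℂ) / z := by rw [eq_div_iff hz0]; linear_combination hs'
  rw [hu', Complex.div_re]
  have hn : 0 < Complex.normSq z := Complex.normSq_pos.mpr hz0
  simp only [Complex.neg_re, Complex.ofReal_re, Complex.neg_im, Complex.ofReal_im, neg_zero,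
    zero_mul, zero_div, add_zero]
  rw [div_neg_iff]
  right
  exact ⟨by nlinarith, hn⟩

lemma pB_left {n : ℕ} {b : ℕ → ℝ} (hb : PF n b) {z : ℂ} (hz : 0 < z.re) : LeftZ (pB n b z) := by
  have hz0 : z ≠ 0 := fun h => by rw [h] at hz; simp at hz
  have h0 : (pB n b z).eval 0 ≠ 0 := by
    unfold pB
    rw [eval_finsetSum, Finset.sum_range_succ]
    have h1 : ∑ k ∈ range n, (monomial (n - k) ((b k : ℂ) * z ^ k)).eval 0 = 0 := by
      refine Finset.sum_eq_zero (fun k hk => ?_)
      have := Finset.mem_range.mp hk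
      rw [eval_monomial, zero_pow (by omega), mul_zero]
    rw [h1, eval_monomial, zero_add, Nat.sub_self, pow_zero, mul_one]
    refine mul_ne_zero ?_ (pow_ne_zero _ hz0)
    exact_mod_cast (hb.1 n le_rfl).ne'
  refine ⟨fun h => h0 (by rw [h]; simp), fun u hu => ?_⟩
  by_cases hu0 : u = 0
  · rw [hu0] at hu; exact absurd hu h0
  rw [pB_eval n b z u hu0, mul_eq_zero] at hu
  have hu1 : ev n b (z / u) = 0 := by
    rcases hu with h | h
    · exact absurd h (pow_ne_zero _ hu0)
    · exact h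
  obtain ⟨s, hs, hs'⟩ := ev_zero_neg hb hu1
  have hs0 : (s : ℂ) ≠ 0 := by exact_mod_cast hs.ne'
  have hu' : z = -(s : ℂ) * u := by rw [← hs']; field_simp
  have : z.re = -s * u.re := by rw [hu']; simp
  nlinarith

lemma pA_coeff (n : ℕ) (b : ℕ → ℝ) (z : ℂ) (i : ℕ) :
    (pA n b z).coeff i = if i ≤ n then (b i : ℂ) * z ^ i else 0 := by
  unfold pA
  rw [finsetSum_coeff]
  simp only [coeff_monomial]
  rw [Finset.sum_ite_eq']
  simp

lemma pB_coeff (n : ℕ) (b : ℕ → ℝ) (z : ℂ) (i : ℕ) :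
    (pB n b z).coeff i = if i ≤ n then (b (n - i) : ℂ) * z ^ (n - i) else 0 := by
  unfold pB
  rw [finsetSum_coeff]
  simp only [coeff_monomial]
  split_ifs with h
  · rw [Finset.sum_eq_single (n - i)]
    · rw [if_pos (by omega)]
    · intro k hk hne
      have := Finset.mem_range.mp hk
      rw [if_neg (by omega)]
    · intro hc
      exact absurd (Finset.mem_range.mpr (by omega)) hc
  · refine Finset.sum_eq_zero (fun k _ => ?_)
    rw [if_neg (by omega)]

lemma mul_coeff (n s : ℕ) (b : ℕ → ℝ) (z : ℂ) :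
    (pA n b z * pB n b z).coeff (n + s) =
      ∑ k ∈ range (n + 1), if k + s ≤ n then
        ((b k * b (k + s) : ℝ) : ℂ) * z ^ (2 * k + s) else 0 := by
  rw [coeff_mul, Finset.Nat.sum_antidiagonal_eq_sum_range_succ_mk]
  have e : (n + s).succ = s + (n + 1) := by omega
  rw [e, Finset.sum_range_add]
  have h0 : ∑ i ∈ range s, (pA n b z).coeff (i, n + s - i).1 * (pB n b z).coeff (i, n + s - i).2 = 0 := by
    refine Finset.sum_eq_zero (fun i hi => ?_)
    have := Finset.mem_range.mp hi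
    rw [pB_coeff, if_neg (by show ¬ (n + s - i ≤ n); omega), mul_zero]
  rw [h0, zero_add]
  refine Finset.sum_congr rfl (fun k hk => ?_)
  have hk' : k ≤ n := by simpa [Nat.lt_succ_iff] using hk
  show (pA n b z).coeff (s + k) * (pB n b z).coeff (n + s - (s + k)) = _
  rw [pA_coeff, pB_coeff, if_pos (by omega : n + s - (s + k) ≤ n)]
  have e2 : n - (n + s - (s + k)) = k := by omega
  rw [e2]
  by_cases h : k + s ≤ n
  · rw [if_pos (by omega), if_pos h, add_comm s k]
    push_cast
    ring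
  · rw [if_neg (by omega), if_neg h, zero_mul]

lemma ev_split (n : ℕ) (c : ℕ → ℝ) (z : ℂ) :
    ev (2 * n) c z = ∑ k ∈ range (n + 1), (c (2 * k) : ℂ) * z ^ (2 * k) +
      ∑ k ∈ range n, (c (2 * k + 1) : ℂ) * z ^ (2 * k + 1) := by
  unfold ev
  induction n with
  | zero => simp
  | succ n ih =>
    have e1 : 2 * (n + 1) + 1 = (2 * n + 1) + 1 + 1 := by ring
    rw [e1, Finset.sum_range_succ, Finset.sum_range_succ, ih,
      Finset.sum_range_succ (n := n + 1), Finset.sum_range_succ (n := n)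
        (f := fun k => (c (2 * k + 1) : ℂ) * z ^ (2 * k + 1))]
    have e5 : 2 * (n + 1) = 2 * n + 1 + 1 := by ring
    rw [e5]
    ring

/-- **The start of the homotopy.** -/
theorem start {n : ℕ} {b : ℕ → ℝ} (hb : PF n b) {z : ℂ} (hz : 0 < z.re) :
    ev (2 * n) (fun m => b (m / 2) * b ((m + 1) / 2)) z ≠ 0 := by
  have hz0 : z ≠ 0 := fun h => by rw [h] at hz; simp at hz
  have hL : LeftZ (X + C 1 : ℂ[X]) := by
    refine ⟨X_add_C_ne_zero 1, fun u hu => ?_⟩
    rw [eval_add, eval_X, eval_C] at hu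
    have : u = -1 := by linear_combination hu
    rw [this]; simp
  have hAB := (pA_left hb hz).mul (pB_left hb hz)
  -- the degree of the product
  have hc2 : (pA n b z * pB n b z).coeff (n + n) ≠ 0 := by
    rw [mul_coeff]
    rw [Finset.sum_eq_single 0]
    · rw [if_pos (by omega)]
      refine mul_ne_zero ?_ (pow_ne_zero _ hz0)
      have := mul_pos (hb.1 0 (Nat.zero_le _)) (hb.1 n le_rfl)
      rw [zero_add]
      exact_mod_cast this.ne'
    · intro k _ hk
      rw [if_neg (by omega)]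
    · intro h
      simp at h
  have hdeg : n + n ≤ (pA n b z * pB n b z).natDegree := le_natDegree_of_ne_zero hc2
  have hQ := hL.mul hAB
  have hdegQ : n + 1 ≤ ((X + C 1) * (pA n b z * pB n b z)).natDegree := by
    rw [natDegree_mul hL.1 hAB.1, natDegree_X_add_C]
    omega
  have h := hQ.coeff_ne (n + 1) hdegQ
  rw [add_mul, coeff_add, coeff_X_mul, coeff_C_mul, one_mul] at h
  have h0 := mul_coeff n 0 b z
  rw [Nat.add_zero] at h0
  rw [h0, mul_coeff n 1 b z] at h
  intro hzero
  apply h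
  rw [ev_split] at hzero
  rw [Finset.sum_range_succ (n := n) (f := fun k => if k + 1 ≤ n then
        ((b k * b (k + 1) : ℝ) : ℂ) * z ^ (2 * k + 1) else 0), if_neg (by omega), add_zero,
    ← hzero]
  congr 1
  · refine Finset.sum_congr rfl (fun k hk => ?_)
    have hk' : k ≤ n := by simpa [Nat.lt_succ_iff] using hk
    rw [if_pos (by omega)]
    have e1 : 2 * k / 2 = k := by omega
    have e2 : (2 * k + 1) / 2 = k := by omega
    simp only [e1, e2, Nat.add_zero]
  · refine Finset.sum_congr rfl (fun k hk => ?_)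
    have hk' := Finset.mem_range.mp hk
    rw [if_pos (by omega)]
    have e1 : (2 * k + 1) / 2 = k := by omega
    have e2 : (2 * k + 1 + 1) / 2 = k + 1 := by omega
    simp only [e1, e2]

end B4
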