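import Mathlib
import Pool.Agent.B4.Hurwitz
import Pool.Agent.B4.NoZero
import Pool.Agent.B4.Start
import Pool.Agent.H62LR.Compose
import Pool.Agent.H62LR.Mult

/-!
# The reduction: certificate conditions imply that all real powers `r ≥ 2p` preserve `PF`
-/

open Polynomial Finset

namespace B4

open Pool.Agent.H62LR

lemma pf_mul {n : ℕ} {a b : ℕ → ℝ} (ha : PF n a) (hb : PF n b) : PF n (fun k => a k * b k) := by
  refine ((ms_choose n le_rfl).apply (ha.comp hb)).congr (fun k hk => ?_)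
  have := (choose_pos' hk).ne'
  rw [Real.rpow_one]
  field_simp

lemma pf_npow {n : ℕ} {b : ℕ → ℝ} (hb : PF n b) (N : ℕ) :
    PF n (fun k => b k ^ ((N : ℝ) + 1)) := by
  induction N with
  | zero => exact hb.congr (fun k _ => by simp)
  | succ N ih =>
    refine (pf_mul ih hb).congr (fun k hk => ?_)
    have h0 := hb.1 k hk
    push_cast
    rw [Real.rpow_add h0 ((N : ℝ) + 1) 1, Real.rpow_one]

/-- the coefficients of the homotopy: `a_k^r` at `2k`, `a_k^q a_{k+1}^{r-q}` at `2k+1`. -/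
noncomputable def hcf (q : ℝ) (a : ℕ → ℝ) (r : ℝ) (m : ℕ) : ℝ :=
  a (m / 2) ^ q * a ((m + 1) / 2) ^ (r - q)

lemma hcf_even (q : ℝ) (a : ℕ → ℝ) (r : ℝ) (k : ℕ) (hk : 0 < a k) :
    hcf q a r (2 * k) = a k ^ r := by
  unfold hcf
  have h1 : 2 * k / 2 = k := by omega
  have h2 : (2 * k + 1) / 2 = k := by omega
  rw [h1, h2, ← Real.rpow_add hk]
  congr 1; ring

lemma hcf_odd (q : ℝ) (a : ℕ → ℝ) (r : ℝ) (k : ℕ) :
    hcf q a r (2 * k + 1) = a k ^ q * a (k + 1) ^ (r - q) := by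
  unfold hcf
  have h1 : (2 * k + 1) / 2 = k := by omega
  have h2 : (2 * k + 1 + 1) / 2 = k + 1 := by omega
  rw [h1, h2]

/-- **General interval theorem**: a Hurwitz start at `r0` and no common zeros of the two companions
`∑ a_k^r x^k`, `∑ a_k^q a_{k+1}^{r-q} x^k` on the negative axis for `r ∈ [r0, r1]`. -/
theorem pf_interval_gen {n : ℕ} {a : ℕ → ℝ} (ha : PF n a) (q r0 r1 : ℝ)
    (hstart : ∀ z : ℂ, 0 < z.re → ev (2 * n) (hcf q a r0) z ≠ 0)
    (hncz : 0 < n → ∀ r ∈ Set.Icc r0 r1, ∀ x : ℝ, 0 < x →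
      ∑ k ∈ range (n + 1), (-x) ^ k * a k ^ r = 0 →
      ∑ k ∈ range n, (-x) ^ k * (a k ^ q * a (k + 1) ^ (r - q)) = 0 → False) :
    ∀ r ∈ Set.Icc r0 r1, PF n (fun k => a k ^ r) := by
  rcases Nat.eq_zero_or_pos n with hn | hn
  · subst hn
    intro r _
    refine ⟨fun k hk => Real.rpow_pos_of_pos (ha.1 k hk) r, fun z _ h => ?_⟩
    unfold ev at h
    simp at h
    exact (Real.rpow_pos_of_pos (ha.1 0 le_rfl) r).ne' h
  have hpos : ∀ r : ℝ, ∀ m ≤ 2 * n, 0 < hcf q a r m := by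
    intro r m hm
    exact mul_pos (Real.rpow_pos_of_pos (ha.1 _ (by omega)) _)
      (Real.rpow_pos_of_pos (ha.1 _ (by omega)) _)
  have hcont : ∀ m ≤ 2 * n, ContinuousOn (fun r => hcf q a r m) (Set.Icc r0 r1) := by
    intro m hm
    have h1 : 0 < a ((m + 1) / 2) := ha.1 _ (by omega)
    have h2 : Continuous (fun r : ℝ => a ((m + 1) / 2) ^ (r - q)) :=
      (Real.continuous_const_rpow h1.ne').comp (continuous_id.sub continuous_const)
    exact (continuous_const.mul h2).continuousOn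
  have himag : ∀ r ∈ Set.Icc r0 r1, ∀ z : ℂ, z.re = 0 → ev (2 * n) (hcf q a r) z ≠ 0 := by
    intro r hr z hz h
    have hz' : z = (z.im : ℂ) * Complex.I := by
      apply Complex.ext <;> simp [hz]
    set y := z.im with hy
    rw [hz', ev_imag] at h
    have hre := congrArg Complex.re h
    have him := congrArg Complex.im h
    simp only [Complex.add_re, Complex.ofReal_re, Complex.mul_re, Complex.I_re, mul_zero,
      Complex.ofReal_im, Complex.I_im, mul_one, sub_self, add_zero, Complex.zero_re] at hre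
    simp only [Complex.add_im, Complex.ofReal_im, Complex.mul_im, Complex.ofReal_re, Complex.I_im,
      mul_one, Complex.I_re, mul_zero, add_zero, zero_add, Complex.zero_im] at him
    have hE : ∑ k ∈ range (n + 1), (-(y ^ 2)) ^ k * a k ^ r = 0 := by
      rw [← hre]
      refine Finset.sum_congr rfl (fun k hk => ?_)
      have hk' : k ≤ n := by simpa [Nat.lt_succ_iff] using hk
      rw [hcf_even q a r k (ha.1 k hk')]
    by_cases hy0 : y = 0
    · rw [hy0, Finset.sum_range_succ'] at hE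
      have h1 : ∑ k ∈ range n, (-((0 : ℝ) ^ 2)) ^ (k + 1) * a (k + 1) ^ r = 0 := by
        refine Finset.sum_eq_zero (fun k _ => ?_)
        rw [pow_succ]
        simp
      rw [h1] at hE
      simp at hE
      exact (Real.rpow_pos_of_pos (ha.1 0 (Nat.zero_le _)) r).ne' hE
    · have hO : ∑ k ∈ range n, (-(y ^ 2)) ^ k * (a k ^ q * a (k + 1) ^ (r - q)) = 0 := by
        have h2 : ∑ k ∈ range n, (-(y ^ 2)) ^ k * hcf q a r (2 * k + 1) = 0 := by
          rcases mul_eq_zero.mp him with h3 | h3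
          · exact absurd h3 hy0
          · exact h3
        rw [← h2]
        refine Finset.sum_congr rfl (fun k _ => ?_)
        rw [hcf_odd]
      exact hncz hn r hr (y ^ 2) (by positivity) hE hO
  have key := hurwitz_homotopy (N := 2 * n) (fun r => hcf q a r) hcont
    (fun r _ => hpos r _ le_rfl) hstart himag
  intro r hr
  refine (pf_of_hurwitz (c := hcf q a r) (fun k hk => hpos r _ (by omega)) (key r hr)).congr
    (fun k hk => ?_)
  exact hcf_even q a r k (ha.1 k hk)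

/-- from the interval `[r0, r0 + 1]` to all `r ≥ r0`. -/
theorem pf_all_of_interval {n : ℕ} {a : ℕ → ℝ} (ha : PF n a) {r0 : ℝ}
    (h : ∀ r ∈ Set.Icc r0 (r0 + 1), PF n (fun k => a k ^ r)) {r : ℝ} (hr : r0 ≤ r) :
    PF n (fun k => a k ^ r) := by
  have h1 : (⌊r - r0⌋₊ : ℝ) ≤ r - r0 := Nat.floor_le (by linarith)
  have h2 : r - r0 < ⌊r - r0⌋₊ + 1 := Nat.lt_floor_add_one _
  set m := ⌊r - r0⌋₊ with hm
  have h3 := h (r - m) ⟨by linarith, by linarith⟩
  rcases Nat.eq_zero_or_pos m with hm0 | hm0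
  · refine h3.congr (fun k _ => ?_)
    rw [hm0, Nat.cast_zero, sub_zero]
  · obtain ⟨N, hN⟩ : ∃ N : ℕ, m = N + 1 := ⟨m - 1, by omega⟩
    refine (pf_mul h3 (pf_npow ha N)).congr (fun k hk => ?_)
    rw [← Real.rpow_add (ha.1 k hk)]
    congr 1
    rw [hN]
    push_cast
    ring

/-- the conditions of the certificate -/
def Cert (p n : ℕ) (δ γ : ℝ) (a : ℕ → ℝ) : Prop := HbE a p n γ ∧ HD a p n δ γ ∧ HbO a p n δ γ

theorem pf_interval {n p : ℕ} (hp : 0 < p) {a : ℕ → ℝ} (ha : PF n a)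
    (h0 : ∀ k, n < k → a k = 0) {δ γ : ℝ} (hC : Cert p n δ γ a) :
    ∀ r ∈ Set.Icc (2 * (p : ℝ)) (2 * (p : ℝ) + 1), PF n (fun k => a k ^ r) := by
  obtain ⟨hbE, hD, hbO⟩ := hC
  have hb : PF n (fun k => a k ^ (p : ℝ)) := by
    obtain ⟨N, hN⟩ : ∃ N : ℕ, p = N + 1 := ⟨p - 1, by omega⟩
    rw [hN]
    push_cast
    exact pf_npow ha N
  refine pf_interval_gen ha (p : ℝ) _ _ (fun z hz => ?_) (fun hn r hr x hx hE hO =>
    no_common_zero_rpow n p a ha.1 h0 hn hp δ γ hbE hD hbO r hr.1 hr.2 x hx hE hO)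
  have h1 := start hb hz
  have h2 : ev (2 * n) (hcf (p : ℝ) a (2 * (p : ℝ))) z =
      ev (2 * n) (fun m => (fun k => a k ^ (p : ℝ)) (m / 2) *
        (fun k => a k ^ (p : ℝ)) ((m + 1) / 2)) z := by
    refine ev_congr (fun m _ => ?_) z
    unfold hcf
    have : 2 * (p : ℝ) - p = p := by ring
    rw [this]
  rw [h2]
  exact h1

/-- all real powers `r ≥ 2p`. -/
theorem pf_rpow {n p : ℕ} (hp : 0 < p) {a : ℕ → ℝ} (ha : PF n a)
    (h0 : ∀ k, n < k → a k = 0) {δ γ : ℝ} (hC : Cert p n δ γ a) {r : ℝ} (hr : 2 * (p : ℝ) ≤ r) :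
    PF n (fun k => a k ^ r) :=
  pf_all_of_interval ha (pf_interval hp ha h0 hC) hr

/-- `c t^r` preserves real-rootedness if all `a^r`, `a` real-rooted, are. -/
theorem preserves_of_pf {r : ℝ}
    (h : ∀ (n : ℕ) (a : ℕ → ℝ), PF n a → (∀ k, n < k → a k = 0) → PF n (fun k => a k ^ r))
    {c : ℝ} (hc : 0 < c) : Pool.Agent.H49.RR.Preserves (fun t => c * t ^ r) := by
  intro q hq
  have h3 := (h q.natDegree q.coeff (pf_of_pplus hq)
    (fun k hk => coeff_eq_zero_of_natDegree_lt hk)).const_mul hc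
  exact h3.realRooted

/-- the final form: `c t^r` preserves real-rootedness. -/
theorem preserves_rpow {p : ℕ} (hp : 0 < p)
    (hC : ∀ (n : ℕ) (a : ℕ → ℝ), PF n a → (∀ k, n < k → a k = 0) → ∃ δ γ : ℝ, Cert p n δ γ a)
    {r : ℝ} (hr : 2 * (p : ℝ) ≤ r) {c : ℝ} (hc : 0 < c) :
    Pool.Agent.H49.RR.Preserves (fun t => c * t ^ r) :=
  preserves_of_pf (fun n a ha h0 => by
    obtain ⟨δ, γ, h2⟩ := hC n a ha h0
    exact pf_rpow hp ha h0 h2 hr) hc

end B4
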